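import Pool.Agent.Lib.MP_f11a48_ag.KF.SpecB
import Pool.Agent.Lib.MP_f11a48_ag.AS.SpecR

/-! # Families of Kuga-Satake pairs over `F`: the bicommutant theorem, from project AS -/

set_option autoImplicit false

namespace Pool.Agent.Lib.MPf11a48.KF

open Matrix MvPolynomial Pool.Agent.Lib.MPf11a48.Tors
open Pool.Agent.Lib.MPf11a48.CM hiding OmegaM
open Pool.Agent.Lib.MPf11a48.U (AbData Ix HD EndAlg)
open Pool.Agent.Lib.MPf11a48.K3

namespace BicM

/-- a complex space of matrices stable under the automorphisms of `ℂ` over `Qbar` is spanned by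
matrices over `Qbar` -/
theorem qspan {ι : Type} [Fintype ι] (V : Submodule ℂ (Matrix ι ι ℂ))
    (h : ∀ τ : ℂ ≃+* ℂ, (∀ a ∈ Qbar, τ a = a) → ∀ Z ∈ V, Z.map τ ∈ V) : AS.QSpan V := by
  let e : (ι × ι → ℂ) →ₗ[ℂ] Matrix ι ι ℂ :=
    { toFun := fun v => Matrix.of fun i j => v (i, j)
      map_add' := fun _ _ => rfl
      map_smul' := fun _ _ => rfl }
  obtain ⟨W, hW⟩ := descent Qbar (V.comap e) (fun τ hτ v hv => h τ hτ _ hv)
  intro X hX
  have h1 : (fun v : ι × ι => X v.1 v.2) ∈ spanC W := by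
    rw [hW]
    exact hX
  have h2 : e (fun v : ι × ι => X v.1 v.2) = X := rfl
  rw [← h2]
  refine Submodule.span_induction (p := fun v _ => e v ∈ Submodule.span ℂ
    {Y : Matrix ι ι ℂ | Y ∈ V ∧ ∀ i j, Y i j ∈ Qbar}) ?_ ?_ ?_ ?_ h1
  · rintro _ ⟨w, hw, rfl⟩
    refine Submodule.subset_span ⟨?_, fun i j => (w (i, j)).2⟩
    have h3 : (fun v : ι × ι => algebraMap Qbar ℂ (w v)) ∈ spanC W :=
      Submodule.subset_span ⟨w, hw, rfl⟩
    rw [hW] at h3
    exact h3
  · rw [map_zero]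
    exact Submodule.zero_mem _
  · intro x y _ _ hx hy
    rw [map_add]
    exact Submodule.add_mem _ hx hy
  · intro a x _ hx
    rw [map_smul]
    exact Submodule.smul_mem _ _ hx

end BicM

theorem specFBic (h1 : AS.SpecASP) (h2 : AS.SpecBICQ) : SpecBicQ := by
  intro g N A c _ hA hc kk hτ hδ x hx
  exact h2 c (h1 Qbar g N A c le_rfl hA hc) kk (BicM.qspan kk hτ) hδ x hx

end Pool.Agent.Lib.MPf11a48.KF
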