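import Pool.Agent.Lib.MP_f11a48_ag.KF.SpecB
import Pool.Agent.Lib.MP_f11a48_ag.K3.LRat

/-! # Families of Kuga-Satake pairs over `F`: the Lie algebra of a torsor and automorphisms -/

set_option autoImplicit false

namespace Pool.Agent.Lib.MPf11a48.KF

open Matrix MvPolynomial Pool.Agent.Lib.MPf11a48.Tors
open Pool.Agent.Lib.MPf11a48.CM hiding OmegaM
open Pool.Agent.Lib.MPf11a48.GL2 (lie van tang en Geo)
open Pool.Agent.Lib.MPf11a48.K3

namespace LglM

variable {n : Type} [Fintype n] [DecidableEq n] {T : Set (GL n ℂ)}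

theorem van_tau {F : IntermediateField ℚ ℂ} (hH : ClosedOver F (grp T)) (τ : ℂ ≃+* ℂ)
    (hτ : ∀ a ∈ F, τ a = a) {p : MvPolynomial (n × n) ℂ} (hp : p ∈ van (grp T)) :
    map τ.toRingHom p ∈ van (grp T) := by
  intro h hh
  have hτ' : FixesField F τ.symm := by
    intro a ha
    rw [RingEquiv.symm_apply_eq]
    exact (hτ a ha).symm
  have h1 := hp _ (hH.tw_mem hτ' hh)
  have h2 : en h.1 = fun v => τ (en (tw τ.symm h).1 v) := by
    funext v
    exact (τ.apply_symm_apply _).symm
  rw [h2, LRatM.eval_tau, h1, map_zero]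

end LglM

theorem specFLgl : SpecFLgl := by
  intro n _ _ F T hT hH τ hτ M hM
  have hG := GL2.geo_of_torsor hT
  rw [LRatM.mem_lie_iff hG] at hM ⊢
  intro p hp
  have hτ' : ∀ a ∈ F, τ.symm a = a := by
    intro a ha
    rw [RingEquiv.symm_apply_eq]
    exact (hτ a ha).symm
  have h1 := hM _ (LglM.van_tau hH τ.symm hτ' hp)
  have h2 : map τ.toRingHom (map τ.symm.toRingHom p) = p := by
    rw [MvPolynomial.map_map]
    have : τ.toRingHom.comp τ.symm.toRingHom = RingHom.id ℂ := by
      ext x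
      exact τ.apply_symm_apply x
    rw [this, MvPolynomial.map_id]
  rw [← h2, LRatM.tang_tau, h1, map_zero]

end Pool.Agent.Lib.MPf11a48.KF
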