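import Pool.Agent.Lib.MP_f11a48_ag.KF.SpecB
import Pool.Agent.Lib.MP_f11a48_ag.KM.Rat

/-! # Families of Kuga-Satake pairs over `F`: the complex Lie algebra -/

set_option autoImplicit false
set_option linter.unusedSectionVars false

namespace Pool.Agent.Lib.MPf11a48.KF

open Matrix MvPolynomial Pool.Agent.Lib.MPf11a48.Tors
open Pool.Agent.Lib.MPf11a48.CM hiding OmegaM
open Pool.Agent.Lib.MPf11a48.GL2 (lie Geo)
open Pool.Agent.Lib.MPf11a48.GL2T (IsAlg)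
open Pool.Agent.Lib.MPf11a48.U (AbData Ix HD EndAlg)
open Pool.Agent.Lib.MPf11a48.K3 Pool.Agent.Lib.MPf11a48.KU Pool.Agent.Lib.MPf11a48.KM
open KLieM (bl clC gam)
open KGrpM (stab)
open KGrp3M (G0 sc ex)

namespace FRatM

open KRatM KRat2M KRat3M

section cliff

variable {n : ℕ} {I μ : Type} [Fintype μ] [DecidableEq μ]
  {B : Fin n → Matrix μ μ ℚ} {qB : Matrix (Fin n) (Fin n) ℚ} {ix : Fin n → I}
  {π : I → Matrix μ μ ℚ}

/-- the Clifford operators are linearly independent over `ℂ` -/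
theorem B_indep (hdet : qB.det ≠ 0) (horth : ∀ a b, ix a ≠ ix b → qB a b = 0)
    (hne : ∀ i, π i ≠ 0) (hcl : ∀ a b, B a * B b + B b * B a = (2 * qB a b) • π (ix a))
    {d : Fin n → ℂ} (h : ∑ i, d i • cx (B i) = 0) : d = 0 := by
  have hclC : ∀ a b, cx (B a) * cx (B b) + cx (B b) * cx (B a) =
      (2 * cx qB a b) • cx (π (ix a)) := by
    intro a b
    rw [← cx_mul, ← cx_mul, ← cx_add, hcl, cx_smul]
    congr 1
    push_cast
    rfl
  have h1 : d ᵥ* cx qB = 0 := by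
    funext k
    have h2 : (∑ i, d i • cx (B i)) * cx (B k) + cx (B k) * (∑ i, d i • cx (B i)) = 0 := by
      rw [h, Matrix.zero_mul, Matrix.mul_zero, add_zero]
    have h3 : (∑ i, d i • cx (B i)) * cx (B k) + cx (B k) * (∑ i, d i • cx (B i)) =
        (2 * (d ᵥ* cx qB) k) • cx (π (ix k)) := by
      rw [Finset.sum_mul, Finset.mul_sum, ← Finset.sum_add_distrib]
      have h4 : ∀ i, d i • cx (B i) * cx (B k) + cx (B k) * d i • cx (B i) =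
          (d i * (2 * cx qB i k)) • cx (π (ix k)) := by
        intro i
        rw [Matrix.smul_mul, Matrix.mul_smul, ← smul_add, hclC, smul_smul]
        by_cases hik : ix i = ix k
        · rw [hik]
        · have h5 : cx qB i k = 0 := by
            change ((qB i k : ℚ) : ℂ) = 0
            rw [horth i k hik, Rat.cast_zero]
          rw [h5, mul_zero, mul_zero, zero_smul, zero_smul]
      simp only [h4]
      rw [← Finset.sum_smul]
      congr 1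
      rw [Matrix.vecMul, dotProduct, Finset.mul_sum]
      exact Finset.sum_congr rfl fun i _ => by ring
    rw [h3] at h2
    have hπ : cx (π (ix k)) ≠ 0 := by
      intro h0
      apply hne (ix k)
      ext i j
      have h6 := congrFun (congrFun h0 i) j
      change ((π (ix k) i j : ℚ) : ℂ) = 0 at h6
      exact_mod_cast h6
    have h4 := (smul_eq_zero.1 h2).resolve_right hπ
    rw [Pi.zero_apply]
    exact (mul_eq_zero.1 h4).resolve_left two_ne_zero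
  have h5 : d = d ᵥ* cx qB ᵥ* cx qB⁻¹ := by
    rw [Matrix.vecMul_vecMul, (KFull3M.q_inv hdet).1, Matrix.vecMul_one]
  rw [h5, h1, Matrix.zero_vecMul]

theorem act_unique (hdet : qB.det ≠ 0) (horth : ∀ a b, ix a ≠ ix b → qB a b = 0)
    (hne : ∀ i, π i ≠ 0) (hcl : ∀ a b, B a * B b + B b * B a = (2 * qB a b) • π (ix a))
    {ρ ρ' : Matrix (Fin n) (Fin n) ℂ}
    (h : ∀ j, ∑ i, ρ i j • cx (B i) = ∑ i, ρ' i j • cx (B i)) : ρ = ρ' := by
  ext i j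
  have h1 : ∑ i, (ρ i j - ρ' i j) • cx (B i) = 0 := by
    simp only [sub_smul]
    rw [Finset.sum_sub_distrib, h j, sub_self]
  have h2 := congrFun (B_indep hdet horth hne hcl h1) i
  simp only [Pi.zero_apply] at h2
  exact sub_eq_zero.1 h2

/-- brackets of operators which act on the Clifford operators -/
theorem act_br {C : Fin n → Matrix μ μ ℂ} {Z Z' : Matrix μ μ ℂ} {ρ ρ' : Matrix (Fin n) (Fin n) ℂ}
    (h : ∀ j, Z * C j - C j * Z = ∑ i, ρ i j • C i)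
    (h' : ∀ j, Z' * C j - C j * Z' = ∑ i, ρ' i j • C i) (j : Fin n) :
    (Z * Z' - Z' * Z) * C j - C j * (Z * Z' - Z' * Z) = ∑ i, (ρ * ρ' - ρ' * ρ) i j • C i := by
  have e1 : (Z * Z' - Z' * Z) * C j - C j * (Z * Z' - Z' * Z) =
      (Z * (Z' * C j - C j * Z') - (Z' * C j - C j * Z') * Z) -
      (Z' * (Z * C j - C j * Z) - (Z * C j - C j * Z) * Z') := by
    noncomm_ring
  have e2 : ∀ (W : Matrix μ μ ℂ) (r : Fin n → ℂ),
      W * (∑ i, r i • C i) - (∑ i, r i • C i) * W = ∑ i, r i • (W * C i - C i * W) := by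
    intro W r
    rw [Finset.mul_sum, Finset.sum_mul, ← Finset.sum_sub_distrib]
    exact Finset.sum_congr rfl fun i _ => by rw [Matrix.mul_smul, Matrix.smul_mul, smul_sub]
  rw [e1, h, h', e2, e2]
  simp only [h, h', Finset.smul_sum, smul_smul]
  rw [Finset.sum_comm, Finset.sum_comm (f := fun i k => (ρ i j * ρ' k i) • C k),
    ← Finset.sum_sub_distrib]
  refine Finset.sum_congr rfl fun i _ => ?_
  rw [← Finset.sum_smul, ← Finset.sum_smul, ← sub_smul, Matrix.sub_apply, Matrix.mul_apply,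
    Matrix.mul_apply]
  congr 1
  congr 1
  · exact Finset.sum_congr rfl fun k _ => mul_comm _ _
  · exact Finset.sum_congr rfl fun k _ => mul_comm _ _

end cliff

/-- brackets of similitudes -/
theorem sim_br {μ : Type} [Fintype μ] {ψ Z Z' : Matrix μ μ ℂ} {m m' : ℂ}
    (h : Zᵀ * ψ + ψ * Z = m • ψ) (h' : Z'ᵀ * ψ + ψ * Z' = m' • ψ) :
    (Z * Z' - Z' * Z)ᵀ * ψ + ψ * (Z * Z' - Z' * Z) = (0 : ℂ) • ψ := by
  have e1 : Zᵀ * ψ = m • ψ - ψ * Z := eq_sub_of_add_eq h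
  have e2 : Z'ᵀ * ψ = m' • ψ - ψ * Z' := eq_sub_of_add_eq h'
  rw [transpose_sub, transpose_mul, transpose_mul, Matrix.sub_mul, Matrix.mul_assoc,
    Matrix.mul_assoc, e1, e2, Matrix.mul_sub, Matrix.mul_sub, Matrix.mul_smul, Matrix.mul_smul,
    ← Matrix.mul_assoc, ← Matrix.mul_assoc, e1, e2, zero_smul]
  simp only [Matrix.sub_mul, Matrix.mul_sub, Matrix.smul_mul, smul_sub, ← Matrix.mul_assoc]
  rw [smul_comm m m']
  abel

theorem so_br {n : ℕ} {qB : Matrix (Fin n) (Fin n) ℚ} {E : Set (Matrix (Fin n) (Fin n) ℚ)}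
    {ρ ρ' : Matrix (Fin n) (Fin n) ℂ} (h : ρ ∈ soC qB E) (h' : ρ' ∈ soC qB E) :
    ρ * ρ' - ρ' * ρ ∈ soC qB E := by
  refine ⟨?_, fun e he => ?_⟩
  · have e1 : ρᵀ * cx qB = -(cx qB * ρ) := eq_neg_of_add_eq_zero_left h.1
    have e2 : ρ'ᵀ * cx qB = -(cx qB * ρ') := eq_neg_of_add_eq_zero_left h'.1
    rw [transpose_sub, transpose_mul, transpose_mul, Matrix.sub_mul, Matrix.mul_assoc,
      Matrix.mul_assoc, e1, e2, Matrix.mul_neg, Matrix.mul_neg, ← Matrix.mul_assoc,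
      ← Matrix.mul_assoc, e1, e2]
    simp only [Matrix.neg_mul, Matrix.mul_sub, Matrix.mul_assoc]
    abel
  · rw [Matrix.sub_mul, Matrix.mul_sub, Matrix.mul_assoc, h'.2 e he, ← Matrix.mul_assoc,
      h.2 e he, Matrix.mul_assoc ρ' ρ, h.2 e he, ← Matrix.mul_assoc ρ', h'.2 e he,
      Matrix.mul_assoc, Matrix.mul_assoc]

theorem so_add {n : ℕ} {qB : Matrix (Fin n) (Fin n) ℚ} {E : Set (Matrix (Fin n) (Fin n) ℚ)}
    {ρ ρ' : Matrix (Fin n) (Fin n) ℂ} (h : ρ ∈ soC qB E) (h' : ρ' ∈ soC qB E) :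
    ρ + ρ' ∈ soC qB E := by
  refine ⟨?_, fun e he => ?_⟩
  · rw [Matrix.transpose_add, Matrix.add_mul, Matrix.mul_add, add_add_add_comm, h.1, h'.1,
      add_zero]
  · rw [Matrix.add_mul, Matrix.mul_add, h.2 e he, h'.2 e he]

theorem so_smul {n : ℕ} {qB : Matrix (Fin n) (Fin n) ℚ} {E : Set (Matrix (Fin n) (Fin n) ℚ)}
    (r : ℂ) {ρ : Matrix (Fin n) (Fin n) ℂ} (h : ρ ∈ soC qB E) : r • ρ ∈ soC qB E := by
  refine ⟨?_, fun e he => ?_⟩
  · rw [Matrix.transpose_smul, Matrix.smul_mul, Matrix.mul_smul, ← smul_add, h.1, smul_zero]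
  · rw [Matrix.smul_mul, Matrix.mul_smul, h.2 e he]

theorem mp_cx (τ : ℂ ≃+* ℂ) {μ ν : Type} (A : Matrix μ ν ℚ) : (cx A).map τ = cx A := by
  ext i j
  change τ ((A i j : ℚ) : ℂ) = ((A i j : ℚ) : ℂ)
  exact map_ratCast τ _

theorem mp_mul (τ : ℂ ≃+* ℂ) {μ ν κ : Type} [Fintype ν] (X : Matrix μ ν ℂ) (Y : Matrix ν κ ℂ) :
    (X * Y).map τ = X.map τ * Y.map τ := Matrix.map_mul (f := (τ : ℂ →+* ℂ))

theorem mp_add (τ : ℂ ≃+* ℂ) {μ ν : Type} (X Y : Matrix μ ν ℂ) :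
    (X + Y).map τ = X.map τ + Y.map τ := by
  ext i j
  exact map_add τ _ _

theorem mp_sub (τ : ℂ ≃+* ℂ) {μ ν : Type} (X Y : Matrix μ ν ℂ) :
    (X - Y).map τ = X.map τ - Y.map τ := by
  ext i j
  exact map_sub τ _ _

theorem mp_smul (τ : ℂ ≃+* ℂ) {μ ν : Type} (a : ℂ) (X : Matrix μ ν ℂ) :
    (a • X).map τ = τ a • X.map τ := by
  ext i j
  exact map_mul τ _ _

theorem mp_zero (τ : ℂ ≃+* ℂ) {μ ν : Type} : (0 : Matrix μ ν ℂ).map τ = 0 := by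
  ext i j
  exact map_zero τ

theorem mp_sum (τ : ℂ ≃+* ℂ) {μ ν ι : Type} [Fintype ι] (X : ι → Matrix μ ν ℂ) :
    (∑ i, X i).map τ = ∑ i, (X i).map τ := by
  ext a b
  rw [Matrix.map_apply, Matrix.sum_apply, Matrix.sum_apply, map_sum]
  rfl

theorem so_map (τ : ℂ ≃+* ℂ) {n : ℕ} {qB : Matrix (Fin n) (Fin n) ℚ}
    {E : Set (Matrix (Fin n) (Fin n) ℚ)} {ρ : Matrix (Fin n) (Fin n) ℂ} (h : ρ ∈ soC qB E) :
    ρ.map τ ∈ soC qB E := by
  refine ⟨?_, fun e he => ?_⟩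
  · have h1 := congrArg (fun X => X.map τ) h.1
    simp only [mp_add, mp_mul, mp_cx, mp_zero] at h1
    exact h1
  · have h1 := congrArg (fun X => X.map τ) (h.2 e he)
    simp only [mp_mul, mp_cx] at h1
    exact h1

theorem mp_lb3 (τ : ℂ ≃+* ℂ) {g n : ℕ} (Z : Matrix (Ix g) (Ix g) ℂ)
    (ρ : Matrix (Fin n) (Fin n) ℂ) (m : ℂ) :
    (lb3 Z ρ m).map τ = lb3 (Z.map τ) (ρ.map τ) (τ m) := by
  ext i j
  rcases i with i | (i | i) <;> rcases j with j | (j | j)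
  · rfl
  · exact map_zero τ
  · exact map_zero τ
  · exact map_zero τ
  · rfl
  · exact map_zero τ
  · exact map_zero τ
  · exact map_zero τ
  · rfl

end FRatM

open KRatM KRat2M KRat3M FRatM in
theorem specFRat (hBic : SpecBicQ) (hLgl : SpecFLgl) (hHDA : U.SpecHDA) (hClb : SpecMClb) :
    SpecFRat := by
  intro D F T hT
  have hKS := D.ks
  obtain ⟨⟨J, hJ⟩, hEnd⟩ := hHDA Qbar D.g D.N D.A D.c le_rfl hKS.abvar hKS.per
  change HD D.c J D.A.psi at hJ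
  have hG := GL2.geo_of_torsor hT.tor
  let kk : Submodule ℂ (Matrix (Ix D.g) (Ix D.g) ℂ) :=
    { carrier := {Z | ∃ (m : ℂ) (ρ : Matrix (Fin D.n) (Fin D.n) ℂ),
        Zᵀ * cx D.A.psi + cx D.A.psi * Z = m • cx D.A.psi ∧
        ρ ∈ soC D.qB D.E ∧ lb3 Z ρ m ∈ lie T ∧
        (∀ j, Z * cx (D.B j) - cx (D.B j) * Z = ∑ i, ρ i j • cx (D.B i)) ∧
        ∀ Z₀ ∈ EndAlg D.c.1, Z * cx Z₀ = cx Z₀ * Z}
      add_mem' := by
        rintro a b ⟨m, ρ, hm, hρ, hl, h1, h3⟩ ⟨m', ρ', hm', hρ', hl', h2, h4⟩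
        refine ⟨m + m', ρ + ρ', ?_, so_add hρ hρ', ?_, fun j => ?_, fun Z₀ hZ₀ => ?_⟩
        · rw [Matrix.transpose_add, Matrix.add_mul, Matrix.mul_add, add_add_add_comm, hm, hm',
            add_smul]
        · rw [KRat3M.lb3_add]
          exact add_mem hl hl'
        · have e1 : (a + b) * cx (D.B j) - cx (D.B j) * (a + b) =
              (a * cx (D.B j) - cx (D.B j) * a) + (b * cx (D.B j) - cx (D.B j) * b) := by
            noncomm_ring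
          rw [e1, h1 j, h2 j, ← Finset.sum_add_distrib]
          exact Finset.sum_congr rfl fun i _ => by rw [Matrix.add_apply, add_smul]
        · rw [Matrix.add_mul, Matrix.mul_add, h3 Z₀ hZ₀, h4 Z₀ hZ₀]
      zero_mem' := by
        refine ⟨0, 0, by simp, ⟨by simp, by simp⟩, ?_, fun j => by simp, fun Z₀ _ => by simp⟩
        rw [KRat3M.lb3_zero]
        exact zero_mem _
      smul_mem' := by
        rintro r a ⟨m, ρ, hm, hρ, hl, h1, h3⟩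
        refine ⟨r * m, r • ρ, ?_, so_smul r hρ, ?_, fun j => ?_, fun Z₀ hZ₀ => ?_⟩
        · rw [Matrix.transpose_smul, Matrix.smul_mul, Matrix.mul_smul, ← smul_add, hm, smul_smul]
        · rw [KRat3M.lb3_smul]
          exact Submodule.smul_mem _ _ hl
        · rw [Matrix.smul_mul, Matrix.mul_smul, ← smul_sub, h1 j, Finset.smul_sum]
          exact Finset.sum_congr rfl fun i _ => by rw [Matrix.smul_apply, smul_eq_mul, smul_smul]
        · rw [Matrix.smul_mul, Matrix.mul_smul, h3 Z₀ hZ₀] }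
  have hkk : ∀ Z ∈ kk, ∃ (m : ℂ) (ρ : Matrix (Fin D.n) (Fin D.n) ℂ),
      Zᵀ * cx D.A.psi + cx D.A.psi * Z = m • cx D.A.psi ∧
      ρ ∈ soC D.qB D.E ∧ lb3 Z ρ m ∈ lie T ∧
      (∀ j, Z * cx (D.B j) - cx (D.B j) * Z = ∑ i, ρ i j • cx (D.B i)) ∧
      ∀ Z₀ ∈ EndAlg D.c.1, Z * cx Z₀ = cx Z₀ * Z :=
    fun Z hZ => hZ
  have huniq : ∀ {ρ ρ' : Matrix (Fin D.n) (Fin D.n) ℂ},
      (∀ j, ∑ i, ρ i j • cx (D.B i) = ∑ i, ρ' i j • cx (D.B i)) → ρ = ρ' :=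
    fun h => act_unique hKS.det hKS.orth hKS.ne hKS.clifford h
  have hψ0 : cx D.A.psi ≠ 0 := by
    intro h0
    have h9 : D.A.psi = 0 := by
      ext i j
      have h10 := congrFun (congrFun h0 i) j
      change ((D.A.psi i j : ℚ) : ℂ) = 0 at h10
      exact_mod_cast h10
    have : Nonempty (Ix D.g) := ⟨Sum.inl ⟨0, hKS.pos⟩⟩
    apply hJ.det
    rw [h9]
    exact Matrix.det_zero
  have huniqm : ∀ {m m' : ℂ}, m • cx D.A.psi = m' • cx D.A.psi → m = m' := by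
    intro m m' h
    have h1 : (m - m') • cx D.A.psi = 0 := by rw [sub_smul, h, sub_self]
    exact sub_eq_zero.1 ((smul_eq_zero.1 h1).resolve_right hψ0)
  -- the logarithmic derivatives
  have hlog : ∀ δ : Derivation Qbar ℂ ℂ, ∃ ρ : Matrix (Fin D.n) (Fin D.n) ℂ,
      (D.c.1.map δ * D.c⁻¹.1)ᵀ * cx D.A.psi + cx D.A.psi * (D.c.1.map δ * D.c⁻¹.1) =
        (δ (2 * Real.pi * Complex.I) / (2 * Real.pi * Complex.I)) • cx D.A.psi ∧
      ρ ∈ soC D.qB D.E ∧ lb3 (D.c.1.map δ * D.c⁻¹.1) ρ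
        (δ (2 * Real.pi * Complex.I) / (2 * Real.pi * Complex.I)) ∈ lie T ∧
      (∀ j, (D.c.1.map δ * D.c⁻¹.1) * cx (D.B j) - cx (D.B j) * (D.c.1.map δ * D.c⁻¹.1) =
        ∑ i, ρ i j • cx (D.B i)) ∧
      ∀ Z₀ ∈ EndAlg D.c.1, (D.c.1.map δ * D.c⁻¹.1) * cx Z₀ =
        cx Z₀ * (D.c.1.map δ * D.c⁻¹.1) := by
    intro δ
    obtain ⟨ψdR, hψ, hleg⟩ := hJ.leg
    have hX := U.SimM.log_deriv D.c D.A.psi ψdR hψ hleg δ
    have hx1 := hG.deriv_mem hT.mem δ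
    rw [log_bd3] at hx1
    have hx2 := log_form D.t D.qB D.qdR hKS.alg hKS.form δ
    have hx3 : ∀ e ∈ D.E, (D.t.1.map δ * D.t⁻¹.1) * cx e = cx e * (D.t.1.map δ * D.t⁻¹.1) := by
      intro e he
      obtain ⟨e', he', h⟩ := hKS.endT e he
      exact log_end D.t e e' he' h δ
    have hx4 : ∀ Z₀ ∈ EndAlg D.c.1,
        (D.c.1.map δ * D.c⁻¹.1) * cx Z₀ = cx Z₀ * (D.c.1.map δ * D.c⁻¹.1) := by
      intro Z₀ hZ₀
      obtain ⟨Z', hZ', h⟩ := hZ₀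
      exact log_end D.c Z₀ Z' hZ' h δ
    have hX2 := log_cliff D.c D.t D.B hKS.morphism δ
    have htpi : ((tpi : ℂˣ) : ℂ) = 2 * Real.pi * Complex.I := rfl
    rw [htpi] at hx1
    exact ⟨D.t.1.map δ * D.t⁻¹.1, hX, ⟨hx2, hx3⟩, hx1, hX2, hx4⟩
  have hlogk : ∀ δ : Derivation Qbar ℂ ℂ, D.c.1.map δ * D.c⁻¹.1 ∈ kk := by
    intro δ
    obtain ⟨ρ, h⟩ := hlog δ
    exact ⟨_, ρ, h⟩
  have hbr : ∀ Z ∈ kk, ∀ Z' ∈ kk, Z * Z' - Z' * Z ∈ kk := by
    intro Z hZ Z' hZ'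
    obtain ⟨m, ρ, h1, h2, h3, h4, h5⟩ := hkk Z hZ
    obtain ⟨m', ρ', h1', h2', h3', h4', h5'⟩ := hkk Z' hZ'
    refine ⟨0, ρ * ρ' - ρ' * ρ, sim_br h1 h1', so_br h2 h2', ?_, act_br h4 h4',
      fun Z₀ hZ₀ => ?_⟩
    · have h6 := GL2.lie_br h3 h3'
      rw [lb3_mul, lb3_mul, KFull3M.lb3_sub, mul_comm m' m, sub_self] at h6
      exact h6
    · rw [Matrix.sub_mul, Matrix.mul_sub, Matrix.mul_assoc, h5' Z₀ hZ₀, ← Matrix.mul_assoc,
        h5 Z₀ hZ₀, Matrix.mul_assoc Z' Z, h5 Z₀ hZ₀, ← Matrix.mul_assoc Z', h5' Z₀ hZ₀,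
        Matrix.mul_assoc, Matrix.mul_assoc]
  have hpE : ∀ i, D.π i ∈ EndAlg D.c.1 := fun i =>
    D.full _ fun ρ _ => KM.RatM.pi_cli hKS.mul hKS.left hKS.right i ρ
  -- the Galois action
  have hgal : ∀ τ : ℂ ≃+* ℂ, (∀ a ∈ F, τ a = a) → ∀ (Z : Matrix (Ix D.g) (Ix D.g) ℂ) (m : ℂ)
      (ρ : Matrix (Fin D.n) (Fin D.n) ℂ),
      (Zᵀ * cx D.A.psi + cx D.A.psi * Z = m • cx D.A.psi ∧
        ρ ∈ soC D.qB D.E ∧ lb3 Z ρ m ∈ lie T ∧
        (∀ j, Z * cx (D.B j) - cx (D.B j) * Z = ∑ i, ρ i j • cx (D.B i)) ∧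
        ∀ Z₀ ∈ EndAlg D.c.1, Z * cx Z₀ = cx Z₀ * Z) →
      ((Z.map τ)ᵀ * cx D.A.psi + cx D.A.psi * Z.map τ = τ m • cx D.A.psi ∧
        ρ.map τ ∈ soC D.qB D.E ∧ lb3 (Z.map τ) (ρ.map τ) (τ m) ∈ lie T ∧
        (∀ j, Z.map τ * cx (D.B j) - cx (D.B j) * Z.map τ = ∑ i, ρ.map τ i j • cx (D.B i)) ∧
        ∀ Z₀ ∈ EndAlg D.c.1, Z.map τ * cx Z₀ = cx Z₀ * Z.map τ) := by
    rintro τ hτ Z m ρ ⟨h1, h2, h3, h4, h5⟩
    refine ⟨?_, so_map τ h2, ?_, fun j => ?_, fun Z₀ hZ₀ => ?_⟩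
    · have h6 := congrArg (fun X => X.map τ) h1
      simp only [mp_add, mp_mul, mp_cx, mp_smul] at h6
      exact h6
    · rw [← mp_lb3]
      exact hLgl _ F T hT.tor hT.cl τ hτ _ h3
    · have h6 := congrArg (fun X => X.map τ) (h4 j)
      simp only [mp_sub, mp_mul, mp_cx, mp_sum, mp_smul] at h6
      exact h6
    · have h6 := congrArg (fun X => X.map τ) (h5 Z₀ hZ₀)
      simp only [mp_mul, mp_cx] at h6
      exact h6
  have hadj : ∀ x : Matrix (Ix D.g) (Ix D.g) ℂ, (∀ Z ∈ EndAlg D.c.1, x * cx Z = cx Z * x) →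
      x ∈ Algebra.adjoin ℂ (kk : Set (Matrix (Ix D.g) (Ix D.g) ℂ)) := by
    refine hBic D.g D.N D.A D.c hKS.pos hKS.abvar hKS.per kk ?_ hlogk
    intro τ hτ Z hZ
    obtain ⟨m, ρ, h⟩ := hkk Z hZ
    exact ⟨τ m, ρ.map τ, hgal τ (fun a ha => hτ a (hT.le ha)) Z m ρ h⟩
  have hkk' := hkk
  choose! mm rr hr using hkk'
  refine ⟨kk, rr, mm, ⟨hbr, ?_, ?_, ?_, ?_, ?_, ?_, ?_, ?_, ?_, ?_, ?_⟩, ?_, ?_⟩
  · intro Z hZ Z' hZ'
    refine huniq fun j => ?_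
    rw [← (hr _ (hbr Z hZ Z' hZ')).2.2.2.1 j]
    exact act_br (hr Z hZ).2.2.2.1 (hr Z' hZ').2.2.2.1 j
  · intro Z hZ Z' hZ'
    refine huniq fun j => ?_
    rw [← (hr _ (kk.add_mem hZ hZ')).2.2.2.1 j]
    simp only [Matrix.add_apply, add_smul]
    rw [Finset.sum_add_distrib, ← (hr Z hZ).2.2.2.1 j, ← (hr Z' hZ').2.2.2.1 j]
    noncomm_ring
  · intro a Z hZ
    refine huniq fun j => ?_
    rw [← (hr _ (kk.smul_mem a hZ)).2.2.2.1 j]
    simp only [Matrix.smul_apply, smul_assoc]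
    rw [← Finset.smul_sum, ← (hr Z hZ).2.2.2.1 j, Matrix.smul_mul, Matrix.mul_smul, smul_sub]
  · exact fun Z hZ => (hr Z hZ).1
  · exact fun Z hZ => (hr Z hZ).2.1
  · exact fun Z hZ => (hr Z hZ).2.2.2.1
  · exact fun Z hZ => (hr Z hZ).2.2.2.2
  · exact fun Z hZ i => (hr Z hZ).2.2.2.2 _ (hpE i)
  · intro τ hτ Z hZ
    have h1 := hgal τ hτ Z _ _ (hr Z hZ)
    have h2 : Z.map τ ∈ kk := ⟨_, _, h1⟩
    have h3 := hr _ h2
    refine ⟨h2, huniq fun j => ?_, huniqm ?_⟩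
    · rw [← h3.2.2.2.1 j]
      exact h1.2.2.2.1 j
    · rw [← h3.1]
      exact h1.1
  · intro ρ hρ
    exact hadj _ ((hClb D).2.2.2.2.2.2 ρ hρ)
  · intro i
    refine hadj _ fun Z₀ hZ₀ => ?_
    change cx (D.π i) * cx Z₀ = cx Z₀ * cx (D.π i)
    rw [← cx_mul, ← cx_mul, hKS.cen Z₀ (hEnd Z₀ hZ₀) i]
  · exact fun Z hZ => (hr Z hZ).2.2.1
  · obtain ⟨δ, hδ⟩ : ∃ δ : Derivation Qbar ℂ ℂ, δ (2 * Real.pi * Complex.I) ≠ 0 := by
      by_contra hne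
      push Not at hne
      exact U.SimM.two_pi_I_notMem (specDsc.2 _ hne)
    refine ⟨_, hlogk δ, ?_⟩
    obtain ⟨ρ, h, -⟩ := hlog δ
    have h1 := (hr _ (hlogk δ)).1
    rw [h] at h1
    rw [← huniqm h1]
    exact div_ne_zero hδ Complex.two_pi_I_ne_zero

end Pool.Agent.Lib.MPf11a48.KF
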