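import Pool.Agent.Lib.MP_f11a48_ag.KF.SpecA
import Pool.Agent.Lib.MP_f11a48_ag.KM.SpecB

/-!
# Families of Kuga-Satake pairs over a field `F`: specifications, part B (torsors and groups)

See SpecA.lean: adaptations of the modules of KM/, where `TT` (group over `ℚ`) is replaced by `TTF`
(group over `F`). MPSI, MCUR, MGNL, MDIA, MDER, MSCL (KM) are available. The new input is `SpecBicQ`
(row 1457, analytic subgroup theorem for all periods).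
-/

set_option autoImplicit false

namespace Pool.Agent.Lib.MPf11a48.KF

open Matrix MvPolynomial Pool.Agent.Lib.MPf11a48.Tors
open Pool.Agent.Lib.MPf11a48.CM hiding OmegaM
open Pool.Agent.Lib.MPf11a48.GL2 (lie Geo)
open Pool.Agent.Lib.MPf11a48.GL2T (IsAlg)
open Pool.Agent.Lib.MPf11a48.U (AbData Ix HD EndAlg)
open Pool.Agent.Lib.MPf11a48.K3 Pool.Agent.Lib.MPf11a48.KU Pool.Agent.Lib.MPf11a48.KM
open KLieM (bl clC gam)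
open KGrpM (stab)
open KGrp3M (G0 sc ex)

/-- BICQ (row 1457): the bicommutant theorem for a complex space `kk` of matrices, stable under the
automorphisms of `ℂ` over `Qbar`, which contains the logarithmic derivatives of the period matrix of an
abelian variety over `Qbar`. -/
def SpecBicQ : Prop :=
  ∀ (g N : ℕ) (A : AbData g N) (c : GL (Ix g) ℂ), 0 < g → A.IsAbVar Qbar → c.1 = A.per →
    ∀ kk : Submodule ℂ (Matrix (Ix g) (Ix g) ℂ),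
    (∀ τ : ℂ ≃+* ℂ, (∀ a ∈ Qbar, τ a = a) → ∀ Z ∈ kk, Z.map τ ∈ kk) →
    (∀ δ : Derivation Qbar ℂ ℂ, c.1.map δ * c⁻¹.1 ∈ kk) →
    ∀ x : Matrix (Ix g) (Ix g) ℂ, (∀ Z ∈ EndAlg c.1, x * cx Z = cx Z * x) →
      x ∈ Algebra.adjoin ℂ (kk : Set (Matrix (Ix g) (Ix g) ℂ))

/-- FLGL [60] (`LRatM.lie_tau`, K3/LRat.lean, with `F` instead of `⊥`). -/
def SpecFLgl : Prop :=
  ∀ (n : Type) [Fintype n] [DecidableEq n] (F : IntermediateField ℚ ℂ) (T : Set (GL n ℂ)),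
    IsTorsor Qbar T → ClosedOver F (grp T) → ∀ τ : ℂ ≃+* ℂ, (∀ a ∈ F, τ a = a) →
    ∀ M ∈ lie T, M.map τ ∈ lie T

/-- FRAT [250], from `SpecBicQ`, FLGL, `SpecHDA`, MCLB (KM/Rat.lean). `kk` is the set of all `Z` such
that there are `m`, `ρ` with: `Zᵀ psi + psi Z = m psi`, `ρ ∈ so`, `lb3 Z ρ m ∈ lie T`,
`[Z, B j] = ∑ ρ_ij B i`, and `Z` commutes with `EndAlg`. `gal`: FLGL, everything else is rational;
uniqueness of `ρ` (`RatM.act_unique` over `ℂ`) and of `m`. -/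
def SpecFRat : Prop :=
  ∀ (D : Dat) (F : IntermediateField ℚ ℂ) (T : Set (GL (Ix D.g ⊕ (Fin D.n ⊕ Unit)) ℂ)),
    TTF D F T → ∃ kk r mm, KKF D F kk r mm ∧ (∀ Z ∈ kk, lb3 Z (r Z) (mm Z) ∈ lie T) ∧
      ∃ Z ∈ kk, mm Z ≠ 0

/-- FFLA [120], from FRAT, FMZ, FLIE, MCLB, MMAT, `SpecPerf` (KM/Fla.lean). -/
def SpecFFla : Prop :=
  ∀ (D : Dat) (F : IntermediateField ℚ ℂ) (T : Set (GL (Ix D.g ⊕ (Fin D.n ⊕ Unit)) ℂ)),
    GF D F → TTF D F T →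
    ∀ (X : D.FR) (Y : D.FU), (∀ k, (X k)ᵀ = -X k) → (∀ k, (Y k).trace = 0) →
      lb3 (D.cl (D.wm X Y)) (D.wm X Y) 0 ∈ lie T

/-- FFLB [150], from FRAT, FMZ, FFLA, FFLT, FCNJ, MMAT, MCLB (KM/Flb.lean). Proof: as there, for
`Z ∈ kk`: `∑ (χ k / m' k) tr_k (Z) + r mm Z / 2 = 0`; for the `Z'` of FCNJ this gives
`-∑ (χ k / m' k) tr_k (Z) + r mm Z / 2 = 0`, so `r mm Z = 0` and `∑ (χ k / m' k) tr_k (Z) = 0`. -/
def SpecFFlb : Prop :=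
  ∀ (D : Dat) (F : IntermediateField ℚ ℂ) (T : Set (GL (Ix D.g ⊕ (Fin D.n ⊕ Unit)) ℂ)),
    GF D F → TTF D F T →
    ∀ (χ : D.U → ℚ) (r : ℚ), (∀ (z : D.U → ℂ) (s : ℂ),
      lb3 (D.cl (D.uz z) + s • 1) (D.uz z) (2 * s) ∈ lie T →
      ∑ k, (χ k : ℂ) * z k + (r : ℂ) * s = 0) → χ = 0 ∧ r = 0

/-- FTG [200], from FFLB, `SpecUTor`, MDIA, MDER, MCAR, MMAT, MCLB, `SpecCurve` (KM/Tg.lean). -/
def SpecFTg : Prop :=
  ∀ (D : Dat) (F : IntermediateField ℚ ℂ) (T : Set (GL (Ix D.g ⊕ (Fin D.n ⊕ Unit)) ℂ)),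
    GF D F → TTF D F T →
    ∀ (z : D.U → ℂ) (s : ℂ), lb3 (D.cl (D.uz z) + s • 1) (D.uz z) (2 * s) ∈ lie T

/-- FFUL [60], from FFLA, FTG, MCLB (KM/Ful.lean). -/
def SpecFFul : Prop :=
  ∀ (D : Dat) (F : IntermediateField ℚ ℂ) (T : Set (GL (Ix D.g ⊕ (Fin D.n ⊕ Unit)) ℂ)),
    GF D F → TTF D F T →
    (∀ (X : D.FR) (Y : D.FU), (∀ k, (X k)ᵀ = -X k) →
      lb3 (D.cl (D.wm X Y)) (D.wm X Y) 0 ∈ lie T) ∧
    lb3 ((2 : ℂ)⁻¹ • (1 : Matrix (Ix D.g) (Ix D.g) ℂ)) (0 : Matrix (Fin D.n) (Fin D.n) ℂ) 1 ∈ lie T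

/-- FSGN [150], from FFUL, MCAR, MMAT, MCLB, `SpecCurve`, `SpecHDA` (KM/Sgn.lean). -/
def SpecFSgn : Prop :=
  ∀ (D : Dat) (F : IntermediateField ℚ ℂ) (T : Set (GL (Ix D.g ⊕ (Fin D.n ⊕ Unit)) ℂ)),
    GF D F → TTF D F T → ∀ i,
    ∃ σ : GL (Ix D.g) ℂ, σ.1 = 1 - (2 : ℂ) • D.pc i ∧
      ((σ, 1, 1) : Grp3 D.g D.n) ∈ G0 D.B (EndAlg D.c.1) D.A.psi ⊓ (stab T).comap bd3

/-- FLFT [200], from FFUL, MPSI, MCLB, MMAT, MCUR, MGNL, `SpecGen`, `SpecCurve` (KM/Lft.lean). -/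
def SpecFLft : Prop :=
  ∀ (D : Dat) (F : IntermediateField ℚ ℂ) (T : Set (GL (Ix D.g ⊕ (Fin D.n ⊕ Unit)) ℂ)),
    GF D F → TTF D F T →
    ∀ (x : (k : D.R) → SO (D.m k)) (x' : (k : D.U) → GL (Fin (D.m' k)) ℂ),
    ∃ (a : GL (Ix D.g) ℂ) (X : GL (Fin D.n) ℂ), X.1 = D.wg (fun k => (x k).1) x' ∧
      ((a, X, 1) : Grp3 D.g D.n) ∈ G0 D.B (EndAlg D.c.1) D.A.psi ⊓ (stab T).comap bd3

/-- FGRP [200], from FLFT, FSGN, FFUL, MSCL, `SpecCurve`, `SpecHDA` (KM/Grp.lean). -/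
def SpecFGrp : Prop :=
  ∀ (D : Dat) (F : IntermediateField ℚ ℂ) (T : Set (GL (Ix D.g ⊕ (Fin D.n ⊕ Unit)) ℂ)),
    GF D F → TTF D F T →
    ∀ y ∈ gspinM D.A D.c D.qB D.B D.m D.P D.m' D.P' D.Q', bd3 (y * (D.c, D.t, tpi)) ∈ T

/-- FTEN [200] (KU/Ten.lean and C/Ten.lean, `ten`). Pull back the torsor `T'` (instead of
`OmegaDRB K M`) to a torsor `T` over `Qbar` in `GL(Ix g ⊕ (Fin n ⊕ Unit))`: its group is defined over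
`F` (`closedOver_sub`, `grp_pull3`, which have to be generalised from `⊥` to `F`: `Θ`, `iB` are
rational). So `f * M ∈ T'` for `f ∈ SubGroup 𝓖 Θ iB`, and `T'` is stable under the automorphisms over
`K`. -/
def SpecFTen : Prop :=
  ∀ (g n k : ℕ) (c : GL (Ix g) ℂ) (t : GL (Fin n) ℂ) (𝓖 : Set (Grp3 g n))
    (F : IntermediateField ℚ ℂ), F ≤ Qbar →
    (∀ T : Set (GL (Ix g ⊕ (Fin n ⊕ Unit)) ℂ), IsTorsor Qbar T → bd3 (c, t, tpi) ∈ T →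
      ClosedOver F (grp T) → ∀ y ∈ 𝓖, bd3 (y * (c, t, tpi)) ∈ T) →
    ∀ r : GL (Fin k) ℂ, IsAlg r.1 → ∀ K : IntermediateField ℚ ℂ, K ≤ Qbar →
    ∀ (ν ι : Type) [Fintype ν] [DecidableEq ν] [Fintype ι] [DecidableEq ι]
      (Θ : GL ((Ix g ⊕ Fin n) ⊕ Fin k) ℂ × ℂˣ → GL ν ℂ), C.IsRep Θ →
    ∀ (M : GL ι ℂ) (iB : Matrix ν ι ℚ),
      CMS.IsSubOver Qbar (Θ (CMS.dsum (CMS.dsum c t) r, tpi)) M iB →
    ∀ T' : Set (GL ι ℂ), IsTorsor K T' → M ∈ T' → ClosedOver F (grp T') →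
    ∀ f ∈ SubGroup 𝓖 Θ iB, ∀ h, GL2T.Conj K (f * M) h → h ∈ T'

end Pool.Agent.Lib.MPf11a48.KF
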