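import Pool.Agent.Lib.MP_f11a48_ag.KF.SpecA
import Pool.Agent.Lib.MP_f11a48_ag.KM.Blk

/-! # Surjectivity to the blocks, over a field `F` -/

set_option autoImplicit false
set_option linter.unusedSectionVars false

namespace Pool.Agent.Lib.MPf11a48.KF

open Matrix MvPolynomial Pool.Agent.Lib.MPf11a48.Tors
open Pool.Agent.Lib.MPf11a48.CM hiding OmegaM
open Pool.Agent.Lib.MPf11a48.GL2 (lie Geo)
open Pool.Agent.Lib.MPf11a48.GL2T (IsAlg)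
open Pool.Agent.Lib.MPf11a48.U (AbData Ix HD EndAlg)
open Pool.Agent.Lib.MPf11a48.K3 Pool.Agent.Lib.MPf11a48.KU Pool.Agent.Lib.MPf11a48.KM
open KLieM (bl clC gam)

namespace BlkM

theorem of_span {M : Type} [AddCommGroup M] [Module ℂ M] {S : Set M} (h0 : (0 : M) ∈ S)
    (ha : ∀ x ∈ S, ∀ y ∈ S, x + y ∈ S) (hs : ∀ (a : ℂ), ∀ x ∈ S, a • x ∈ S) {x : M}
    (hx : x ∈ Submodule.span ℂ S) : x ∈ S := by
  induction hx using Submodule.span_induction with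
  | mem x hx => exact hx
  | zero => exact h0
  | add x y _ _ h1 h2 => exact ha x h1 y h2
  | smul a x _ h => exact hs a x h

theorem xr_add (D : Dat) (ρ ρ' : Matrix (Fin D.n) (Fin D.n) ℂ) (k : D.R) :
    D.xr (ρ + ρ') k = D.xr ρ k + D.xr ρ' k := by
  unfold Dat.xr
  rw [Matrix.mul_add, Matrix.add_mul, Matrix.blockDiag'_add]
  rfl

theorem xr_smul (D : Dat) (a : ℂ) (ρ : Matrix (Fin D.n) (Fin D.n) ℂ) (k : D.R) :
    D.xr (a • ρ) k = a • D.xr ρ k := by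
  unfold Dat.xr
  rw [Matrix.mul_smul, Matrix.smul_mul, Matrix.blockDiag'_smul]
  rfl

theorem xu_add (D : Dat) (ρ ρ' : Matrix (Fin D.n) (Fin D.n) ℂ) (k : D.U) :
    D.xu (ρ + ρ') k = D.xu ρ k + D.xu ρ' k := by
  unfold Dat.xu xk
  rw [Matrix.mul_add, Matrix.add_mul, Matrix.blockDiag'_add]
  rfl

theorem xu_smul (D : Dat) (a : ℂ) (ρ : Matrix (Fin D.n) (Fin D.n) ℂ) (k : D.U) :
    D.xu (a • ρ) k = a • D.xu ρ k := by
  unfold Dat.xu xk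
  rw [Matrix.mul_smul, Matrix.smul_mul, Matrix.blockDiag'_smul]
  rfl

section

variable {D : Dat} {F : IntermediateField ℚ ℂ}
  {kk : Submodule ℂ (Matrix (Ix D.g) (Ix D.g) ℂ)}
  {r : Matrix (Ix D.g) (Ix D.g) ℂ → Matrix (Fin D.n) (Fin D.n) ℂ}
  {mm : Matrix (Ix D.g) (Ix D.g) ℂ → ℂ}

theorem r_zero (hK : KKF D F kk r mm) : r 0 = 0 := by
  have h := hK.rsmul 0 0 kk.zero_mem
  rwa [smul_zero, zero_smul] at h

theorem xr_zero (hK : KKF D F kk r mm) (k : D.R) : D.xr (r 0) k = 0 := by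
  have h := xr_smul D 0 (r 0) k
  rw [zero_smul, zero_smul] at h
  rw [r_zero hK]
  exact h

theorem xu_zero (hK : KKF D F kk r mm) (k : D.U) : D.xu (r 0) k = 0 := by
  have h := xu_smul D 0 (r 0) k
  rw [zero_smul, zero_smul] at h
  rw [r_zero hK]
  exact h

theorem xr_span (hK : KKF D F kk r mm) (k : D.R)
    {X : Matrix (Fin (D.m k)) (Fin (D.m k)) ℂ}
    (h : X ∈ Submodule.span ℂ {Y | ∃ Z ∈ kk, Y = D.xr (r Z) k}) :
    ∃ Z ∈ kk, X = D.xr (r Z) k := by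
  refine of_span (S := {Y | ∃ Z ∈ kk, Y = D.xr (r Z) k}) ⟨0, kk.zero_mem, (xr_zero hK k).symm⟩
    ?_ ?_ h
  · rintro _ ⟨Z, hZ, rfl⟩ _ ⟨Z', hZ', rfl⟩
    exact ⟨Z + Z', kk.add_mem hZ hZ', by rw [hK.radd Z hZ Z' hZ', xr_add]⟩
  · rintro a _ ⟨Z, hZ, rfl⟩
    exact ⟨a • Z, kk.smul_mem a hZ, by rw [hK.rsmul a Z hZ, xr_smul]⟩

theorem xu_span (hK : KKF D F kk r mm) (k : D.U)
    {X : Matrix (Fin (D.m' k)) (Fin (D.m' k)) ℂ}
    (h : X ∈ Submodule.span ℂ {Y | ∃ Z ∈ kk, Y = D.xu (r Z) k}) :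
    ∃ Z ∈ kk, X = D.xu (r Z) k := by
  refine of_span (S := {Y | ∃ Z ∈ kk, Y = D.xu (r Z) k}) ⟨0, kk.zero_mem, (xu_zero hK k).symm⟩
    ?_ ?_ h
  · rintro _ ⟨Z, hZ, rfl⟩ _ ⟨Z', hZ', rfl⟩
    exact ⟨Z + Z', kk.add_mem hZ hZ', by rw [hK.radd Z hZ Z' hZ', xu_add]⟩
  · rintro a _ ⟨Z, hZ, rfl⟩
    exact ⟨a • Z, kk.smul_mem a hZ, by rw [hK.rsmul a Z hZ, xu_smul]⟩

end

end BlkM

open BlkM KM.BlkM KRatM LieLM in
/-- Surjectivity to the blocks. -/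
theorem specFBlk (hMat : SpecMMat) (hCar : SpecMCar) (hFCar : SpecFCar) (hCmp : SpecMCmp)
    (hNI : SpecKNI) (hIso : SpecKIso) (hIrr : SpecKIrr) (hRep : SpecRep) (hUIrr : SpecUIrr)
    (hUni : SpecUni) : SpecFBlk := by
  intro D F kk r mm hK
  obtain ⟨hM1, -, hM3, hM4, -⟩ := hMat D
  obtain ⟨hgg, hee, hff, hef, hpg, hpe, hpf, -, hc, -⟩ := hCar D
  obtain ⟨hdg, hde⟩ := hFCar D F kk r mm hK
  have hso : ∀ Z ∈ kk, r Z ∈ D.so := fun Z hZ => hK.so Z hZ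
  have hwm : ∀ Z ∈ kk, r Z = D.wm (D.xr (r Z)) (D.xu (r Z)) :=
    fun Z hZ => (hM1 _ (hso Z hZ)).2
  have hact : ∀ Z ∈ kk, ∀ j, Z * cx (D.B j) - cx (D.B j) * Z =
      ∑ i, D.wm (D.xr (r Z)) (D.xu (r Z)) i j • cx (D.B i) := by
    intro Z hZ j
    rw [← hwm Z hZ]
    exact hK.act Z hZ j
  have hbr : ∀ Z ∈ kk, ∀ Z' ∈ kk,
      D.xr (r (Z * Z' - Z' * Z)) = (fun k => D.xr (r Z) k * D.xr (r Z') k -
        D.xr (r Z') k * D.xr (r Z) k) ∧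
      D.xu (r (Z * Z' - Z' * Z)) = (fun k => D.xu (r Z) k * D.xu (r Z') k -
        D.xu (r Z') k * D.xu (r Z) k) := by
    intro Z hZ Z' hZ'
    have h1 : r (Z * Z' - Z' * Z) = D.wm (fun k => D.xr (r Z) k * D.xr (r Z') k -
        D.xr (r Z') k * D.xr (r Z) k) (fun k => D.xu (r Z) k * D.xu (r Z') k -
        D.xu (r Z') k * D.xu (r Z) k) := by
      rw [hK.rbr Z hZ Z' hZ', ← hM4, ← hwm Z hZ, ← hwm Z' hZ']
    rw [h1]
    exact hM3 _ _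
  have hcomm : ∀ i, ∀ X ∈ (kk : Set (Matrix (Ix D.g) (Ix D.g) ℂ)),
      X * D.pc i = D.pc i * X := by
    intro i Z hZ
    exact hK.comp Z hZ i
  refine ⟨fun k X hX => ?_, fun k X hX => ?_⟩
  · -- real blocks
    obtain ⟨hC1, hC2⟩ := hCmp (Ix D.g) (D.pc (D.ox k)) (pc_mul D _)
    obtain ⟨ν, _, _, hν, L, R, hLR, hRL⟩ := hC1 (pc_ne D _)
    have hC3 := hC2 ν L R hLR hRL _ (hcomm (D.ox k))
    let γ : Fin (D.m k) → Matrix ν ν ℂ := fun a => L * D.gm ⟨k, a⟩ * R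
    have hgp : ∀ a : Fin (D.m k), D.gm ⟨k, a⟩ * D.pc (D.ox k) = D.gm ⟨k, a⟩ := by
      intro a
      rw [(hpg (D.ox k) ⟨k, a⟩).2, if_pos rfl]
    have hpg' : ∀ a : Fin (D.m k), D.pc (D.ox k) * D.gm ⟨k, a⟩ = D.gm ⟨k, a⟩ := by
      intro a
      rw [(hpg (D.ox k) ⟨k, a⟩).1, if_pos rfl]
    let K' : Set (Matrix ν ν ℂ × Matrix (Fin (D.m k)) (Fin (D.m k)) ℂ) :=
      {q | ∃ Z ∈ kk, q = (L * Z * R, D.xr (r Z) k)}
    have hsnd : Prod.snd '' K' = {Y | ∃ Z ∈ kk, Y = D.xr (r Z) k} := by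
      ext Y
      constructor
      · rintro ⟨_, ⟨Z, hZ, rfl⟩, rfl⟩
        exact ⟨Z, hZ, rfl⟩
      · rintro ⟨Z, hZ, rfl⟩
        exact ⟨_, ⟨Z, hZ, rfl⟩, rfl⟩
    have hfst : Prod.fst '' K' = (fun X => L * X * R) ''
        (kk : Set (Matrix (Ix D.g) (Ix D.g) ℂ)) := by
      ext Y
      constructor
      · rintro ⟨_, ⟨Z, hZ, rfl⟩, rfl⟩
        exact ⟨Z, hZ, rfl⟩
      · rintro ⟨Z, hZ, rfl⟩
        exact ⟨_, ⟨Z, hZ, rfl⟩, rfl⟩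
    have hCF : CF γ K' := by
      refine ⟨fun i j => ?_, ?_, ?_, fun i j => ?_⟩
      · have h1 := cmp_anti hLR hRL (hgp i) (hgp j) (hgg ⟨k, i⟩ ⟨k, j⟩)
        refine h1.trans ?_
        by_cases hij : i = j
        · subst hij; simp
        · have : (⟨k, i⟩ : (k : D.R) × Fin (D.m k)) ≠ ⟨k, j⟩ := fun h => hij (by simpa using h)
          rw [if_neg this, if_neg hij]
      · rintro _ ⟨Z, hZ, rfl⟩
        exact (hM1 _ (hso Z hZ)).1 k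
      · rintro _ ⟨Z, hZ, rfl⟩ j
        have h1 := (hc Z _ _ (hact Z hZ)).1 ⟨k, j⟩
        have h2 := cmp_comm (Z := Z) hRL (hgp j) (hpg' j)
        refine h2.trans ?_
        rw [h1, cmp_sum]
        exact sum_blk (D.xr (r Z)) (fun u => L * D.gm u * R) k j
      · rw [hfst]
        have h1 := hC3 _ (hdg ⟨k, i⟩ ⟨k, j⟩ rfl)
        have h2 : γ i * γ j = L * (D.gm ⟨k, i⟩ * D.gm ⟨k, j⟩) * R := cmp_mul hRL (hgp i)
        rw [h2]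
        exact h1
    have hno := hNI ν (D.m k) γ _ hCF
    rw [hsnd] at hno
    refine xr_span hK k (hRep ℂ (D.m k) (D.good.three k) (D.good.five k)
      (Submodule.span ℂ {Y | ∃ Z ∈ kk, Y = D.xr (r Z) k}) ?_ ?_ ?_
      (KLieM.noInv_mono Submodule.subset_span hno) X hX)
    · intro Y hY
      have hle : Submodule.span ℂ {Y | ∃ Z ∈ kk, Y = D.xr (r Z) k} ≤ blkS ℂ (D.m k) true := by
        refine Submodule.span_le.2 ?_
        rintro _ ⟨Z, hZ, rfl⟩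
        exact (hM1 _ (hso Z hZ)).1 k
      exact hle hY
    · refine span_br ?_
      rintro _ ⟨Z, hZ, rfl⟩ _ ⟨Z', hZ', rfl⟩
      exact ⟨_, hK.br Z hZ Z' hZ', (congrFun (hbr Z hZ Z' hZ').1 k).symm⟩
    · intro W hW
      refine hIrr (D.m k) {Y | ∃ Z ∈ kk, Y = D.xr (r Z) k} ?_ hno ?_ W
        fun X hX v hv => hW X (Submodule.subset_span hX) v hv
      · rintro _ ⟨Z, hZ, rfl⟩
        exact (hM1 _ (hso Z hZ)).1 k
      · intro W hW hiso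
        refine hIso ν (D.m k) γ _ (D.good.three k) hCF W ?_ hiso
        rintro _ ⟨Z, hZ, rfl⟩ v hv
        exact hW _ ⟨Z, hZ, rfl⟩ v hv
  · -- unitary blocks
    obtain ⟨hC1, hC2⟩ := hCmp (Ix D.g) (D.pc (D.ou k)) (pc_mul D _)
    obtain ⟨ν, _, _, hν, L, R, hLR, hRL⟩ := hC1 (pc_ne D _)
    have hC3 := hC2 ν L R hLR hRL _ (hcomm (D.ou k))
    let e : Fin (D.m' k) → Matrix ν ν ℂ := fun a => L * D.e ⟨k, a⟩ * R
    let f : Fin (D.m' k) → Matrix ν ν ℂ := fun a => L * D.f ⟨k, a⟩ * R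
    have hep : ∀ a : Fin (D.m' k), D.e ⟨k, a⟩ * D.pc (D.ou k) = D.e ⟨k, a⟩ := by
      intro a
      rw [(hpe (D.ou k) ⟨k, a⟩).2, if_pos rfl]
    have hpe' : ∀ a : Fin (D.m' k), D.pc (D.ou k) * D.e ⟨k, a⟩ = D.e ⟨k, a⟩ := by
      intro a
      rw [(hpe (D.ou k) ⟨k, a⟩).1, if_pos rfl]
    have hfp : ∀ a : Fin (D.m' k), D.f ⟨k, a⟩ * D.pc (D.ou k) = D.f ⟨k, a⟩ := by
      intro a
      rw [(hpf (D.ou k) ⟨k, a⟩).2, if_pos rfl]
    have hpf' : ∀ a : Fin (D.m' k), D.pc (D.ou k) * D.f ⟨k, a⟩ = D.f ⟨k, a⟩ := by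
      intro a
      rw [(hpf (D.ou k) ⟨k, a⟩).1, if_pos rfl]
    let K' : Set (Matrix ν ν ℂ × Matrix (Fin (D.m' k)) (Fin (D.m' k)) ℂ) :=
      {q | ∃ Z ∈ kk, q = (L * Z * R, D.xu (r Z) k)}
    have hsnd : Prod.snd '' K' = {Y | ∃ Z ∈ kk, Y = D.xu (r Z) k} := by
      ext Y
      constructor
      · rintro ⟨_, ⟨Z, hZ, rfl⟩, rfl⟩
        exact ⟨Z, hZ, rfl⟩
      · rintro ⟨Z, hZ, rfl⟩
        exact ⟨_, ⟨Z, hZ, rfl⟩, rfl⟩
    have hfst : Prod.fst '' K' = (fun X => L * X * R) ''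
        (kk : Set (Matrix (Ix D.g) (Ix D.g) ℂ)) := by
      ext Y
      constructor
      · rintro ⟨_, ⟨Z, hZ, rfl⟩, rfl⟩
        exact ⟨Z, hZ, rfl⟩
      · rintro ⟨Z, hZ, rfl⟩
        exact ⟨_, ⟨Z, hZ, rfl⟩, rfl⟩
    have hUF : UF e f K' := by
      refine ⟨⟨fun i j => ?_, fun i j => ?_, fun i j => ?_⟩, ?_, ?_, fun i j => ?_⟩
      · exact cmp_anti0 hRL (hep i) (hep j) (hee ⟨k, i⟩ ⟨k, j⟩)
      · exact cmp_anti0 hRL (hfp i) (hfp j) (hff ⟨k, i⟩ ⟨k, j⟩)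
      · have h1 := cmp_anti hLR hRL (hep i) (hfp j) (hef ⟨k, i⟩ ⟨k, j⟩)
        refine h1.trans ?_
        by_cases hij : i = j
        · subst hij; simp
        · have : (⟨k, i⟩ : (k : D.U) × Fin (D.m' k)) ≠ ⟨k, j⟩ := fun h => hij (by simpa using h)
          rw [if_neg this, if_neg hij]
      · rintro _ ⟨Z, hZ, rfl⟩ j
        have h1 := (hc Z _ _ (hact Z hZ)).2.1 ⟨k, j⟩
        have h2 := cmp_comm (Z := Z) hRL (hep j) (hpe' j)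
        refine h2.trans ?_
        rw [h1, cmp_sum]
        exact sum_blk (D.xu (r Z)) (fun u => L * D.e u * R) k j
      · rintro _ ⟨Z, hZ, rfl⟩ j
        have h1 := (hc Z _ _ (hact Z hZ)).2.2 ⟨k, j⟩
        have h2 := cmp_comm (Z := Z) hRL (hfp j) (hpf' j)
        refine h2.trans ?_
        rw [h1, Matrix.mul_neg, Matrix.neg_mul, cmp_sum]
        exact congrArg (- ·) (sum_blk' (D.xu (r Z)) (fun u => L * D.f u * R) k j)
      · rw [hfst]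
        have h1 := hC3 _ (hde ⟨k, i⟩ ⟨k, j⟩ rfl)
        have h2 : e i * f j = L * (D.e ⟨k, i⟩ * D.f ⟨k, j⟩) * R := cmp_mul hRL (hep i)
        rw [h2]
        exact h1
    refine xu_span hK k (hUni ℂ (D.m' k) (D.good.pos k) (D.good.even k)
      (Submodule.span ℂ {Y | ∃ Z ∈ kk, Y = D.xu (r Z) k}) ?_ (fun j _ _ => ?_) X hX)
    · refine span_br ?_
      rintro _ ⟨Z, hZ, rfl⟩ _ ⟨Z', hZ', rfl⟩
      exact ⟨_, hK.br Z hZ Z' hZ', (congrFun (hbr Z hZ Z' hZ').2 k).symm⟩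
    · have h1 := hUIrr ν (D.m' k) e f K' hUF j
      rw [hsnd] at h1
      exact irr_mono Submodule.subset_span h1

end Pool.Agent.Lib.MPf11a48.KF
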