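import Pool.Agent.Lib.MP_f11a48_ag.KF.SpecA
import Pool.Agent.Lib.MP_f11a48_ag.KM.Car

/-!
# CAR over a field: products of Clifford operators of one block are in the algebra of `kk`
-/

set_option autoImplicit false

namespace Pool.Agent.Lib.MPf11a48.KF

open Matrix MvPolynomial Pool.Agent.Lib.MPf11a48.Tors
open Pool.Agent.Lib.MPf11a48.CM hiding OmegaM
open Pool.Agent.Lib.MPf11a48.U (AbData Ix HD EndAlg)
open Pool.Agent.Lib.MPf11a48.K3 Pool.Agent.Lib.MPf11a48.KU Pool.Agent.Lib.MPf11a48.KM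
open KLieM (bl clC gam)
open Pool.Agent.Lib.MPf11a48.KM.CarM

/-- **FCAR**. -/
theorem specFCar : SpecFCar := by
  intro D F kk r mm hK
  have hpc : ∀ i, D.pc i ∈ Algebra.adjoin ℂ (kk : Set (Matrix (Ix D.g) (Ix D.g) ℂ)) := hK.pi
  have hcl : ∀ (X : D.FR) (Y : D.FU), (∀ k, (X k)ᵀ = -X k) → D.cl (D.wm X Y) ∈
      Algebra.adjoin ℂ (kk : Set (Matrix (Ix D.g) (Ix D.g) ℂ)) :=
    fun X Y hX => hK.cli _ (MatM.wm_mem X Y hX)
  refine ⟨?_, ?_⟩
  · rintro ⟨k, i⟩ ⟨l, j⟩ hkl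
    obtain rfl : k = l := hkl
    have h1 := hcl (Pi.single k (Matrix.single i j 1) - Pi.single k (Matrix.single j i 1)) 0 ?_
    · rw [cl_wm, Matrix.blockDiagonal'_sub, bd_single, bd_single] at h1
      have h2 : ∑ u : (k : D.R) × Fin (D.m k), ∑ v : (k : D.R) × Fin (D.m k),
          (Matrix.single (⟨k, i⟩ : (k : D.R) × Fin (D.m k)) (⟨k, j⟩ : (k : D.R) × Fin (D.m k))
            (1 : ℂ) - Matrix.single (⟨k, j⟩ : (k : D.R) × Fin (D.m k))
            (⟨k, i⟩ : (k : D.R) × Fin (D.m k)) (1 : ℂ)) u v • (D.gm u * D.gm v) =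
          D.gm ⟨k, i⟩ * D.gm ⟨k, j⟩ - D.gm ⟨k, j⟩ * D.gm ⟨k, i⟩ := by
        simp only [Matrix.sub_apply, sub_smul, Finset.sum_sub_distrib]
        rw [bl_single_sum, bl_single_sum]
      have h3 : ∑ u, ∑ v, blockDiagonal' (0 : D.FU) u v • (D.e u * D.f v) = 0 := by
        refine Finset.sum_eq_zero fun u _ => Finset.sum_eq_zero fun v _ => ?_
        rw [Matrix.blockDiagonal'_zero, Matrix.zero_apply, zero_smul]
      have h4 : ∑ k, ((0 : D.FU) k).trace • D.pc (D.ou k) = 0 := by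
        refine Finset.sum_eq_zero fun u _ => ?_
        rw [Pi.zero_apply, Matrix.trace_zero, zero_smul]
      rw [h2, h3, h4, smul_zero, sub_zero, add_zero] at h1
      have h5 := gm_anti D ⟨k, i⟩ ⟨k, j⟩
      have h6 : D.gm ⟨k, i⟩ * D.gm ⟨k, j⟩ = (2 : ℂ)⁻¹ • (D.gm ⟨k, i⟩ * D.gm ⟨k, j⟩ -
          D.gm ⟨k, j⟩ * D.gm ⟨k, i⟩) + (2 : ℂ)⁻¹ •
          (if (⟨k, i⟩ : (k : D.R) × Fin (D.m k)) = ⟨k, j⟩ then D.pc (D.ox k) else 0) := by
        rw [← h5]
        module
      rw [h6]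
      refine Subalgebra.add_mem _ h1 (Subalgebra.smul_mem _ ?_ _)
      split_ifs
      · exact hpc _
      · exact Subalgebra.zero_mem _
    · intro l
      by_cases hl : l = k
      · subst hl
        rw [Pi.sub_apply, Pi.single_eq_same, Pi.single_eq_same, Matrix.transpose_sub,
          Matrix.transpose_single, Matrix.transpose_single, neg_sub]
      · rw [Pi.sub_apply, Pi.single_eq_of_ne hl, Pi.single_eq_of_ne hl, sub_zero,
          Matrix.transpose_zero, neg_zero]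
  · rintro ⟨k, i⟩ ⟨l, j⟩ hkl
    obtain rfl : k = l := hkl
    have h1 := hcl 0 (Pi.single k (Matrix.single i j 1)) ?_
    · rw [cl_wm, bd_single, bl_single_sum] at h1
      have h3 : ∑ u, ∑ v, blockDiagonal' (0 : D.FR) u v • (D.gm u * D.gm v) = 0 := by
        refine Finset.sum_eq_zero fun u _ => Finset.sum_eq_zero fun v _ => ?_
        rw [Matrix.blockDiagonal'_zero, Matrix.zero_apply, zero_smul]
      rw [h3, smul_zero, zero_add] at h1
      have h4 := Subalgebra.add_mem _ h1 (Subalgebra.smul_mem _ (Subalgebra.sum_mem _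
        fun l (_ : l ∈ (Finset.univ : Finset D.U)) => Subalgebra.smul_mem _ (hpc (D.ou l))
          (((Pi.single k (Matrix.single i j 1) : D.FU) l).trace)) (2 : ℂ)⁻¹)
      rw [sub_add_cancel] at h4
      exact h4
    · intro l
      rw [Pi.zero_apply, Matrix.transpose_zero, neg_zero]

end Pool.Agent.Lib.MPf11a48.KF
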