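import Pool.Agent.Lib.MP_f11a48_ag.KF.SpecA

/-!
# Module FCNJ: an automorphism over `F` which changes the signs of the traces
-/

set_option autoImplicit false

namespace Pool.Agent.Lib.MPf11a48.KF

open Matrix MvPolynomial Pool.Agent.Lib.MPf11a48.Tors
open Pool.Agent.Lib.MPf11a48.CM hiding OmegaM
open Pool.Agent.Lib.MPf11a48.U (AbData Ix HD EndAlg)
open Pool.Agent.Lib.MPf11a48.K3 Pool.Agent.Lib.MPf11a48.KU Pool.Agent.Lib.MPf11a48.KM

namespace CnjM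

/-- automorphisms and traces -/
theorem map_trace {μ : Type} [Fintype μ] (τ : ℂ ≃+* ℂ) (A B : Matrix μ μ ℂ) :
    (A.map τ * B.map τ).trace = τ (A * B).trace := by
  rw [show A.map τ * B.map τ = (A * B).map τ from (Matrix.map_mul (f := (τ : ℂ →+* ℂ))).symm]
  simp only [Matrix.trace, Matrix.diag_apply, Matrix.map_apply, map_sum]

end CnjM

open CnjM in
/-- **FCNJ.** -/
theorem specFCnj (hTRP : SpecMTrp) (hGAL : SpecMGal) : SpecFCnj := by
  intro D F kk r mm hF hkk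
  obtain ⟨τ, hτF, hτ⟩ := hF.conj
  obtain ⟨-, h2, -, h4, -⟩ := hGAL D
  refine ⟨τ, fun Z hZ => ?_⟩
  obtain ⟨hZ', hr, hm⟩ := hkk.gal τ hτF Z hZ
  refine ⟨Z.map τ, hZ', hm, fun k => ?_⟩
  have e4 := h4 τ (Sum.inl k) (Sum.inr k) fun e he => hτ e he k
  have p2 : (D.pr (Sum.inr (Sum.inr k))).map τ = D.pr (Sum.inr (Sum.inl k)) :=
    h2 τ (Sum.inr (Sum.inr k)) (Sum.inr (Sum.inl k)) e4
  have t1 : (r (Z.map τ) * D.pr (Sum.inr (Sum.inl k))).trace =
      (D.xu (r (Z.map τ)) k).trace := by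
    simpa using (hTRP D _ (hkk.so _ hZ')).2.1 1 k
  have t2 : (r Z * D.pr (Sum.inr (Sum.inr k))).trace = -(D.xu (r Z) k).trace := by
    simpa using (hTRP D _ (hkk.so _ hZ)).2.2 1 k
  rw [← t1, hr, ← p2, map_trace, t2, map_neg]

end Pool.Agent.Lib.MPf11a48.KF
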