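import Pool.Agent.Lib.MP_f11a48_ag.KF.SpecB
import Pool.Agent.Lib.MP_f11a48_ag.KM.Fin0

/-! # Families of Kuga-Satake pairs over a field: the main theorem, from FGRP and FTEN -/

set_option autoImplicit false

namespace Pool.Agent.Lib.MPf11a48.KF

open Matrix Pool.Agent.Lib.MPf11a48.Tors Pool.Agent.Lib.MPf11a48.K3 Pool.Agent.Lib.MPf11a48.KU
open Pool.Agent.Lib.MPf11a48.CM hiding OmegaM
open Pool.Agent.Lib.MPf11a48.GL2T (IsAlg)
open Pool.Agent.Lib.MPf11a48.U (AbData Ix HD EndAlg)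
open Pool.Agent.Lib.MPf11a48.KM

/-- from `GroupF ⊥` to `GroupM` -/
theorem groupM_of {g N n : ℕ} {I : Type} [DecidableEq I] {A : AbData g N} {c : GL (Ix g) ℂ}
    {qB : Matrix (Fin n) (Fin n) ℚ} {B : Fin n → Matrix (Ix g) (Ix g) ℚ}
    {E : Set (Matrix (Fin n) (Fin n) ℚ)} {ix : Fin n → I} {𝓖 : Set (Grp3 g n)}
    {F : IntermediateField ℚ ℂ} (h : GroupF F A c qB B E ix 𝓖) : GroupM A c qB B E ix 𝓖 := by
  obtain ⟨R, U, iR, iR', iU, iU', m, P, lr, m', P', Q', lu, ox, ou, hS, hg, h𝓖⟩ := h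
  exact ⟨R, U, iR, iR', iU, iU', m, P, lr, m', P', Q', lu, ox, ou, hS, hg.good, h𝓖⟩

theorem mainKF0 (hGrp : SpecFGrp) (hTen : SpecFTen) (F : IntermediateField ℚ ℂ) (hF : F ≤ Qbar)
    (g N n : ℕ) (I : Type) [Fintype I] [DecidableEq I]
    (A : AbData g N) (c : GL (Ix g) ℂ) (t : GL (Fin n) ℂ) (qB : Matrix (Fin n) (Fin n) ℚ)
    (B : Fin n → Matrix (Ix g) (Ix g) ℚ) (qdR : Matrix (Fin n) (Fin n) ℂ)
    (E : Set (Matrix (Fin n) (Fin n) ℚ)) (ix : Fin n → I) (π : I → Matrix (Ix g) (Ix g) ℚ)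
    (𝓖 : Set (Grp3 g n)) (hKS : KSFam A c t qdR qB B E ix π) (hE : EndFull c qB B E)
    (hG : GroupF F A c qB B E ix 𝓖) (k : ℕ) (r : GL (Fin k) ℂ) (hr : IsAlg r.1)
    (K : IntermediateField ℚ ℂ) (hK : K ≤ Qbar) (ν ι : Type) [Fintype ν] [DecidableEq ν]
    [Fintype ι] [DecidableEq ι] (Θ : GL ((Ix g ⊕ Fin n) ⊕ Fin k) ℂ × ℂˣ → GL ν ℂ)
    (hΘ : C.IsRep Θ) (M : GL ι ℂ) (iB : Matrix ν ι ℚ)
    (hM : CMS.IsSubOver Qbar (Θ (CMS.dsum (CMS.dsum c t) r, tpi)) M iB) (T' : Set (GL ι ℂ))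
    (hT' : IsTorsor K T') (hMT : M ∈ T') (hcl : ClosedOver F (grp T')) :
    ∀ f ∈ SubGroup 𝓖 Θ iB, ∀ h, GL2T.Conj K (f * M) h → h ∈ T' := by
  obtain ⟨R, U, iR, iR', iU, iU', m, P, lr, m', P', Q', lu, ox, ou, hS, hg, rfl⟩ := hG
  refine hTen g n k c t _ F hF ?_ r hr K hK ν ι Θ hΘ M iB hM T' hT' hMT hcl
  intro T hT hcT hcl y hy
  exact hGrp { g := g, N := N, n := n, I := I, R := R, U := U, A := A, c := c, t := t, qdR := qdR,
               qB := qB, B := B, E := E, ix := ix, π := π, m := m, P := P, lr := lr, m' := m',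
               P' := P', Q' := Q', lu := lu, ox := ox, ou := ou, ks := hKS, full := hE,
               split := hS, good := hg.good } F T hg ⟨hF, hT, hcT, hcl⟩ y hy

end Pool.Agent.Lib.MPf11a48.KF
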