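import Pool.Agent.Lib.MP_f11a48_ag.KF.SpecB
import Pool.Agent.Lib.MP_f11a48_ag.KM.Fla

/-! # Families of Kuga-Satake pairs over `F`: the Lie algebra of a torsor, traces zero -/

set_option autoImplicit false

namespace Pool.Agent.Lib.MPf11a48.KF

open Matrix MvPolynomial Pool.Agent.Lib.MPf11a48.Tors
open Pool.Agent.Lib.MPf11a48.CM hiding OmegaM
open Pool.Agent.Lib.MPf11a48.GL2 (lie Geo)
open Pool.Agent.Lib.MPf11a48.GL2T (IsAlg)
open Pool.Agent.Lib.MPf11a48.U (AbData Ix HD EndAlg)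
open Pool.Agent.Lib.MPf11a48.K3 Pool.Agent.Lib.MPf11a48.KU Pool.Agent.Lib.MPf11a48.KM
open KLieM (bl clC gam)
open KGrpM (stab cm)
open KGrp3M (G0 sc ex)

open KFull3M in
theorem specFFla (hRat : SpecFRat) (hZ : SpecFMz) (hLie : SpecFLie) (hClb : SpecMClb)
    (hMat : SpecMMat) (hPerf : SpecPerf) : SpecFFla := by
  intro D F T hG hT X Y hX hY
  obtain ⟨kk, rr, mm, hK, hin, -⟩ := hRat D F T hT
  obtain ⟨-, hM2, -, hbr, -⟩ := hMat D
  obtain ⟨-, hclbr, hcladd, hclsmul, -⟩ := hClb D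
  have hcl0 : D.cl 0 = 0 := by
    have h1 := hclsmul 0 0
    rwa [zero_smul, zero_smul] at h1
  have h1 : ∀ (X : D.FR) (Y : D.FU), (∀ k, (X k)ᵀ = -X k) → (∀ k, (Y k).trace = 0) →
      ∃ M : ℂ, lb3 (D.cl (D.wm X Y) + (M / 2) • (1 : Matrix (Ix D.g) (Ix D.g) ℂ)) (D.wm X Y) M ∈
        lie T := by
    intro X Y hX hY
    obtain ⟨Z, hZk, h⟩ := hLie D F kk rr mm hG hK X Y hX hY
    refine ⟨mm Z, ?_⟩
    rw [h, ← hZ D F kk rr mm hK Z hZk]
    exact hin Z hZk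
  let W : Submodule ℂ (Matrix (Fin D.n) (Fin D.n) ℂ) :=
    { carrier := {ρ | lb3 (D.cl ρ) ρ 0 ∈ lie T}
      add_mem' := by
        intro a b ha hb
        have h := (lie T).add_mem ha hb
        rw [lb3_add, ← hcladd, add_zero] at h
        exact h
      zero_mem' := by
        change lb3 (D.cl 0) 0 0 ∈ lie T
        rw [hcl0, lb3_zero]
        exact (lie T).zero_mem
      smul_mem' := by
        intro a ρ h
        have h2 := (lie T).smul_mem a h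
        rw [lb3_smul, ← hclsmul, mul_zero] at h2
        exact h2 }
  refine FlaM.gen hPerf D (W := W) hbr (fun X X' Y Y' hX hY hX' hY' => ?_) hX hY
  obtain ⟨M, h⟩ := h1 X Y hX hY
  obtain ⟨M', h'⟩ := h1 X' Y' hX' hY'
  have h4 := GL2.lie_br h h'
  rw [lb3_mul, lb3_mul, lb3_sub] at h4
  have e1 : M * M' - M' * M = 0 := by ring
  have e2 : (D.cl (D.wm X Y) + (M / 2) • (1 : Matrix (Ix D.g) (Ix D.g) ℂ)) *
        (D.cl (D.wm X' Y') + (M' / 2) • (1 : Matrix (Ix D.g) (Ix D.g) ℂ)) -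
      (D.cl (D.wm X' Y') + (M' / 2) • (1 : Matrix (Ix D.g) (Ix D.g) ℂ)) *
        (D.cl (D.wm X Y) + (M / 2) • (1 : Matrix (Ix D.g) (Ix D.g) ℂ)) =
      D.cl (D.wm X Y * D.wm X' Y' - D.wm X' Y' * D.wm X Y) := by
    rw [← hclbr _ (hM2 X Y hX) _ (hM2 X' Y' hX')]
    simp only [Matrix.add_mul, Matrix.mul_add, Matrix.smul_mul, Matrix.mul_smul, Matrix.one_mul,
      Matrix.mul_one, smul_add]
    rw [smul_comm (M / 2) (M' / 2)]
    abel
  rw [e1, e2] at h4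
  exact h4

end Pool.Agent.Lib.MPf11a48.KF
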