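import Pool.Agent.Lib.MP_f11a48_ag.KF.SpecB
import Pool.Agent.Lib.MP_f11a48_ag.KM.Flb

/-! # Families over `F`: the characters of the Lie algebra of a torsor -/

set_option autoImplicit false
set_option linter.unusedSectionVars false

namespace Pool.Agent.Lib.MPf11a48.KF

open Matrix MvPolynomial Pool.Agent.Lib.MPf11a48.Tors
open Pool.Agent.Lib.MPf11a48.CM hiding OmegaM
open Pool.Agent.Lib.MPf11a48.GL2 (lie Geo)
open Pool.Agent.Lib.MPf11a48.GL2T (IsAlg)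
open Pool.Agent.Lib.MPf11a48.U (AbData Ix HD EndAlg)
open Pool.Agent.Lib.MPf11a48.K3 Pool.Agent.Lib.MPf11a48.KU Pool.Agent.Lib.MPf11a48.KM
open KLieM (bl clC gam)
open KGrpM (stab)
open KGrp3M (G0 sc ex)

open KFull3M KGrpM KRatM KLieM in
theorem specFFlb (hRat : SpecFRat) (hZ : SpecFMz) (hFla : SpecFFla) (hFlt : SpecFFlt)
    (hCnj : SpecFCnj) (hMat : SpecMMat) (hClb : SpecMClb) : SpecFFlb := by
  intro D F T hGF hT χ r hyp
  obtain ⟨kk, rr, mm, hK, hin, Z₁, hZ₁, hm₁⟩ := hRat D F T hT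
  obtain ⟨hM1, -⟩ := hMat D
  obtain ⟨-, -, hcladd, -⟩ := hClb D
  have hm0 : ∀ k, (D.m' k : ℂ) ≠ 0 := fun k => Nat.cast_ne_zero.2 (D.good.pos k).ne'
  -- the relation
  have hrel : ∀ Z ∈ kk, ∑ k, (χ k : ℂ) * ((D.xu (rr Z) k).trace / D.m' k) +
      (r : ℂ) * (mm Z / 2) = 0 := by
    intro Z hZk
    obtain ⟨ρ, hρ⟩ : ∃ ρ, ρ = rr Z := ⟨_, rfl⟩
    rw [← hρ]
    have hso : ρ ∈ D.so := by
      rw [hρ]
      exact hK.so Z hZk
    obtain ⟨hskew, hwm⟩ := hM1 ρ hso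
    set z : D.U → ℂ := fun k => (D.xu ρ k).trace / D.m' k with hz
    have hY' : ∀ k, (D.xu ρ k - Matrix.scalar _ (z k)).trace = 0 := by
      intro k
      rw [trace_sub, Matrix.scalar_apply, trace_diagonal, Finset.sum_const, Finset.card_univ,
        Fintype.card_fin, nsmul_eq_mul, hz]
      simp only
      rw [mul_div_cancel₀ _ (hm0 k), sub_self]
    have hA := hFla D F T hGF hT (D.xr ρ) (fun k => D.xu ρ k - Matrix.scalar _ (z k)) hskew hY'
    set ρ' := D.wm (D.xr ρ) (fun k => D.xu ρ k - Matrix.scalar _ (z k)) with hρ'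
    have hsplit : ρ = ρ' + D.uz z := by
      conv_lhs => rw [hwm]
      exact FlbM.split D _ _ z
    have h1 := (lie T).sub_mem (hin Z hZk) hA
    have h0 := hZ D F kk rr mm hK Z hZk
    rw [← hρ] at h1 h0
    obtain ⟨μ, hμ⟩ : ∃ μ, μ = mm Z := ⟨_, rfl⟩
    rw [← hμ] at h1 h0
    rw [← hμ]
    rw [h0, lb3_sub, sub_zero] at h1
    have e1 : D.cl ρ + (μ / 2) • (1 : Matrix (Ix D.g) (Ix D.g) ℂ) - D.cl ρ' =
        D.cl (D.uz z) + (μ / 2) • (1 : Matrix (Ix D.g) (Ix D.g) ℂ) := by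
      conv_lhs => rw [hsplit]
      rw [hcladd]
      abel
    have e2 : ρ - ρ' = D.uz z := by
      conv_lhs => rw [hsplit]
      rw [add_sub_cancel_left]
    have e3 : μ = 2 * (μ / 2) := by ring
    rw [e1, e2] at h1
    nth_rewrite 2 [e3] at h1
    exact hyp z _ h1
  -- the conjugate relation
  obtain ⟨τ, hτ⟩ := hCnj D F kk rr mm hGF hK
  have hrel' : ∀ Z ∈ kk, -∑ k, (χ k : ℂ) * ((D.xu (rr Z) k).trace / D.m' k) +
      (r : ℂ) * (mm Z / 2) = 0 := by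
    intro Z hZk
    obtain ⟨Z', hZ', hm', htr'⟩ := hτ Z hZk
    have h1 := hrel Z' hZ'
    apply τ.injective
    rw [map_zero, map_add, map_neg, map_sum, map_mul, map_div₀, map_ratCast, map_ofNat]
    rw [hm'] at h1
    rw [← h1]
    congr 1
    rw [← Finset.sum_neg_distrib]
    refine Finset.sum_congr rfl fun k _ => ?_
    rw [map_mul, map_div₀, map_ratCast, map_natCast, htr']
    ring
  have hrm : ∀ Z ∈ kk, (r : ℂ) * mm Z = 0 := by
    intro Z hZk
    linear_combination hrel Z hZk + hrel' Z hZk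
  have hsum : ∀ Z ∈ kk, ∑ k, ((χ k / D.m' k : ℚ) : ℂ) * (D.xu (rr Z) k).trace = 0 := by
    intro Z hZk
    have h1 : ∑ k, (χ k : ℂ) * ((D.xu (rr Z) k).trace / D.m' k) = 0 := by
      linear_combination (1 / 2 : ℂ) * hrel Z hZk - (1 / 2 : ℂ) * hrel' Z hZk
    rw [← h1]
    refine Finset.sum_congr rfl fun k _ => ?_
    push_cast
    ring
  refine ⟨?_, ?_⟩
  · by_contra hχ
    have hχ' : (fun k => χ k / (D.m' k : ℚ)) ≠ 0 := by
      intro h
      apply hχ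
      funext k
      have h1 := congrFun h k
      have h2 : (D.m' k : ℚ) ≠ 0 := Nat.cast_ne_zero.2 (D.good.pos k).ne'
      simpa [h2] using h1
    obtain ⟨Z, hZk, hne⟩ := hFlt D F kk rr mm hGF hK _ hχ'
    exact hne (hsum Z hZk)
  · exact Rat.cast_eq_zero.1 ((mul_eq_zero.1 (hrm Z₁ hZ₁)).resolve_right hm₁)

end Pool.Agent.Lib.MPf11a48.KF
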