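import Pool.Agent.Lib.MP_f11a48_ag.KF.SpecA
import Pool.Agent.Lib.MP_f11a48_ag.KM.Flt

/-! # Traces with rational coefficients, over a field `F` -/

set_option autoImplicit false
set_option linter.unusedSectionVars false

namespace Pool.Agent.Lib.MPf11a48.KF

open Matrix MvPolynomial Pool.Agent.Lib.MPf11a48.Tors
open Pool.Agent.Lib.MPf11a48.CM hiding OmegaM
open Pool.Agent.Lib.MPf11a48.GL2 (lie Geo)
open Pool.Agent.Lib.MPf11a48.GL2T (IsAlg)
open Pool.Agent.Lib.MPf11a48.U (AbData Ix HD EndAlg)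
open Pool.Agent.Lib.MPf11a48.K3 Pool.Agent.Lib.MPf11a48.KU Pool.Agent.Lib.MPf11a48.KM
open KLieM (bl clC gam)

namespace FltM

/-- automorphisms and traces of products -/
theorem map_tr_mul {n : ℕ} (τ : ℂ ≃+* ℂ) (ρ p : Matrix (Fin n) (Fin n) ℂ) :
    τ ((ρ * p).trace) = (ρ.map τ * p.map τ).trace := by
  simp only [Matrix.trace, Matrix.diag_apply, Matrix.mul_apply, map_sum, map_mul, Matrix.map_apply]

end FltM

open FltM in
theorem specFFlt (hTrp : SpecMTrp) (hGal : SpecMGal) (hTrc : SpecFTrc) : SpecFFlt := by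
  intro D F kk r mm hG hK χ hχ
  by_contra hcon
  push Not at hcon
  obtain ⟨-, hg2, -, hg4, -⟩ := hGal D
  set RR : Set (D.U → ℂ) := {t | ∃ Z ∈ kk, t = fun k => (D.xu (r Z) k).trace} with hRR
  have hN : KU.FltM.NN RR ≠ ⊥ := by
    intro hbot
    have hmem : (Sum.elim χ fun k => -χ k : D.U ⊕ D.U → ℚ) ∈ KU.FltM.NN RR := by
      refine ⟨fun k => by simp, ?_⟩
      rintro t ⟨Z, hZ, rfl⟩
      simp only [Sum.elim_inl]
      exact hcon Z hZ
    rw [hbot, Submodule.mem_bot] at hmem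
    apply hχ
    funext k
    have := congrFun hmem (Sum.inl k)
    simpa using this
  have hod : ∀ Z ∈ kk, ∀ s, KU.FltM.od (fun k => (D.xu (r Z) k).trace) s =
      (r Z * D.pr (Sum.inr s)).trace := by
    intro Z hZ s
    obtain ⟨-, ht2, ht3⟩ := hTrp D (r Z) (hK.so Z hZ)
    rcases s with k | k
    · have h := ht2 1 k
      rw [pow_one, pow_one] at h
      exact h.symm
    · have h := ht3 1 k
      rw [pow_one, pow_one, Matrix.trace_neg] at h
      exact h.symm
  have hst : ∀ (τ : ℂ ≃+* ℂ) (σ : Equiv.Perm (D.U ⊕ D.U)), (∀ a ∈ F, τ a = a) →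
      (∀ e ∈ D.E, ∀ s, chr D.lu e (σ s) = τ (chr D.lu e s)) →
      ∀ f ∈ KU.FltM.NN RR, (fun s => f (σ s)) ∈ KU.FltM.NN RR := by
    intro τ σ hτF hτσ f hf
    have hsw : ∀ s, σ (Sum.swap s) = Sum.swap (σ s) := by
      intro s
      have h1 : ∀ e ∈ D.E, D.ch e (Sum.inr (Sum.swap (σ s))) =
          τ (D.ch e (Sum.inr (Sum.swap s))) :=
        hg4 τ s (σ s) fun e he => hτσ e he s
      by_contra hne
      obtain ⟨e, he, hee⟩ := D.split.sep (Sum.inr (σ (Sum.swap s))) (Sum.inr (Sum.swap (σ s)))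
        (fun h => hne (Sum.inr_injective h))
      exact hee ((hτσ e he (Sum.swap s)).trans (h1 e he).symm)
    have hodd : ∀ k, f (σ (Sum.inr k)) = -f (σ (Sum.inl k)) := by
      intro k
      have h1 : (Sum.inr k : D.U ⊕ D.U) = Sum.swap (Sum.inl k) := rfl
      rw [h1, hsw, KU.FltM.odd_swap f hf.1]
    refine ⟨hodd, ?_⟩
    rintro t ⟨Z, hZ, rfl⟩
    obtain ⟨hZ', hrZ', -⟩ := hK.gal τ hτF Z hZ
    set t : D.U → ℂ := fun k => (D.xu (r Z) k).trace with ht
    set t' : D.U → ℂ := fun k => (D.xu (r (Z.map τ)) k).trace with ht'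
    have hG' : ∀ s, τ (KU.FltM.od t s) = KU.FltM.od t' (σ s) := by
      intro s
      rw [ht, ht', hod Z hZ, hod _ hZ', map_tr_mul,
        hg2 τ (Sum.inr s) (Sum.inr (σ s)) fun e he => hτσ e he s, hrZ']
    have h2 : ∑ s, (f s : ℂ) * KU.FltM.od t' s = 0 := by
      rw [KU.FltM.sum_od f hf.1, hf.2 t' ⟨_, hZ', rfl⟩, mul_zero]
    have h3 : τ (∑ s, (f (σ s) : ℂ) * KU.FltM.od t s) = 0 := by
      rw [map_sum, ← h2, ← Equiv.sum_comp σ (fun s => (f s : ℂ) * KU.FltM.od t' s)]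
      refine Finset.sum_congr rfl fun s _ => ?_
      rw [map_mul, hG', map_ratCast]
    have h4 : ∑ s, (f (σ s) : ℂ) * KU.FltM.od t s = 0 := by
      have := (map_eq_zero_iff τ τ.injective).1 h3
      exact this
    rw [KU.FltM.sum_od (fun s => f (σ s)) hodd] at h4
    exact (mul_eq_zero.1 h4).resolve_left two_ne_zero
  obtain ⟨f, hfN, hf0, hfv, i, hi⟩ := hG.flat (KU.FltM.NN RR) hN (fun f hf => hf.1) hst
  have hf1 := hfN.1
  obtain ⟨Z, hZ, hne⟩ := hTrc D F kk r mm hK (fun k => (f (Sum.inl k) : ℂ)) (fun k => by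
    rcases hfv (Sum.inl k) with h | h | h
    · left; simp [h]
    · right; left; simp [h]
    · right; right; simp [h]) (by
    intro hz
    apply hf0
    funext s
    have h1 : ∀ k, f (Sum.inl k) = 0 := by
      intro k
      have := congrFun hz k
      simpa using this
    rcases s with k | k
    · rw [h1, Pi.zero_apply]
    · rw [hf1, h1, Pi.zero_apply, neg_zero]) ⟨i, fun k hk => hi k (by
      intro h
      apply hk
      simp [h])⟩
  exact hne (hfN.2 _ ⟨Z, hZ, rfl⟩)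

end Pool.Agent.Lib.MPf11a48.KF
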