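import Pool.Agent.Lib.MP_f11a48_ag.KF.SpecB
import Pool.Agent.Lib.MP_f11a48_ag.KM.Grp

/-!
# Families of Kuga-Satake pairs over a field `F`: module GRP (the group)
-/

set_option autoImplicit false
set_option linter.unusedSectionVars false

namespace Pool.Agent.Lib.MPf11a48.KF

open Matrix MvPolynomial Pool.Agent.Lib.MPf11a48.Tors
open Pool.Agent.Lib.MPf11a48.CM hiding OmegaM
open Pool.Agent.Lib.MPf11a48.GL2 (lie Geo)
open Pool.Agent.Lib.MPf11a48.GL2T (IsAlg)
open Pool.Agent.Lib.MPf11a48.U (AbData Ix HD EndAlg SpecHDA)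
open Pool.Agent.Lib.MPf11a48.K3 Pool.Agent.Lib.MPf11a48.KU Pool.Agent.Lib.MPf11a48.KM
open KLieM (bl clC gam)
open KGrpM (stab)
open KGrp3M (G0 sc ex)

namespace GrpM

open KGrpM KGrp2M KGrp3M

/-- the scalars -/
theorem scalars (hFul : SpecFFul) (hCurve : SpecCurve) (D : Dat) (F : IntermediateField ℚ ℂ)
    (T : Set (GL (Ix D.g ⊕ (Fin D.n ⊕ Unit)) ℂ)) (hG : GF D F) (hT : TTF D F T) (w : ℂ) :
    ((sc (ex (w / 2)), 1, ex w) : Grp3 D.g D.n) ∈
      G0 D.B (EndAlg D.c.1) D.A.psi ⊓ (stab T).comap bd3 := by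
  have hgeo := GL2.geo_of_torsor hT.tor
  have hl2 := (hFul D F T hG hT).2
  refine ⟨⟨fun j => ?_, fun Z _ => ?_, ?_⟩, ?_⟩
  · change ((ex (w / 2) : ℂ) • (1 : Matrix (Ix D.g) (Ix D.g) ℂ)) * cx (D.B j) =
      (∑ i, (1 : Matrix (Fin D.n) (Fin D.n) ℂ) i j • cx (D.B i)) *
        ((ex (w / 2) : ℂ) • (1 : Matrix (Ix D.g) (Ix D.g) ℂ))
    rw [sum_one, Matrix.smul_mul, Matrix.mul_smul, Matrix.one_mul, Matrix.mul_one]
  · change ((ex (w / 2) : ℂ) • (1 : Matrix (Ix D.g) (Ix D.g) ℂ)) * cx Z =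
      cx Z * ((ex (w / 2) : ℂ) • (1 : Matrix (Ix D.g) (Ix D.g) ℂ))
    rw [Matrix.smul_mul, Matrix.mul_smul, Matrix.one_mul, Matrix.mul_one]
  · change ((ex (w / 2) : ℂ) • (1 : Matrix (Ix D.g) (Ix D.g) ℂ))ᵀ * cx D.A.psi *
      ((ex (w / 2) : ℂ) • (1 : Matrix (Ix D.g) (Ix D.g) ℂ)) = (ex w : ℂ) • cx D.A.psi
    rw [Matrix.transpose_smul, Matrix.transpose_one, Matrix.smul_mul, Matrix.one_mul,
      Matrix.mul_smul, Matrix.mul_one, smul_smul, ex_val, ex_val, ← Complex.exp_add, add_halves]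
  · change bd3 ((sc (ex (w / 2)), 1, ex w) : Grp3 D.g D.n) ∈ stab T
    refine mem_stab hgeo fun f hf => ?_
    refine hCurve _ T hgeo _ hl2 (fun w => bd3 ((sc (ex (w / 2)), 1, ex w) : Grp3 D.g D.n))
      ?_ ?_ f hf w
    · have e1 : ex (0 / 2) = 1 := by
        refine Units.ext ?_
        rw [ex_val, zero_div, Complex.exp_zero]
        rfl
      have e2 : ex 0 = 1 := by
        refine Units.ext ?_
        rw [ex_val, Complex.exp_zero]
        rfl
      have e3 : (sc 1 : GL (Ix D.g) ℂ) = 1 := by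
        refine Units.ext ?_
        rw [sc_val, Units.val_one, one_smul]
        rfl
      change bd3 ((sc (ex (0 / 2)), 1, ex 0) : Grp3 D.g D.n) = 1
      rw [e1, e2, e3]
      exact map_one bd3
    · intro s i j
      rw [bd3_val, lb3_mul, one_mul, Matrix.zero_mul]
      refine hasDerivAt_lb3 (Z := fun s => (sc (ex (s / 2)) : GL (Ix D.g) ℂ).1)
        (X := fun _ => (1 : Matrix (Fin D.n) (Fin D.n) ℂ)) (u := fun s => (ex s : ℂ))
        (fun i j => ?_) (fun i j => hasDerivAt_const s _) (Complex.hasDerivAt_exp s) i j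
      simp only [sc_val, ex_val]
      rw [Matrix.smul_mul, Matrix.one_mul, Matrix.smul_apply, Matrix.smul_apply, smul_eq_mul,
        smul_eq_mul]
      have h1 : HasDerivAt (fun s : ℂ => Complex.exp (s / 2)) (Complex.exp (s / 2) * (1 / 2)) s :=
        (Complex.hasDerivAt_exp (s / 2)).comp s ((hasDerivAt_id s).div_const 2)
      have h2 := h1.mul_const ((1 : Matrix (Ix D.g) (Ix D.g) ℂ) i j)
      have e : Complex.exp (s / 2) * (1 / 2) * (1 : Matrix (Ix D.g) (Ix D.g) ℂ) i j =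
          (2 : ℂ)⁻¹ * (Complex.exp (s / 2) * (1 : Matrix (Ix D.g) (Ix D.g) ℂ) i j) := by ring
      rw [e] at h2
      exact h2

end GrpM

open KGrpM KGrp2M KGrp3M KM.GrpM KF.GrpM in
theorem specFGrp (hLft : SpecFLft) (hSgn : SpecFSgn) (hFul : SpecFFul) (hScl : SpecMScl)
    (hCurve : SpecCurve) (hHDA : SpecHDA) : SpecFGrp := by
  intro D F T hG hT y hy
  obtain ⟨⟨J, hJ⟩, -⟩ := hHDA Qbar D.g D.N D.A D.c le_rfl D.ks.abvar D.ks.per
  obtain ⟨⟨x, x', hx⟩, hy1, hy2, hy3⟩ := hy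
  obtain ⟨a, X, hX, haX⟩ := hLft D F T hG hT x x'
  have hsg := hSgn D F T hG hT
  have hexp := KF.GrpM.scalars hFul hCurve D F T hG hT
  obtain ⟨GG, hGG⟩ : ∃ GG : Subgroup (Grp3 D.g D.n),
    GG = G0 D.B (EndAlg D.c.1) D.A.psi ⊓ (stab T).comap bd3 := ⟨_, rfl⟩
  rw [← hGG] at haX
  simp only [← hGG] at hsg hexp
  have hyx : y.2.1 = X := Units.ext (hx.trans hX.symm)
  obtain ⟨w, hw⟩ : ∃ w : ℂ, Complex.exp w = y.2.2 := by
    have h1 : (y.2.2 : ℂ) ∈ Set.range Complex.exp := by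
      rw [Complex.range_exp]
      exact y.2.2.ne_zero
    exact h1
  have hw' : ex w = y.2.2 := Units.ext hw
  have hy0 : y ∈ G0 D.B (EndAlg D.c.1) D.A.psi := ⟨hy1, hy2, hy3⟩
  obtain ⟨y1, hy1d⟩ : ∃ y1 : Grp3 D.g D.n, y1 = (sc (ex (w / 2)), 1, ex w) * (a, X, 1) :=
    ⟨_, rfl⟩
  have hy1G : y1 ∈ GG := by
    rw [hy1d]
    exact GG.mul_mem (hexp w) haX
  have hy12 : y1.2 = y.2 := by
    rw [hy1d]
    refine Prod.ext ?_ ?_
    · change 1 * X = y.2.1
      rw [one_mul, hyx]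
    · change ex w * 1 = y.2.2
      rw [mul_one, hw']
  obtain ⟨v, hv⟩ : ∃ v : Grp3 D.g D.n, v = y * y1⁻¹ := ⟨_, rfl⟩
  have hy1G' : y1 ∈ G0 D.B (EndAlg D.c.1) D.A.psi := by
    rw [hGG] at hy1G
    exact hy1G.1
  have hv0 : v ∈ G0 D.B (EndAlg D.c.1) D.A.psi := by
    rw [hv]
    exact (G0 D.B (EndAlg D.c.1) D.A.psi).mul_mem hy0
      ((G0 D.B (EndAlg D.c.1) D.A.psi).inv_mem hy1G')
  have hv2 : v.2 = 1 := by
    rw [hv, Prod.snd_mul, Prod.snd_inv, hy12, mul_inv_cancel]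
  have hv21 : v.2.1.1 = 1 := by
    rw [hv2]
    rfl
  have hv22 : (v.2.2 : ℂ) = 1 := by
    rw [hv2]
    rfl
  obtain ⟨hv1, hvE, hvψ⟩ := hv0
  obtain ⟨s, hs⟩ := hScl D v.1.1 (fun j => by
      have h1 := hv1 j
      rwa [hv21, sum_one] at h1) (fun Z hZ => hvE Z (D.full Z hZ))
  -- the scalars are signs
  have hψdet : (cx D.A.psi).det ≠ 0 := by
    have h1 : D.A.psi.det ≠ 0 := hJ.det
    have h2 : (cx D.A.psi).det = ((D.A.psi.det : ℚ) : ℂ) := by
      change (((Rat.castHom ℂ).mapMatrix) D.A.psi).det = _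
      rw [← RingHom.map_det]
      rfl
    rw [h2]
    exact_mod_cast h1
  have hsq : ∑ i, (s i * s i) • D.pc i = 1 := by
    have h1 : (v.1.1)ᵀ * cx D.A.psi = cx D.A.psi * v.1.1 := by
      rw [hs, Matrix.transpose_sum, Finset.sum_mul, Finset.mul_sum]
      refine Finset.sum_congr rfl fun i _ => ?_
      rw [Matrix.transpose_smul, Matrix.smul_mul, Matrix.mul_smul, pc_psi]
    have h2 : v.1.1 * v.1.1 = ∑ i, (s i * s i) • D.pc i := by
      rw [hs, Finset.sum_mul]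
      refine Finset.sum_congr rfl fun i _ => ?_
      rw [Finset.mul_sum, Finset.sum_eq_single i]
      · rw [Matrix.smul_mul, Matrix.mul_smul, pc_mul, if_pos rfl, smul_smul]
      · intro j _ hj
        rw [Matrix.smul_mul, Matrix.mul_smul, pc_mul, if_neg hj.symm, smul_zero, smul_zero]
      · intro h
        exact absurd (Finset.mem_univ _) h
    rw [h1, hv22, one_smul, Matrix.mul_assoc, h2] at hvψ
    have hu : IsUnit (cx D.A.psi) := (Matrix.isUnit_iff_isUnit_det _).2 hψdet.isUnit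
    exact hu.mul_left_cancel (hvψ.trans (Matrix.mul_one _).symm)
  have hs1 : ∀ i, s i = 1 ∨ s i = -1 := by
    intro i
    have h1 := congrArg (fun M => D.pc i * M) hsq
    simp only [Finset.mul_sum, Matrix.mul_one] at h1
    rw [Finset.sum_eq_single i] at h1
    · rw [Matrix.mul_smul, pc_mul, if_pos rfl] at h1
      have h2 : (s i * s i - 1) • D.pc i = 0 := by
        rw [sub_smul, one_smul, h1, sub_self]
      rcases smul_eq_zero.1 h2 with h3 | h3
      · exact mul_self_eq_one_iff.1 (sub_eq_zero.1 h3)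
      · exact absurd h3 (pc_ne D i)
    · intro j _ hj
      rw [Matrix.mul_smul, pc_mul, if_neg hj.symm, smul_zero]
    · intro h
      exact absurd (Finset.mem_univ _) h
  have hvG : v ∈ GG := by
    classical
    obtain ⟨σ, hσ, hσG⟩ := signs D GG hsg (Finset.univ.filter fun i => s i = -1)
    have e : v = (σ, 1, 1) := by
      refine Prod.ext (Units.ext ?_) hv2
      change v.1.1 = σ.1
      rw [hσ, hs, ← pc_sum D, Finset.sum_filter, Finset.smul_sum, ← Finset.sum_sub_distrib]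
      refine Finset.sum_congr rfl fun i _ => ?_
      rcases hs1 i with h | h
      · rw [h, if_neg (by norm_num), smul_zero, sub_zero, one_smul]
      · rw [h, if_pos rfl, two_smul]
        simp
    rw [e]
    exact hσG
  have hyG : y ∈ GG := by
    have e : y = v * y1 := by
      rw [hv, inv_mul_cancel_right]
    rw [e]
    exact GG.mul_mem hvG hy1G
  have h1 : bd3 y ∈ stab T := by
    rw [hGG] at hyG
    exact hyG.2
  rw [map_mul]
  exact (h1 _ hT.mem).1

end Pool.Agent.Lib.MPf11a48.KF
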