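import Pool.Agent.Lib.MP_f11a48_ag.KF.SpecB
import Pool.Agent.Lib.MP_f11a48_ag.KM.Lft

/-! # Families over `F`: lifting the isometries to the stabiliser of the torsor -/

set_option autoImplicit false
set_option linter.unusedSectionVars false

namespace Pool.Agent.Lib.MPf11a48.KF

open Matrix MvPolynomial Pool.Agent.Lib.MPf11a48.Tors
open Pool.Agent.Lib.MPf11a48.CM hiding OmegaM
open Pool.Agent.Lib.MPf11a48.GL2 (lie Geo)
open Pool.Agent.Lib.MPf11a48.GL2T (IsAlg)
open Pool.Agent.Lib.MPf11a48.U (AbData Ix HD EndAlg SpecHDA)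
open Pool.Agent.Lib.MPf11a48.K3 Pool.Agent.Lib.MPf11a48.KU Pool.Agent.Lib.MPf11a48.KM
open KLieM (bl clC gam)
open KGrpM (stab)
open KGrp3M (G0 sc ex)

namespace LftM

open KGrpM KGrp3M Pool.Agent.Lib.MPf11a48.KM.LftM

/-- integral curves lift -/
theorem lift_curve (D : Dat) (hPsi : SpecMPsi) (hClb : SpecMClb) (hMat : SpecMMat)
    (hCur : SpecMCur) (hCurve : SpecCurve)
    {T : Set (GL (Ix D.g ⊕ (Fin D.n ⊕ Unit)) ℂ)} (hT : IsTorsor Qbar T)
    (hFul : ∀ (X : D.FR) (Y : D.FU), (∀ k, (X k)ᵀ = -X k) →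
      lb3 (D.cl (D.wm X Y)) (D.wm X Y) 0 ∈ lie T)
    (X : D.FR) (Y : D.FU) (hX : ∀ k, (X k)ᵀ = -X k) (w : ℂ → KM.LftM.GF D) (hw : w 0 = 1)
    (h1 : ∀ s k u v, HasDerivAt (fun s => ((w s).1 k).1 u v) ((X k * ((w s).1 k).1) u v) s)
    (h2 : ∀ s k u v, HasDerivAt (fun s => ((w s).2 k).1 u v) ((Y k * ((w s).2 k).1) u v) s)
    (h3 : ∀ s k u v, HasDerivAt (fun s => ((w s).2 k)⁻¹.1 u v)
      (-(((w s).2 k)⁻¹.1 * Y k) u v) s) (s : ℂ) :
    wh D (w s) ∈ G1 (G0 D.B (EndAlg D.c.1) D.A.psi ⊓ (stab T).comap bd3) := by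
  have hgeo := GL2.geo_of_torsor hT
  obtain ⟨ρ, hρ⟩ : ∃ ρ, ρ = D.wm X Y := ⟨_, rfl⟩
  have hρs : ρ ∈ D.so := by
    rw [hρ]
    exact (hMat D).2.1 X Y hX
  obtain ⟨hc1, -, -, -, -, -, hc7⟩ := hClb D
  have hx0 : wh D (w 0) = 1 := by rw [hw, map_one]
  have hxd : ∀ s i j, HasDerivAt (fun s => (wh D (w s)).1 i j) ((ρ * (wh D (w s)).1) i j) s := by
    intro s i j
    rw [hρ, wm_WF, wh_val, WF_mul]
    refine hasDerivAt_WF D (X := fun s k => ((w s).1 k).1) (Y := fun s k => ((w s).2 k).1)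
      (Z := fun s k => ((w s).2 k)⁻¹.1ᵀ) (h1 s) (h2 s) (fun k u v => ?_) i j
    have e : (-(Y k)ᵀ * ((w s).2 k)⁻¹.1ᵀ) u v = -(((w s).2 k)⁻¹.1 * Y k) v u := by
      rw [Matrix.neg_mul, ← Matrix.transpose_mul]
      rfl
    rw [e]
    exact h3 s k v u
  obtain ⟨a, ha0, had, ha⟩ := hCur D.g D.n D.B D.A.psi (D.cl ρ) ρ (hc1 ρ hρs)
    (hPsi D ρ hρs) (fun s => wh D (w s)) hx0 hxd
  refine ⟨a s, ⟨(ha s).1, fun Z hZ' => (ha s).2.1 _ (hc7 ρ hρs Z hZ'), ?_⟩, ?_⟩
  · change (a s).1ᵀ * cx D.A.psi * (a s).1 = ((1 : ℂˣ) : ℂ) • cx D.A.psi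
    rw [(ha s).2.2, Units.val_one, one_smul]
  · change bd3 (a s, wh D (w s), 1) ∈ stab T
    refine mem_stab hgeo fun f hf => ?_
    have hl : lb3 (D.cl ρ) ρ 0 ∈ lie T := by
      rw [hρ]
      exact hFul X Y hX
    refine hCurve _ T hgeo _ hl (fun s => bd3 (a s, wh D (w s), 1)) ?_ ?_ f hf s
    · rw [ha0, hx0]
      exact map_one bd3
    · intro s i j
      rw [bd3_val, lb3_mul, zero_mul]
      exact hasDerivAt_lb3 (Z := fun s => (a s).1) (X := fun s => (wh D (w s)).1)
        (u := fun _ => ((1 : ℂˣ) : ℂ)) (had s) (hxd s) (hasDerivAt_const s _) i j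

end LftM

open KGrpM KGrp3M Pool.Agent.Lib.MPf11a48.KM.LftM in
theorem specFLft (hFul : SpecFFul) (hPsi : SpecMPsi) (hClb : SpecMClb) (hMat : SpecMMat)
    (hCur : SpecMCur) (hGnl : SpecMGnl) (hGen : SpecGen) (hCurve : SpecCurve) : SpecFLft := by
  intro D F T hGF hT x x'
  obtain ⟨GG, hGG⟩ : ∃ GG : Subgroup (Grp3 D.g D.n),
    GG = G0 D.B (EndAlg D.c.1) D.A.psi ⊓ (stab T).comap bd3 := ⟨_, rfl⟩
  have hl := LftM.lift_curve D hPsi hClb hMat hCur hCurve hT.tor (hFul D F T hGF hT).1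
  rw [← hGG] at hl
  rw [← hGG]
  -- real blocks
  have hR : ∀ (k : D.R) (u : SO (D.m k)), wh D (Pi.mulSingle k u.1, 1) ∈ G1 GG := by
    intro k u
    have key : SO (D.m k) ≤ (G1 GG).comap ((wh D).comp ((MonoidHom.inl _ _).comp
        (MonoidHom.mulSingle (fun k => GL (Fin (D.m k)) ℂ) k))) := by
      refine hGen (D.m k) _ fun X hX y hy0 hd s => ?_
      change wh D (Pi.mulSingle k (y s), 1) ∈ G1 GG
      refine hl (Pi.single k X) 0 (fun k' => ?_) (fun s => (Pi.mulSingle k (y s), 1)) ?_ ?_ ?_ ?_ s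
      · by_cases hk : k' = k
        · subst hk
          rw [Pi.single_eq_same, hX]
        · rw [Pi.single_eq_of_ne hk, transpose_zero, neg_zero]
      · change ((Pi.mulSingle k (y 0), 1) : KM.LftM.GF D) = 1
        rw [hy0, Pi.mulSingle_one]
        rfl
      · intro s k' a b
        by_cases hk : k' = k
        · subst hk
          simp only [Pi.mulSingle_eq_same, Pi.single_eq_same]
          exact hd s a b
        · simp only [Pi.mulSingle_eq_of_ne hk, Pi.single_eq_of_ne hk, Matrix.zero_mul]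
          exact hasDerivAt_const s _
      · intro s k' a b
        simp only [Pi.zero_apply, Matrix.zero_mul]
        exact hasDerivAt_const s _
      · intro s k' a b
        simp only [Pi.zero_apply, Matrix.mul_zero, Matrix.zero_apply, neg_zero]
        exact hasDerivAt_const s _
    exact key u.2
  have hR' : wh D (fun k => (x k).1, 1) ∈ G1 GG := by
    let Ψ : ((k : D.R) → SO (D.m k)) →* GL (Fin D.n) ℂ :=
      { toFun := fun u => wh D (fun k => (u k).1, 1)
        map_one' := by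
          rw [← map_one (wh D)]
          rfl
        map_mul' := by
          intro u v
          rw [← map_mul]
          congr 1
          refine Prod.ext rfl ?_
          exact (mul_one _).symm }
    have key : x ∈ (G1 GG).comap Ψ := by
      refine Subgroup.pi_mem_of_mulSingle_mem x fun k => ?_
      change wh D (fun k' => ((Pi.mulSingle k (x k) : (k : D.R) → SO (D.m k)) k').1, 1) ∈ G1 GG
      have h1 := hR k (x k)
      have e : (fun k' => ((Pi.mulSingle k (x k) : (k : D.R) → SO (D.m k)) k').1) =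
          Pi.mulSingle k (x k).1 := by
        funext k'
        by_cases hk : k' = k
        · subst hk
          rw [Pi.mulSingle_eq_same, Pi.mulSingle_eq_same]
        · rw [Pi.mulSingle_eq_of_ne hk, Pi.mulSingle_eq_of_ne hk]
          rfl
      rwa [e]
    exact key
  -- unitary blocks
  have hU : ∀ (k : D.U) (u : GL (Fin (D.m' k)) ℂ), wh D (1, Pi.mulSingle k u) ∈ G1 GG := by
    intro k u
    have key : u ∈ (G1 GG).comap ((wh D).comp ((MonoidHom.inr _ _).comp
        (MonoidHom.mulSingle (fun k => GL (Fin (D.m' k)) ℂ) k))) := by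
      refine hGnl (D.m' k) _ (fun X y hy0 hd hd' s => ?_) u
      change wh D (1, Pi.mulSingle k (y s)) ∈ G1 GG
      refine hl 0 (Pi.single k X) (fun k' => ?_) (fun s => (1, Pi.mulSingle k (y s))) ?_ ?_ ?_ ?_ s
      · rw [Pi.zero_apply, transpose_zero, neg_zero]
      · change ((1, Pi.mulSingle k (y 0)) : KM.LftM.GF D) = 1
        rw [hy0, Pi.mulSingle_one]
        rfl
      · intro s k' a b
        simp only [Pi.zero_apply, Matrix.zero_mul]
        exact hasDerivAt_const s _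
      · intro s k' a b
        by_cases hk : k' = k
        · subst hk
          simp only [Pi.mulSingle_eq_same, Pi.single_eq_same]
          exact hd s a b
        · simp only [Pi.mulSingle_eq_of_ne hk, Pi.single_eq_of_ne hk, Matrix.zero_mul]
          exact hasDerivAt_const s _
      · intro s k' a b
        by_cases hk : k' = k
        · subst hk
          simp only [Pi.mulSingle_eq_same, Pi.single_eq_same]
          exact hd' s a b
        · simp only [Pi.mulSingle_eq_of_ne hk, Pi.single_eq_of_ne hk, Matrix.mul_zero,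
            Matrix.zero_apply, neg_zero]
          exact hasDerivAt_const s _
    exact key
  have hU' : wh D (1, x') ∈ G1 GG := by
    have key : x' ∈ (G1 GG).comap ((wh D).comp (MonoidHom.inr _ _)) := by
      refine Subgroup.pi_mem_of_mulSingle_mem x' fun k => ?_
      exact hU k (x' k)
    exact key
  have hall : wh D (fun k => (x k).1, x') ∈ G1 GG := by
    have e : ((fun k => (x k).1, x') : KM.LftM.GF D) = (fun k => (x k).1, 1) * (1, x') :=
      Prod.ext (mul_one _).symm (one_mul _).symm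
    rw [e, map_mul]
    exact (G1 GG).mul_mem hR' hU'
  obtain ⟨a, ha⟩ := hall
  exact ⟨a, wh D (fun k => (x k).1, x'), rfl, ha⟩

end Pool.Agent.Lib.MPf11a48.KF
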