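import Pool.Agent.Lib.MP_f11a48_ag.KF.SpecA
import Pool.Agent.Lib.MP_f11a48_ag.KM.Lie

/-! # Families of Kuga-Satake pairs over a field `F`: everything is in the image -/

set_option autoImplicit false
set_option linter.unusedSectionVars false

namespace Pool.Agent.Lib.MPf11a48.KF

open Matrix MvPolynomial Pool.Agent.Lib.MPf11a48.Tors
open Pool.Agent.Lib.MPf11a48.CM hiding OmegaM
open Pool.Agent.Lib.MPf11a48.GL2 (lie Geo)
open Pool.Agent.Lib.MPf11a48.GL2T (IsAlg)
open Pool.Agent.Lib.MPf11a48.U (AbData Ix HD EndAlg)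
open Pool.Agent.Lib.MPf11a48.K3 Pool.Agent.Lib.MPf11a48.KU Pool.Agent.Lib.MPf11a48.KM
open KLieM (bl clC gam)

namespace LieM

/-- the image of `r` -/
def img {D : Dat} {F : IntermediateField ℚ ℂ}
    {kk : Submodule ℂ (Matrix (Ix D.g) (Ix D.g) ℂ)}
    {r : Matrix (Ix D.g) (Ix D.g) ℂ → Matrix (Fin D.n) (Fin D.n) ℂ}
    {mm : Matrix (Ix D.g) (Ix D.g) ℂ → ℂ} (hK : KKF D F kk r mm) :
    Submodule ℂ (Matrix (Fin D.n) (Fin D.n) ℂ) where
  carrier := {ρ | ∃ Z ∈ kk, ρ = r Z}
  add_mem' := by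
    rintro _ _ ⟨Z, hZ, rfl⟩ ⟨Z', hZ', rfl⟩
    exact ⟨Z + Z', kk.add_mem hZ hZ', (hK.radd Z hZ Z' hZ').symm⟩
  zero_mem' := by
    refine ⟨0, kk.zero_mem, ?_⟩
    have h1 := hK.rsmul 0 0 kk.zero_mem
    rw [zero_smul, zero_smul] at h1
    exact h1.symm
  smul_mem' := by
    rintro a _ ⟨Z, hZ, rfl⟩
    exact ⟨a • Z, kk.smul_mem a hZ, (hK.rsmul a Z hZ).symm⟩

theorem img_br {D : Dat} {F : IntermediateField ℚ ℂ}
    {kk : Submodule ℂ (Matrix (Ix D.g) (Ix D.g) ℂ)}
    {r : Matrix (Ix D.g) (Ix D.g) ℂ → Matrix (Fin D.n) (Fin D.n) ℂ}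
    {mm : Matrix (Ix D.g) (Ix D.g) ℂ → ℂ} (hK : KKF D F kk r mm) :
    ∀ ρ ∈ img hK, ∀ ρ' ∈ img hK, ρ * ρ' - ρ' * ρ ∈ img hK := by
  rintro _ ⟨Z, hZ, rfl⟩ _ ⟨Z', hZ', rfl⟩
  exact ⟨Z * Z' - Z' * Z, hK.br Z hZ Z' hZ', (hK.rbr Z hZ Z' hZ').symm⟩

end LieM

open KM.LieM LieM in
theorem specFLie (hMat : SpecMMat) (hBlk : SpecFBlk) (hNls : SpecFNls) (hXdm : SpecMXdm)
    (hRrt : SpecMRrt) (hXrr : SpecFXrr) (hUul : SpecMUul) (hUux : SpecFUux) (hGour : SpecGOURM) :
    SpecFLie := by
  intro D F₀ kk r mm hG hK X Y hX hY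
  obtain ⟨hM1, -, -, hM4, -⟩ := hMat D
  obtain ⟨hBR, hBU⟩ := hBlk D F₀ kk r mm hK
  obtain ⟨hNR, hNU⟩ := hNls D F₀ kk r mm hK
  have G := D.good
  let M : D.R ⊕ D.U → ℕ := Sum.elim D.m D.m'
  let b : D.R ⊕ D.U → Bool := Sum.elim (fun _ => true) fun _ => false
  set L : Submodule ℂ (Matrix (Fin D.n) (Fin D.n) ℂ) := img hK with hL
  have hLbr : ∀ ρ ∈ L, ∀ ρ' ∈ L, ρ * ρ' - ρ' * ρ ∈ L := img_br hK
  -- the families
  let h : Submodule ℂ ((k : D.R ⊕ D.U) → Matrix (Fin (M k)) (Fin (M k)) ℂ) :=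
    { carrier := {F | (∀ k, (F (Sum.inl k))ᵀ = -F (Sum.inl k)) ∧
        D.wm (fun k => F (Sum.inl k)) (fun k => F (Sum.inr k)) ∈ L}
      add_mem' := by
        intro F F' h1 h2
        refine ⟨fun k => ?_, ?_⟩
        · change (F (Sum.inl k) + F' (Sum.inl k))ᵀ = -(F (Sum.inl k) + F' (Sum.inl k))
          rw [transpose_add, h1.1 k, h2.1 k, neg_add]
        · have e1 := wm_add D (fun k => F (Sum.inl k)) (fun k => F' (Sum.inl k))
            (fun k => F (Sum.inr k)) fun k => F' (Sum.inr k)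
          have e2 := L.add_mem h1.2 h2.2
          rw [← e1] at e2
          exact e2
      zero_mem' := by
        refine ⟨fun k => ?_, ?_⟩
        · change (0 : Matrix (Fin (D.m k)) (Fin (D.m k)) ℂ)ᵀ = -0
          rw [transpose_zero, neg_zero]
        · have e1 := wm_smul D 0 (0 : D.FR) (0 : D.FU)
          rw [zero_smul, zero_smul, zero_smul] at e1
          have e2 := L.zero_mem
          rw [← e1] at e2
          exact e2
      smul_mem' := by
        intro a F h1
        refine ⟨fun k => ?_, ?_⟩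
        · change (a • F (Sum.inl k))ᵀ = -(a • F (Sum.inl k))
          rw [transpose_smul, h1.1 k, smul_neg]
        · have e1 := wm_smul D a (fun k => F (Sum.inl k)) fun k => F (Sum.inr k)
          have e2 := L.smul_mem a h1.2
          rw [← e1] at e2
          exact e2 }
  have hbr : ∀ F ∈ h, ∀ F' ∈ h, (fun k => F k * F' k - F' k * F k) ∈ h := by
    intro F h1 F' h2
    refine ⟨fun k => ?_, ?_⟩
    · have a1 : (F (Sum.inl k))ᵀ = -F (Sum.inl k) := h1.1 k
      have a2 : (F' (Sum.inl k))ᵀ = -F' (Sum.inl k) := h2.1 k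
      change (F (Sum.inl k) * F' (Sum.inl k) - F' (Sum.inl k) * F (Sum.inl k))ᵀ =
        -(F (Sum.inl k) * F' (Sum.inl k) - F' (Sum.inl k) * F (Sum.inl k))
      rw [transpose_sub, transpose_mul, transpose_mul, a1, a2, neg_mul_neg, neg_mul_neg, neg_sub]
    · have e1 := hM4 (fun k => F (Sum.inl k)) (fun k => F' (Sum.inl k))
        (fun k => F (Sum.inr k)) fun k => F' (Sum.inr k)
      have e2 := hLbr _ h1.2 _ h2.2
      rw [e1] at e2
      exact e2
  have hin : ∀ Z ∈ kk, (fun k => Sum.rec (motive := fun k => Matrix (Fin (M k)) (Fin (M k)) ℂ)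
      (fun k => D.xr (r Z) k) (fun k => D.xu (r Z) k) k) ∈ h := by
    intro Z hZ
    obtain ⟨h1, h2⟩ := hM1 _ (hK.so Z hZ)
    refine ⟨h1, ?_⟩
    change D.wm (D.xr (r Z)) (D.xu (r Z)) ∈ L
    rw [← h2]
    exact ⟨Z, hZ, rfl⟩
  have hsurj : ∀ k, ∀ A ∈ blkS ℂ (M k) (b k), ∃ F ∈ h, F k = A := by
    intro k A hA
    rcases k with k | k
    · obtain ⟨Z, hZ, h1⟩ := hBR k A hA
      exact ⟨_, hin Z hZ, h1.symm⟩
    · obtain ⟨Z, hZ, h1⟩ := hBU k A hA
      exact ⟨_, hin Z hZ, h1.symm⟩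
  have hsk : ∀ F ∈ h, ∀ k, b k = true → (F k)ᵀ = -F k := by
    intro F hF k hk
    rcases k with k | k
    · exact hF.1 k
    · exact absurd hk (by simp [b])
  -- different dimensions
  have hdim : ∀ k l : D.R ⊕ D.U, dimS (M k) (b k) ≠ dimS (M l) (b l) →
      (b k = true → 3 ≤ M k) → (b k = false → 0 < M k) →
      (b l = true → 3 ≤ M l) → (b l = false → 0 < M l) →
      (b k = true → M k = 4 → 6 < dimS (M l) (b l) ∨ dimS (M l) (b l) = 0) →
      (b l = true → M l = 4 → 6 < dimS (M k) (b k) ∨ dimS (M k) (b k) = 0) →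
      ∀ φ : Matrix (Fin (M k)) (Fin (M k)) ℂ →ₗ[ℂ] Matrix (Fin (M l)) (Fin (M l)) ℂ,
      (∀ Y, φ Y ∈ blkS ℂ (M l) (b l)) →
      (∀ X ∈ h, ∀ Y, φ (X k * Y - Y * X k) = X l * φ Y - φ Y * X l) →
      ∀ Y ∈ blkS ℂ (M k) (b k), φ Y = 0 := by
    intro k l h1 h2 h3 h4 h5 h6 h7 φ hφ hE
    refine hXdm (M k) (M l) (b k) (b l) h2 h3 h4 h5 h1 h6 h7 {p | ∃ F ∈ h, p = (F k, F l)}
      ?_ ?_ ?_ φ hφ ?_
    · rintro _ ⟨F, hF, rfl⟩
      exact ⟨hsk F hF k, hsk F hF l⟩
    · intro A hA
      obtain ⟨F, hF, hFA⟩ := hsurj k A hA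
      exact ⟨_, ⟨F, hF, rfl⟩, hFA⟩
    · intro A hA
      obtain ⟨F, hF, hFA⟩ := hsurj l A hA
      exact ⟨_, ⟨F, hF, rfl⟩, hFA⟩
    · rintro _ ⟨F, hF, rfl⟩
      exact hE F hF
  have t1 : ∀ (k l : D.U), D.m' k = 1 → ∀ φ : Matrix (Fin (M (Sum.inr k)))
      (Fin (M (Sum.inr k))) ℂ →ₗ[ℂ] Matrix (Fin (M (Sum.inr l))) (Fin (M (Sum.inr l))) ℂ,
      ∀ Y ∈ blkS ℂ (M (Sum.inr k)) (b (Sum.inr k)), φ Y = 0 := by
    intro k l h1 φ Y hY
    have h2 : Y = 0 := trace_zero_one (D.m' k) h1 Y hY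
    rw [h2]
    exact map_zero φ
  have hlink : ∀ k l, k ≠ l →
      ∀ φ : Matrix (Fin (M k)) (Fin (M k)) ℂ →ₗ[ℂ] Matrix (Fin (M l)) (Fin (M l)) ℂ,
      (∀ Y, φ Y ∈ blkS ℂ (M l) (b l)) →
      (∀ X ∈ h, ∀ Y, φ (X k * Y - Y * X k) = X l * φ Y - φ Y * X l) →
      ∀ Y ∈ blkS ℂ (M k) (b k), φ Y = 0 := by
    intro k l hkl φ hφ hE
    rcases k with k | k <;> rcases l with l | l
    · -- two real blocks
      have hkl' : k ≠ l := fun h => hkl (congrArg Sum.inl h)
      by_cases ho : D.ox k = D.ox l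
      · intro Y hY
        refine nl_use (h := {p | ∃ Z ∈ kk, p = (D.xr (r Z) k, D.xr (r Z) l)}) ?_
          (hNR k l hkl' ho) φ hφ ?_ Y hY
        · rintro _ ⟨Z, hZ, rfl⟩
          exact (hin Z hZ).1 k
        · rintro _ ⟨Z, hZ, rfl⟩
          exact hE _ (hin Z hZ)
      · obtain ⟨g1, g2⟩ := G.rr k l ho
        obtain ⟨g3, g4⟩ := G.rr l k (Ne.symm ho)
        by_cases hm : D.m k = D.m l
        · by_contra hne
          push Not at hne
          obtain ⟨Y, hY, hne⟩ := hne
          obtain ⟨g5, g6⟩ := g1 hm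
          refine hXrr D F₀ kk r mm hG hK k l ho fun Z hZ p => ?_
          exact rr_link hRrt (D.m k) (D.m l) hm (G.three k) g5 g6
            {p | ∃ F ∈ h, p = (F (Sum.inl k), F (Sum.inl l))} (by
              rintro _ ⟨F, hF, rfl⟩
              exact ⟨hF.1 k, hF.1 l⟩) (by
              intro A hA
              obtain ⟨F, hF, hFA⟩ := hsurj (Sum.inl k) A hA
              exact ⟨_, ⟨F, hF, rfl⟩, hFA⟩) (by
              intro A hA
              obtain ⟨F, hF, hFA⟩ := hsurj (Sum.inl l) A hA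
              exact ⟨_, ⟨F, hF, rfl⟩, hFA⟩) φ hφ (by
              rintro _ ⟨F, hF, rfl⟩
              exact hE F hF) ⟨Y, hY, hne⟩ _ ⟨_, hin Z hZ, rfl⟩ p
        · refine hdim (Sum.inl k) (Sum.inl l) ?_ ?_ ?_ ?_ ?_ ?_ ?_ φ hφ hE
          · exact dimS_real (G.three k) (G.three l) hm
          · exact fun _ => G.three k
          · intro h; exact absurd h (by simp [b])
          · exact fun _ => G.three l
          · intro h; exact absurd h (by simp [b])
          · intro _ h4
            left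
            change D.m k = 4 at h4
            change 6 < dimS (D.m l) true
            refine dimS_big ?_
            have a1 := G.three l
            have a2 : D.m l ≠ 3 := fun h => g4 h h4
            have a3 : D.m l ≠ 4 := fun h => hm (h4.trans h.symm)
            omega
          · intro _ h4
            left
            change D.m l = 4 at h4
            change 6 < dimS (D.m k) true
            refine dimS_big ?_
            have a1 := G.three k
            have a2 : D.m k ≠ 3 := fun h => g2 h h4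
            have a3 : D.m k ≠ 4 := fun h => hm (h.trans h4.symm)
            omega
    · -- real, unitary
      obtain ⟨g1, g2⟩ := G.ru k l
      have hbig : D.m k = 4 → 6 < dimS (D.m' l) false ∨ dimS (D.m' l) false = 0 := by
        intro h4
        rcases G.even l with h1 | ⟨c, hc⟩
        · right
          rw [h1]
          rfl
        · left
          refine dimS_bigU ?_
          have a1 := G.pos l
          have a2 := g2 h4
          omega
      refine hdim (Sum.inl k) (Sum.inr l) ?_ ?_ ?_ ?_ ?_ ?_ ?_ φ hφ hE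
      · exact dimS_mixed g1
      · exact fun _ => G.three k
      · intro h; exact absurd h (by simp [b])
      · intro h; exact absurd h (by simp [b])
      · exact fun _ => G.pos l
      · exact fun _ => hbig
      · intro h; exact absurd h (by simp [b])
    · -- unitary, real
      obtain ⟨g1, g2⟩ := G.ru l k
      have hbig : D.m l = 4 → 6 < dimS (D.m' k) false ∨ dimS (D.m' k) false = 0 := by
        intro h4
        rcases G.even k with h1 | ⟨c, hc⟩
        · right
          rw [h1]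
          rfl
        · left
          refine dimS_bigU ?_
          have a1 := G.pos k
          have a2 := g2 h4
          omega
      refine hdim (Sum.inr k) (Sum.inl l) ?_ ?_ ?_ ?_ ?_ ?_ ?_ φ hφ hE
      · exact (dimS_mixed g1).symm
      · intro h; exact absurd h (by simp [b])
      · exact fun _ => G.pos k
      · exact fun _ => G.three l
      · intro h; exact absurd h (by simp [b])
      · intro h; exact absurd h (by simp [b])
      · exact fun _ => hbig
    · -- two unitary blocks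
      have hkl' : k ≠ l := fun h => hkl (congrArg Sum.inr h)
      by_cases ho : D.ou k = D.ou l
      · intro Y hY
        refine hNU k l hkl' ho φ ?_ Y hY
        rintro _ ⟨Z, hZ, rfl⟩
        have h5 := hE _ (hin Z hZ)
        exact h5
      · by_cases hm : D.m' k = D.m' l
        · have h2 := G.uu k l ho hm
          rcases Nat.lt_or_ge (D.m' k) 3 with h3 | h3
          · have h1 : D.m' k = 1 := by
              have a1 := G.pos k
              omega
            intro Y hY
            exact t1 k l h1 φ Y hY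
          · by_contra hne
            push Not at hne
            obtain ⟨Y, hY, hne⟩ := hne
            let pk : ((k : D.R ⊕ D.U) → Matrix (Fin (M k)) (Fin (M k)) ℂ) →ₗ[ℂ]
                (Matrix (Fin (D.m' k)) (Fin (D.m' k)) ℂ × Matrix (Fin (D.m' l)) (Fin (D.m' l)) ℂ) :=
              LinearMap.prod (LinearMap.proj (Sum.inr k)) (LinearMap.proj (Sum.inr l))
            obtain ⟨ε, hε, huu⟩ := uu_link hUul (D.m' k) (D.m' l) hm h3 (h.map pk) (by
                rintro _ ⟨F, hF, rfl⟩ _ ⟨F', hF', rfl⟩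
                exact ⟨_, hbr F hF F' hF', rfl⟩) (by
                intro A hA
                obtain ⟨F, hF, hFA⟩ := hsurj (Sum.inr k) A hA
                exact ⟨_, ⟨F, hF, rfl⟩, hFA⟩) (by
                intro A hA
                obtain ⟨F, hF, hFA⟩ := hsurj (Sum.inr l) A hA
                exact ⟨_, ⟨F, hF, rfl⟩, hFA⟩) φ hφ (by
                rintro _ ⟨F, hF, rfl⟩
                exact hE F hF) ⟨Y, hY, hne⟩
            refine hUux D F₀ kk r mm hG hK k l ho hm h3 ε hε fun Z hZ => ?_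
            have h5 := huu _ ⟨_, hin Z hZ, rfl⟩
            exact h5
        · refine hdim (Sum.inr k) (Sum.inr l) ?_ ?_ ?_ ?_ ?_ ?_ ?_ φ hφ hE
          · exact dimS_unit (G.pos k) (G.pos l) hm
          · intro h; exact absurd h (by simp [b])
          · exact fun _ => G.pos k
          · intro h; exact absurd h (by simp [b])
          · exact fun _ => G.pos l
          · intro h; exact absurd h (by simp [b])
          · intro h; exact absurd h (by simp [b])
  have h3 : ∀ k, b k = true → 3 ≤ M k := by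
    intro k hk
    rcases k with k | k
    · exact G.three k
    · exact absurd hk (by simp [b])
  let W : (k : D.R ⊕ D.U) → Matrix (Fin (M k)) (Fin (M k)) ℂ :=
    fun k => Sum.rec (motive := fun k => Matrix (Fin (M k)) (Fin (M k)) ℂ)
      (fun k => X k) (fun k => Y k) k
  have hW : ∀ k, W k ∈ blkS ℂ (M k) (b k) := by
    intro k
    rcases k with k | k
    · exact hX k
    · exact hY k
  exact (hGour ℂ (D.R ⊕ D.U) M b h3 h hsk hbr hsurj hlink W hW).2

end Pool.Agent.Lib.MPf11a48.KF
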