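import Pool.Agent.Lib.MP_f11a48_ag.KF.SpecA
import Pool.Agent.Lib.MP_f11a48_ag.KM.Mz

/-!
# MZ over a field: the elements of `kk` are Clifford elements up to a scalar
-/

set_option autoImplicit false

namespace Pool.Agent.Lib.MPf11a48.KF

open Matrix MvPolynomial Pool.Agent.Lib.MPf11a48.Tors
open Pool.Agent.Lib.MPf11a48.CM hiding OmegaM
open Pool.Agent.Lib.MPf11a48.GL2 (lie Geo)
open Pool.Agent.Lib.MPf11a48.GL2T (IsAlg)
open Pool.Agent.Lib.MPf11a48.U (AbData Ix HD EndAlg)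
open Pool.Agent.Lib.MPf11a48.K3 Pool.Agent.Lib.MPf11a48.KU Pool.Agent.Lib.MPf11a48.KM
open KRatM (cx_add cx_smul cx_zero cx_mul)
open Pool.Agent.Lib.MPf11a48.KM.ZM (trace_ne)

namespace MzM

/-- the trace of `π Z` for a similitude `Z` -/
theorem trace_sim {ι : Type} [Fintype ι] [DecidableEq ι] (ψ Z p : Matrix ι ι ℂ) (m : ℂ)
    (hψ : ψ.det ≠ 0) (hZ : Zᵀ * ψ + ψ * Z = m • ψ) (hp : pᵀ * ψ = ψ * p) :
    2 * (p * Z).trace = m * p.trace := by
  have hu : IsUnit ψ.det := isUnit_iff_ne_zero.2 hψ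
  have h1 : ψ⁻¹ * (Zᵀ * ψ + ψ * Z) * p = m • p := by
    rw [hZ, Matrix.mul_smul, Matrix.nonsing_inv_mul _ hu, Matrix.smul_mul, Matrix.one_mul]
  have h2 : (ψ⁻¹ * (Zᵀ * ψ + ψ * Z) * p).trace = (p * Z).trace + (p * Z).trace := by
    rw [Matrix.mul_add, Matrix.add_mul, Matrix.trace_add]
    congr 1
    · calc (ψ⁻¹ * (Zᵀ * ψ) * p).trace = (ψ⁻¹ * (Zᵀ * (ψ * p))).trace := by
            simp only [Matrix.mul_assoc]
        _ = (ψ⁻¹ * (Zᵀ * (pᵀ * ψ))).trace := by rw [hp]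
        _ = (Zᵀ * (pᵀ * ψ) * ψ⁻¹).trace := Matrix.trace_mul_comm _ _
        _ = (Zᵀ * pᵀ).trace := by
            rw [Matrix.mul_assoc, Matrix.mul_assoc, Matrix.mul_nonsing_inv _ hu, Matrix.mul_one]
        _ = ((p * Z)ᵀ).trace := by rw [Matrix.transpose_mul]
        _ = (p * Z).trace := Matrix.trace_transpose _
    · rw [← Matrix.mul_assoc, Matrix.nonsing_inv_mul _ hu, Matrix.one_mul,
        Matrix.trace_mul_comm]
  rw [h1, Matrix.trace_smul, smul_eq_mul] at h2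
  linear_combination -h2

/-- the determinant of the complexification -/
theorem det_cx {ι : Type} [Fintype ι] [DecidableEq ι] (M : Matrix ι ι ℚ) (h : M.det ≠ 0) :
    (cx M).det ≠ 0 := by
  have h1 : (cx M).det = ((M.det : ℚ) : ℂ) := by
    have := RingHom.map_det (Rat.castHom ℂ) M
    simpa [cx, RingHom.mapMatrix_apply] using this.symm
  rw [h1]
  exact_mod_cast h

end MzM

open MzM in
/-- **FMZ.** -/
theorem specFMz (hCLB : SpecMClb) (hSCL : SpecMScl) (hCMP : SpecMCmp) (hHDA : U.SpecHDA) :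
    SpecFMz := by
  intro D F kk r mm hK Z hZ
  obtain ⟨c1, c2, c3, c4, c5, c6, c7⟩ := hCLB D
  obtain ⟨⟨J, hJ⟩, -⟩ := hHDA Qbar D.g D.N D.A D.c le_rfl D.ks.abvar D.ks.per
  have hρ : r Z ∈ D.so := hK.so Z hZ
  have hpc : ∀ i j, D.pc i * D.pc j = if i = j then D.pc i else 0 := by
    intro i j
    unfold Dat.pc
    rw [← cx_mul, D.ks.mul]
    split_ifs
    · rfl
    · exact cx_zero
  have hsum : ∑ i, D.pc i = 1 := by
    have h1 : cx (∑ i, D.π i) = ∑ i, cx (D.π i) := by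
      ext a b
      simp [cx, Matrix.sum_apply]
    unfold Dat.pc
    rw [← h1, D.ks.sum]
    ext a b
    by_cases h : a = b
    · subst h
      simp [cx]
    · simp [cx, h]
  have hne : ∀ i, D.pc i ≠ 0 := by
    intro i h
    apply D.ks.ne i
    ext a b
    have := congrFun (congrFun h a) b
    simpa [Dat.pc, cx] using this
  -- the difference is a scalar on each species
  obtain ⟨s, hs⟩ := hSCL D (Z - D.cl (r Z)) (by
    intro j
    have h1 := hK.act Z hZ j
    have h3 := c1 (r Z) hρ j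
    rw [← h3] at h1
    rw [Matrix.sub_mul, Matrix.mul_sub]
    have h4 := sub_eq_zero.2 h1
    rw [← sub_eq_zero]
    rw [← h4]
    abel) (by
    intro Z₀ hZ₀
    have hE : Z₀ ∈ EndAlg D.c.1 := D.full Z₀ hZ₀
    rw [Matrix.sub_mul, Matrix.mul_sub, c7 _ hρ Z₀ hE, hK.com Z hZ Z₀ hE])
  have hsi : ∀ i, s i = mm Z / 2 := by
    intro i
    have hp : (D.pc i)ᵀ * cx D.A.psi = cx D.A.psi * D.pc i := by
      have h1 : (D.pc i)ᵀ = cx (D.π i)ᵀ := rfl
      rw [h1, Dat.pc, ← cx_mul, ← cx_mul, D.ks.psi i]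
    have h1 := trace_sim (cx D.A.psi) Z (D.pc i) (mm Z) (det_cx _ hJ.det) (hK.sim Z hZ) hp
    have h2 : 2 * (Z * D.pc i).trace = mm Z * (D.pc i).trace := by
      rw [Matrix.trace_mul_comm]
      exact h1
    have h4 : Z = D.cl (r Z) + ∑ j, s j • D.pc j := by
      rw [← hs]
      abel
    have h5 : (∑ j, s j • D.pc j) * D.pc i = s i • D.pc i := by
      rw [Matrix.sum_mul, Finset.sum_eq_single i]
      · rw [Matrix.smul_mul, hpc, if_pos rfl]
      · intro j _ hj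
        rw [Matrix.smul_mul, hpc, if_neg hj, smul_zero]
      · intro h
        exact absurd (Finset.mem_univ i) h
    have h6 : (Z * D.pc i).trace = s i * (D.pc i).trace := by
      conv_lhs => rw [h4]
      rw [Matrix.add_mul, h5, Matrix.trace_add, c6 _ hρ i, zero_add, Matrix.trace_smul,
        smul_eq_mul]
    rw [h6] at h2
    have h7 := trace_ne hCMP (D.pc i) (by rw [hpc, if_pos rfl]) (hne i)
    have h8 : (2 * s i - mm Z) * (D.pc i).trace = 0 := by linear_combination h2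
    have h9 := (mul_eq_zero.1 h8).resolve_right h7
    linear_combination h9 / 2
  have h9 : ∑ i, s i • D.pc i = (mm Z / 2) • (1 : Matrix (Ix D.g) (Ix D.g) ℂ) := by
    simp only [hsi]
    rw [← Finset.smul_sum, hsum]
  rw [← h9, ← hs]
  abel

end Pool.Agent.Lib.MPf11a48.KF
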