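import Pool.Agent.Lib.MP_f11a48_ag.KF.SpecA
import Pool.Agent.Lib.MP_f11a48_ag.KM.Nls

/-!
# NLS over a field `F`: no links between blocks of the same species
-/

set_option autoImplicit false

namespace Pool.Agent.Lib.MPf11a48.KF

open Matrix MvPolynomial Pool.Agent.Lib.MPf11a48.Tors
open Pool.Agent.Lib.MPf11a48.CM hiding OmegaM
open Pool.Agent.Lib.MPf11a48.U (AbData Ix HD EndAlg)
open Pool.Agent.Lib.MPf11a48.K3 Pool.Agent.Lib.MPf11a48.KU Pool.Agent.Lib.MPf11a48.KM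
open KRatM

open KM.NlsM in
/-- No links between blocks of the same species. -/
theorem specFNls (hMat : SpecMMat) (hCar : SpecMCar) (hFCar : SpecFCar) (hCmp : SpecMCmp)
    (hKLnk : SpecKLnk) (hULnk : SpecULnk) : SpecFNls := by
  intro D F kk r mm hK
  obtain ⟨hM1, -, -, -, -, -, -, -, -⟩ := hMat D
  obtain ⟨a1, a2, a3, a4, a5, a6, a7, -, hC, -⟩ := hCar D
  obtain ⟨hd2, hd3⟩ := hFCar D F kk r mm hK
  -- action of the elements of `kk`
  have hZB : ∀ Z ∈ kk, ∀ j, Z * cx (D.B j) - cx (D.B j) * Z =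
      ∑ i, D.wm (D.xr (r Z)) (D.xu (r Z)) i j • cx (D.B i) := by
    intro Z hZ j
    have h0 := (hM1 (r Z) (hK.so Z hZ)).2
    rw [← h0]
    exact hK.act Z hZ j
  have hcomp : ∀ Z ∈ kk, ∀ i, Z * D.pc i = D.pc i * Z := hK.comp
  have hp : ∀ i, D.pc i * D.pc i = D.pc i := by
    intro i
    have h1 := congrArg cx (D.ks.mul i i)
    rw [if_pos rfl, cx_mul] at h1
    exact h1
  have hp0 : ∀ i, D.pc i ≠ 0 := by
    intro i h0
    apply D.ks.ne i
    ext a b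
    have h1 := congrFun (congrFun h0 a) b
    have h2 : ((D.π i a b : ℚ) : ℂ) = 0 := h1
    exact_mod_cast h2
  constructor
  · intro k l hkl hox
    set i := D.ox k with hi
    obtain ⟨ν, _, _, hne, L, R, hLR, hRL⟩ := (hCmp (Ix D.g) (D.pc i) (hp i)).1 (hp0 i)
    have hadj := (hCmp (Ix D.g) (D.pc i) (hp i)).2 ν L R hLR hRL
      (kk : Set (Matrix (Ix D.g) (Ix D.g) ℂ)) (fun Z hZ => hcomp Z hZ i)
    -- the compressed pairs
    let KK' : Set (Matrix ν ν ℂ × (Matrix (Fin (D.m k)) (Fin (D.m k)) ℂ ×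
        Matrix (Fin (D.m l)) (Fin (D.m l)) ℂ)) :=
      {p | ∃ Z ∈ kk, p = (L * Z * R, (D.xr (r Z) k, D.xr (r Z) l))}
    have hsnd : Prod.snd '' KK' = {p | ∃ Z ∈ kk, p = (D.xr (r Z) k, D.xr (r Z) l)} := by
      ext p
      constructor
      · rintro ⟨_, ⟨Z, hZ, rfl⟩, rfl⟩
        exact ⟨Z, hZ, rfl⟩
      · rintro ⟨Z, hZ, rfl⟩
        exact ⟨_, ⟨Z, hZ, rfl⟩, rfl⟩
    have lp : ∀ u : (k : D.R) × Fin (D.m k), D.ox u.1 = i → D.pc i * D.gm u = D.gm u := by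
      intro u hu
      rw [(a5 i u).1, if_pos hu.symm]
    have rp : ∀ u : (k : D.R) × Fin (D.m k), D.ox u.1 = i → D.gm u * D.pc i = D.gm u := by
      intro u hu
      rw [(a5 i u).2, if_pos hu.symm]
    have hanti : ∀ u v : (k : D.R) × Fin (D.m k), D.ox u.1 = i → D.ox v.1 = i →
        L * D.gm u * R * (L * D.gm v * R) + L * D.gm v * R * (L * D.gm u * R) =
          if u = v then 1 else 0 := by
      intro u v hu hv
      rw [cmp_mul hRL _ _ (lp v hv), cmp_mul hRL _ _ (lp u hu), ← Matrix.add_mul,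
        ← Matrix.mul_add, a1]
      by_cases h : u = v
      · rw [if_pos h, if_pos h, hu]
        exact cmp_p hLR hRL
      · rw [if_neg h, if_neg h, Matrix.mul_zero, Matrix.zero_mul]
    have hact : ∀ Z ∈ kk, ∀ k' : D.R, D.ox k' = i → ∀ j : Fin (D.m k'),
        L * Z * R * (L * D.gm ⟨k', j⟩ * R) - L * D.gm ⟨k', j⟩ * R * (L * Z * R) =
          ∑ a, D.xr (r Z) k' a j • (L * D.gm ⟨k', a⟩ * R) := by
      intro Z hZ k' hk' j
      rw [cmp_mul hRL _ _ (lp ⟨k', j⟩ hk'), cmp_mul' hRL _ _ (rp ⟨k', j⟩ hk'), ← Matrix.sub_mul,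
        ← Matrix.mul_sub, (hC Z (D.xr (r Z)) (D.xu (r Z)) (hZB Z hZ)).1,
        LieLM.sum_blk (D.xr (r Z)) D.gm k' j, cmp_sum]
    have h1 := hKLnk ν (D.m k) (D.m l) (fun a => L * D.gm ⟨k, a⟩ * R)
      (fun a => L * D.gm ⟨l, a⟩ * R) KK' (D.good.three k) ?_ ?_ ?_ ?_ ?_
    · rw [hsnd] at h1
      exact h1
    · intro a b
      have h2 := hanti ⟨k, a⟩ ⟨l, b⟩ rfl hox.symm
      rw [if_neg fun h => hkl (congrArg Sigma.fst h)] at h2
      exact h2
    · have hset : (fun X : Matrix ν ν ℂ × (Matrix (Fin (D.m k)) (Fin (D.m k)) ℂ ×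
          Matrix (Fin (D.m l)) (Fin (D.m l)) ℂ) => (X.1, X.2.1)) '' KK' =
          {p | ∃ Z ∈ kk, p = (L * Z * R, D.xr (r Z) k)} := by
        ext p
        constructor
        · rintro ⟨_, ⟨Z, hZ, rfl⟩, rfl⟩
          exact ⟨Z, hZ, rfl⟩
        · rintro ⟨Z, hZ, rfl⟩
          exact ⟨_, ⟨Z, hZ, rfl⟩, rfl⟩
      rw [hset]
      refine ⟨?_, ?_, ?_, ?_⟩
      · intro a b
        have h2 := hanti ⟨k, a⟩ ⟨k, b⟩ rfl rfl
        rw [h2]
        by_cases hab : a = b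
        · subst hab
          rw [if_pos rfl, if_pos rfl]
        · rw [if_neg hab, if_neg fun h => hab (by simpa using h)]
      · rintro _ ⟨Z, hZ, rfl⟩
        exact (hM1 (r Z) (hK.so Z hZ)).1 k
      · rintro _ ⟨Z, hZ, rfl⟩ j
        exact hact Z hZ k rfl j
      · intro a b
        have h2 : Prod.fst '' {p : Matrix ν ν ℂ × Matrix (Fin (D.m k)) (Fin (D.m k)) ℂ |
            ∃ Z ∈ kk, p = (L * Z * R, D.xr (r Z) k)} = (fun X => L * X * R) ''
              (kk : Set (Matrix (Ix D.g) (Ix D.g) ℂ)) := by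
          ext Y
          constructor
          · rintro ⟨_, ⟨Z, hZ, rfl⟩, rfl⟩
            exact ⟨Z, hZ, rfl⟩
          · rintro ⟨Z, hZ, rfl⟩
            exact ⟨_, ⟨Z, hZ, rfl⟩, rfl⟩
        rw [h2, cmp_mul hRL _ _ (lp ⟨k, b⟩ rfl)]
        exact hadj _ (hd2 ⟨k, a⟩ ⟨k, b⟩ rfl)
    · intro a b
      have h2 := hanti ⟨l, a⟩ ⟨l, b⟩ hox.symm hox.symm
      rw [h2]
      by_cases hab : a = b
      · subst hab
        rw [if_pos rfl, if_pos rfl]
      · rw [if_neg hab, if_neg fun h => hab (by simpa using h)]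
    · rintro _ ⟨Z, hZ, rfl⟩
      exact (hM1 (r Z) (hK.so Z hZ)).1 l
    · rintro _ ⟨Z, hZ, rfl⟩ j
      exact hact Z hZ l hox.symm j
  · intro k l hkl hox
    set i := D.ou k with hi
    obtain ⟨ν, _, _, hne, L, R, hLR, hRL⟩ := (hCmp (Ix D.g) (D.pc i) (hp i)).1 (hp0 i)
    have hadj := (hCmp (Ix D.g) (D.pc i) (hp i)).2 ν L R hLR hRL
      (kk : Set (Matrix (Ix D.g) (Ix D.g) ℂ)) (fun Z hZ => hcomp Z hZ i)
    let KK' : Set (Matrix ν ν ℂ × (Matrix (Fin (D.m' k)) (Fin (D.m' k)) ℂ ×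
        Matrix (Fin (D.m' l)) (Fin (D.m' l)) ℂ)) :=
      {p | ∃ Z ∈ kk, p = (L * Z * R, (D.xu (r Z) k, D.xu (r Z) l))}
    have hsnd : Prod.snd '' KK' = {p | ∃ Z ∈ kk, p = (D.xu (r Z) k, D.xu (r Z) l)} := by
      ext p
      constructor
      · rintro ⟨_, ⟨Z, hZ, rfl⟩, rfl⟩
        exact ⟨Z, hZ, rfl⟩
      · rintro ⟨Z, hZ, rfl⟩
        exact ⟨_, ⟨Z, hZ, rfl⟩, rfl⟩
    have lpe : ∀ u : (k : D.U) × Fin (D.m' k), D.ou u.1 = i → D.pc i * D.e u = D.e u := by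
      intro u hu
      rw [(a6 i u).1, if_pos hu.symm]
    have rpe : ∀ u : (k : D.U) × Fin (D.m' k), D.ou u.1 = i → D.e u * D.pc i = D.e u := by
      intro u hu
      rw [(a6 i u).2, if_pos hu.symm]
    have lpf : ∀ u : (k : D.U) × Fin (D.m' k), D.ou u.1 = i → D.pc i * D.f u = D.f u := by
      intro u hu
      rw [(a7 i u).1, if_pos hu.symm]
    have rpf : ∀ u : (k : D.U) × Fin (D.m' k), D.ou u.1 = i → D.f u * D.pc i = D.f u := by
      intro u hu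
      rw [(a7 i u).2, if_pos hu.symm]
    have hcar : ∀ (U : Type) [DecidableEq U] (ψ : U → (k : D.U) × Fin (D.m' k)),
        Function.Injective ψ → (∀ u, D.ou (ψ u).1 = i) →
        Car (fun u => L * D.e (ψ u) * R) (fun u => L * D.f (ψ u) * R) := by
      intro U _ ψ hψ hou
      refine ⟨fun u v => ?_, fun u v => ?_, fun u v => ?_⟩
      · rw [cmp_mul hRL _ _ (lpe _ (hou v)), cmp_mul hRL _ _ (lpe _ (hou u)), ← Matrix.add_mul,
          ← Matrix.mul_add, a2, Matrix.mul_zero, Matrix.zero_mul]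
      · rw [cmp_mul hRL _ _ (lpf _ (hou v)), cmp_mul hRL _ _ (lpf _ (hou u)), ← Matrix.add_mul,
          ← Matrix.mul_add, a3, Matrix.mul_zero, Matrix.zero_mul]
      · rw [cmp_mul hRL _ _ (lpf _ (hou v)), cmp_mul hRL _ _ (lpe _ (hou u)), ← Matrix.add_mul,
          ← Matrix.mul_add, a4]
        by_cases huv : u = v
        · rw [if_pos huv, if_pos (by rw [huv]), hou]
          exact cmp_p hLR hRL
        · rw [if_neg huv, if_neg fun h => huv (hψ h), Matrix.mul_zero, Matrix.zero_mul]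
    have hacte : ∀ Z ∈ kk, ∀ k' : D.U, D.ou k' = i → ∀ j : Fin (D.m' k'),
        L * Z * R * (L * D.e ⟨k', j⟩ * R) - L * D.e ⟨k', j⟩ * R * (L * Z * R) =
          ∑ a, D.xu (r Z) k' a j • (L * D.e ⟨k', a⟩ * R) := by
      intro Z hZ k' hk' j
      rw [cmp_mul hRL _ _ (lpe ⟨k', j⟩ hk'), cmp_mul' hRL _ _ (rpe ⟨k', j⟩ hk'), ← Matrix.sub_mul,
        ← Matrix.mul_sub, (hC Z (D.xr (r Z)) (D.xu (r Z)) (hZB Z hZ)).2.1,
        LieLM.sum_blk (D.xu (r Z)) D.e k' j, cmp_sum]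
    have hactf : ∀ Z ∈ kk, ∀ k' : D.U, D.ou k' = i → ∀ j : Fin (D.m' k'),
        L * Z * R * (L * D.f ⟨k', j⟩ * R) - L * D.f ⟨k', j⟩ * R * (L * Z * R) =
          -∑ a, D.xu (r Z) k' j a • (L * D.f ⟨k', a⟩ * R) := by
      intro Z hZ k' hk' j
      rw [cmp_mul hRL _ _ (lpf ⟨k', j⟩ hk'), cmp_mul' hRL _ _ (rpf ⟨k', j⟩ hk'), ← Matrix.sub_mul,
        ← Matrix.mul_sub, (hC Z (D.xr (r Z)) (D.xu (r Z)) (hZB Z hZ)).2.2,
        LieLM.sum_blk' (D.xu (r Z)) D.f k' j, Matrix.mul_neg, Matrix.neg_mul, cmp_sum]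
    have hUF : ∀ k' : D.U, D.ou k' = i →
        UF (fun a => L * D.e ⟨k', a⟩ * R) (fun a => L * D.f ⟨k', a⟩ * R)
          {p | ∃ Z ∈ kk, p = (L * Z * R, D.xu (r Z) k')} := by
      intro k' hk'
      refine ⟨hcar _ (fun a => ⟨k', a⟩) (fun a b h => by cases h; rfl) (fun _ => hk'), ?_, ?_,
        fun a b => ?_⟩
      · rintro _ ⟨Z, hZ, rfl⟩ j
        exact hacte Z hZ k' hk' j
      · rintro _ ⟨Z, hZ, rfl⟩ j
        exact hactf Z hZ k' hk' j
      · have h2 : Prod.fst '' {p : Matrix ν ν ℂ × Matrix (Fin (D.m' k')) (Fin (D.m' k')) ℂ |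
            ∃ Z ∈ kk, p = (L * Z * R, D.xu (r Z) k')} = (fun X => L * X * R) ''
              (kk : Set (Matrix (Ix D.g) (Ix D.g) ℂ)) := by
          ext Y
          constructor
          · rintro ⟨_, ⟨Z, hZ, rfl⟩, rfl⟩
            exact ⟨Z, hZ, rfl⟩
          · rintro ⟨Z, hZ, rfl⟩
            exact ⟨_, ⟨Z, hZ, rfl⟩, rfl⟩
        rw [h2, cmp_mul hRL _ _ (lpf ⟨k', b⟩ hk')]
        exact hadj _ (hd3 ⟨k', a⟩ ⟨k', b⟩ rfl)
    have h1 := hULnk ν (D.m' k) (D.m' l) (fun a => L * D.e ⟨k, a⟩ * R)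
      (fun a => L * D.f ⟨k, a⟩ * R) (fun a => L * D.e ⟨l, a⟩ * R) (fun a => L * D.f ⟨l, a⟩ * R)
      KK' ?_ ?_ ?_
    · rw [hsnd] at h1
      exact h1
    · let ψ' : Fin (D.m' k) ⊕ Fin (D.m' l) → (k : D.U) × Fin (D.m' k) :=
        Sum.elim (fun a => ⟨k, a⟩) fun a => ⟨l, a⟩
      have hψ : Function.Injective ψ' := by
        rintro (a | a) (b | b) h2
        · cases h2; rfl
        · exact absurd (congrArg Sigma.fst h2) hkl
        · exact absurd (congrArg Sigma.fst h2) hkl.symm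
        · cases h2; rfl
      have h2 := hcar _ ψ' hψ (by
        rintro (a | a)
        · rfl
        · exact hox.symm)
      have e1 : (fun u => L * D.e (ψ' u) * R) =
          Sum.elim (fun a => L * D.e ⟨k, a⟩ * R) fun a => L * D.e ⟨l, a⟩ * R := by
        funext u
        rcases u with a | a <;> rfl
      have e2 : (fun u => L * D.f (ψ' u) * R) =
          Sum.elim (fun a => L * D.f ⟨k, a⟩ * R) fun a => L * D.f ⟨l, a⟩ * R := by
        funext u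
        rcases u with a | a <;> rfl
      rw [e1, e2] at h2
      exact h2
    · have hset : (fun X : Matrix ν ν ℂ × (Matrix (Fin (D.m' k)) (Fin (D.m' k)) ℂ ×
          Matrix (Fin (D.m' l)) (Fin (D.m' l)) ℂ) => (X.1, X.2.1)) '' KK' =
          {p | ∃ Z ∈ kk, p = (L * Z * R, D.xu (r Z) k)} := by
        ext p
        constructor
        · rintro ⟨_, ⟨Z, hZ, rfl⟩, rfl⟩
          exact ⟨Z, hZ, rfl⟩
        · rintro ⟨Z, hZ, rfl⟩
          exact ⟨_, ⟨Z, hZ, rfl⟩, rfl⟩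
      rw [hset]
      exact hUF k rfl
    · have hset : (fun X : Matrix ν ν ℂ × (Matrix (Fin (D.m' k)) (Fin (D.m' k)) ℂ ×
          Matrix (Fin (D.m' l)) (Fin (D.m' l)) ℂ) => (X.1, X.2.2)) '' KK' =
          {p | ∃ Z ∈ kk, p = (L * Z * R, D.xu (r Z) l)} := by
        ext p
        constructor
        · rintro ⟨_, ⟨Z, hZ, rfl⟩, rfl⟩
          exact ⟨Z, hZ, rfl⟩
        · rintro ⟨Z, hZ, rfl⟩
          exact ⟨_, ⟨Z, hZ, rfl⟩, rfl⟩
      rw [hset]
      exact hUF l hox.symm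

end Pool.Agent.Lib.MPf11a48.KF
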