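import Pool.Agent.Lib.MP_f11a48_ag.KF.SpecB
import Pool.Agent.Lib.MP_f11a48_ag.KM.Sgn

/-! # Families over `F`: signs -/

set_option autoImplicit false
set_option linter.unusedSectionVars false

namespace Pool.Agent.Lib.MPf11a48.KF

open Matrix MvPolynomial Pool.Agent.Lib.MPf11a48.Tors
open Pool.Agent.Lib.MPf11a48.CM hiding OmegaM
open Pool.Agent.Lib.MPf11a48.GL2 (lie Geo)
open Pool.Agent.Lib.MPf11a48.GL2T (IsAlg)
open Pool.Agent.Lib.MPf11a48.U (AbData Ix HD EndAlg SpecHDA)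
open Pool.Agent.Lib.MPf11a48.K3 Pool.Agent.Lib.MPf11a48.KU Pool.Agent.Lib.MPf11a48.KM
open KLieM (bl clC gam)
open KGrpM (stab)
open KGrp3M (G0 sc ex)

open Pool.Agent.Lib.MPf11a48.KM.SgnM KRatM LieLM KGrpM KGrp3M in
theorem specFSgn (hFul : SpecFFul) (hCar : SpecMCar) (hCurve : SpecCurve) (hHDA : SpecHDA) :
    SpecFSgn := by
  intro D F T hGF hT i
  obtain ⟨hF, -⟩ := hFul D F T hGF hT
  obtain ⟨hgg, hee, hff, hef, hpg, hpe, hpf, hb, -, -⟩ := hCar D
  have hgeo := GL2.geo_of_torsor hT.tor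
  have main : ∀ (X : D.FR) (Y : D.FU), (∀ k, (X k)ᵀ = -X k) →
      D.wm X Y * D.wm X Y * D.wm X Y = D.wm X Y →
      ((2 : ℂ) • D.cl (D.wm X Y)) * ((2 : ℂ) • D.cl (D.wm X Y)) = D.pc i →
      D.pc i * ((2 : ℂ) • D.cl (D.wm X Y)) = (2 : ℂ) • D.cl (D.wm X Y) →
      ∃ σ : GL (Ix D.g) ℂ, σ.1 = 1 - (2 : ℂ) • D.pc i ∧
        ((σ, 1, 1) : Grp3 D.g D.n) ∈ G0 D.B (EndAlg D.c.1) D.A.psi ⊓ (stab T).comap bd3 := by
    intro X Y hX hN hM hM'
    have h1 : lb3 ((2 : ℂ)⁻¹ • ((2 : ℂ) • D.cl (D.wm X Y))) (D.wm X Y) 0 ∈ lie T := by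
      rw [smul_smul, inv_mul_cancel₀ (two_ne_zero), one_smul]
      exact hF X Y hX
    obtain ⟨σ, hσ, hσ'⟩ := key hCurve hgeo hN (by rw [hM, hM']) h1
    rw [hM] at hσ
    exact ⟨σ, hσ, mem_G0 hHDA D i hσ, hσ'⟩
  rcases exists_block D i with ⟨r, rfl⟩ | ⟨u, rfl, hu⟩
  · -- a real block
    have h3 := D.good.three r
    let a : Fin (D.m r) := ⟨0, by omega⟩
    let b : Fin (D.m r) := ⟨1, by omega⟩
    have hab : a ≠ b := by
      intro h
      have := congrArg Fin.val h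
      simp [a, b] at this
    set A : Matrix (Fin (D.m r)) (Fin (D.m r)) ℂ :=
      (-Complex.I) • (Matrix.single a b (1 : ℂ) - Matrix.single b a 1) with hA
    have hAt : Aᵀ = -A := by
      rw [hA, Matrix.transpose_smul, Matrix.transpose_sub, Matrix.transpose_single,
        Matrix.transpose_single, ← smul_neg, neg_sub]
    have hX : ∀ k, ((Pi.single r A : D.FR) k)ᵀ = -(Pi.single r A : D.FR) k := by
      intro k
      by_cases hk : k = r
      · subst hk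
        rw [Pi.single_eq_same]
        exact hAt
      · rw [Pi.single_eq_of_ne hk]
        simp
    have hcl : D.cl (D.wm (Pi.single r A) 0) = (-Complex.I) • (D.gm ⟨r, a⟩ * D.gm ⟨r, b⟩) := by
      have h4 : blockDiagonal' (Pi.single r A : D.FR) =
          Matrix.single (⟨r, a⟩ : (k : D.R) × Fin (D.m k)) ⟨r, b⟩ (-Complex.I) -
            Matrix.single ⟨r, b⟩ ⟨r, a⟩ (-Complex.I) := by
        rw [hA, smul_sub, Matrix.smul_single, Matrix.smul_single, smul_eq_mul, mul_one,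
          Pi.single_sub, Matrix.blockDiagonal'_sub, bd_single, bd_single]
      have h5 := hgg ⟨r, b⟩ ⟨r, a⟩
      rw [if_neg (by simpa using hab.symm)] at h5
      have h6 : D.gm ⟨r, b⟩ * D.gm ⟨r, a⟩ = -(D.gm ⟨r, a⟩ * D.gm ⟨r, b⟩) :=
        eq_neg_of_add_eq_zero_left h5
      rw [hb, h4]
      simp only [Matrix.sub_apply, sub_smul, Finset.sum_sub_distrib]
      rw [sum_single _ _ _ fun u v => D.gm u * D.gm v, sum_single _ _ _ fun u v => D.gm u * D.gm v,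
        h6, Matrix.blockDiagonal'_zero]
      simp only [Matrix.zero_apply, zero_smul, Finset.sum_const_zero, Pi.zero_apply,
        Matrix.trace_zero, smul_zero, sub_zero, add_zero]
      module
    have hga : D.gm ⟨r, a⟩ * D.gm ⟨r, a⟩ = (2 : ℂ)⁻¹ • D.pc (D.ox r) := by
      have h4 := hgg ⟨r, a⟩ ⟨r, a⟩
      rw [if_pos rfl, ← two_smul ℂ] at h4
      rw [← h4, smul_smul, inv_mul_cancel₀ two_ne_zero, one_smul]
    have hgb : D.gm ⟨r, b⟩ * D.gm ⟨r, b⟩ = (2 : ℂ)⁻¹ • D.pc (D.ox r) := by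
      have h4 := hgg ⟨r, b⟩ ⟨r, b⟩
      rw [if_pos rfl, ← two_smul ℂ] at h4
      rw [← h4, smul_smul, inv_mul_cancel₀ two_ne_zero, one_smul]
    have hgba : D.gm ⟨r, b⟩ * D.gm ⟨r, a⟩ = -(D.gm ⟨r, a⟩ * D.gm ⟨r, b⟩) := by
      have h5 := hgg ⟨r, b⟩ ⟨r, a⟩
      rw [if_neg (by simpa using hab.symm)] at h5
      exact eq_neg_of_add_eq_zero_left h5
    have hpa : D.pc (D.ox r) * D.gm ⟨r, a⟩ = D.gm ⟨r, a⟩ := by
      rw [(hpg (D.ox r) ⟨r, a⟩).1, if_pos rfl]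
    have hpp : D.pc (D.ox r) * D.pc (D.ox r) = D.pc (D.ox r) := by rw [pc_mul, if_pos rfl]
    refine main (Pi.single r A) 0 hX ?_ ?_ ?_
    · have h4 : D.wm (Pi.single r A) 0 = cm D.P (D.Pᵀ * cx D.qB) (Pi.single r A) := by
        unfold Dat.wm cm
        rw [um_zero, add_zero]
      rw [h4, cm_mul D.split.orth, cm_mul D.split.orth]
      congr 1
      funext k
      by_cases hk : k = r
      · subst hk
        rw [Pi.single_eq_same]
        exact cube_real hab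
      · rw [Pi.single_eq_of_ne hk]
        simp
    · rw [hcl, smul_smul, Matrix.smul_mul, Matrix.mul_smul, smul_smul]
      have h4 : D.gm ⟨r, a⟩ * D.gm ⟨r, b⟩ * (D.gm ⟨r, a⟩ * D.gm ⟨r, b⟩) =
          -((4 : ℂ)⁻¹ • D.pc (D.ox r)) := by
        calc D.gm ⟨r, a⟩ * D.gm ⟨r, b⟩ * (D.gm ⟨r, a⟩ * D.gm ⟨r, b⟩) =
            D.gm ⟨r, a⟩ * (D.gm ⟨r, b⟩ * D.gm ⟨r, a⟩) * D.gm ⟨r, b⟩ := by
              simp only [Matrix.mul_assoc]
          _ = -((D.gm ⟨r, a⟩ * D.gm ⟨r, a⟩) * (D.gm ⟨r, b⟩ * D.gm ⟨r, b⟩)) := by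
              rw [hgba]
              simp only [Matrix.mul_assoc, Matrix.neg_mul, Matrix.mul_neg]
          _ = _ := by
              rw [hga, hgb, Matrix.smul_mul, Matrix.mul_smul, smul_smul, hpp]
              norm_num
      rw [h4, smul_neg, smul_smul, ← neg_smul]
      have h5 : -(2 * -Complex.I * (2 * -Complex.I) * (4 : ℂ)⁻¹) = 1 := by
        linear_combination (-1 : ℂ) * Complex.I_mul_I
      rw [h5, one_smul]
    · rw [hcl, Matrix.mul_smul, Matrix.mul_smul, ← Matrix.mul_assoc, hpa]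
  · -- a unitary block
    let a : Fin (D.m' u) := ⟨0, hu⟩
    set A : Matrix (Fin (D.m' u)) (Fin (D.m' u)) ℂ := Matrix.single a a 1 with hA
    have hAA : A * A = A := by
      rw [hA, Matrix.single_mul_single_same, mul_one]
    have hcl : D.cl (D.wm 0 (Pi.single u A)) =
        D.e ⟨u, a⟩ * D.f ⟨u, a⟩ - (2 : ℂ)⁻¹ • D.pc (D.ou u) := by
      rw [hb, hA, bd_single, sum_single _ _ _ fun u v => D.e u * D.f v, Matrix.blockDiagonal'_zero]
      have h4 : ∑ k, ((Pi.single u (Matrix.single a a 1) : D.FU) k).trace • D.pc (D.ou k) =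
          D.pc (D.ou u) := by
        rw [Finset.sum_eq_single u]
        · rw [Pi.single_eq_same, Matrix.trace_single_eq_same, one_smul]
        · intro k _ hk
          rw [Pi.single_eq_of_ne hk, Matrix.trace_zero, zero_smul]
        · intro h
          exact absurd (Finset.mem_univ _) h
      rw [h4]
      simp only [Matrix.zero_apply, zero_smul, Finset.sum_const_zero, smul_zero, zero_add, one_smul]
    have hee0 : D.e ⟨u, a⟩ * D.e ⟨u, a⟩ = 0 := by
      have h4 := hee ⟨u, a⟩ ⟨u, a⟩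
      rw [← two_smul ℂ] at h4
      exact (smul_eq_zero.1 h4).resolve_left two_ne_zero
    have hfe : D.f ⟨u, a⟩ * D.e ⟨u, a⟩ = D.pc (D.ou u) - D.e ⟨u, a⟩ * D.f ⟨u, a⟩ := by
      have h4 := hef ⟨u, a⟩ ⟨u, a⟩
      rw [if_pos rfl] at h4
      rw [← h4]
      abel
    have hpe1 : D.pc (D.ou u) * D.e ⟨u, a⟩ = D.e ⟨u, a⟩ := by
      rw [(hpe (D.ou u) ⟨u, a⟩).1, if_pos rfl]
    have hep1 : D.e ⟨u, a⟩ * D.pc (D.ou u) = D.e ⟨u, a⟩ := by
      rw [(hpe (D.ou u) ⟨u, a⟩).2, if_pos rfl]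
    have hfp1 : D.f ⟨u, a⟩ * D.pc (D.ou u) = D.f ⟨u, a⟩ := by
      rw [(hpf (D.ou u) ⟨u, a⟩).2, if_pos rfl]
    have hpp : D.pc (D.ou u) * D.pc (D.ou u) = D.pc (D.ou u) := by rw [pc_mul, if_pos rfl]
    have hefef : D.e ⟨u, a⟩ * D.f ⟨u, a⟩ * (D.e ⟨u, a⟩ * D.f ⟨u, a⟩) =
        D.e ⟨u, a⟩ * D.f ⟨u, a⟩ := by
      calc D.e ⟨u, a⟩ * D.f ⟨u, a⟩ * (D.e ⟨u, a⟩ * D.f ⟨u, a⟩) =
          D.e ⟨u, a⟩ * (D.f ⟨u, a⟩ * D.e ⟨u, a⟩) * D.f ⟨u, a⟩ := by
            simp only [Matrix.mul_assoc]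
        _ = _ := by
            rw [hfe, Matrix.mul_sub, hep1, ← Matrix.mul_assoc, hee0, Matrix.zero_mul, sub_zero]
    have h1 : D.e ⟨u, a⟩ * D.f ⟨u, a⟩ * D.pc (D.ou u) = D.e ⟨u, a⟩ * D.f ⟨u, a⟩ := by
      rw [Matrix.mul_assoc, hfp1]
    have h2 : D.pc (D.ou u) * (D.e ⟨u, a⟩ * D.f ⟨u, a⟩) = D.e ⟨u, a⟩ * D.f ⟨u, a⟩ := by
      rw [← Matrix.mul_assoc, hpe1]
    refine main 0 (Pi.single u A) (fun k => by simp) ?_ ?_ ?_
    · have h4 : ∀ Y : D.FU, D.wm 0 Y = cm D.P' (D.Q'ᵀ * cx D.qB) Y -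
          cm D.Q' (D.P'ᵀ * cx D.qB) (fun k => (Y k)ᵀ) := by
        intro Y
        unfold Dat.wm cm um
        rw [Matrix.blockDiagonal'_zero, Matrix.mul_zero, Matrix.zero_mul, zero_add,
          Matrix.blockDiagonal'_transpose]
      have h5 : ∀ Y Y' : D.FU, cm D.P' (D.Q'ᵀ * cx D.qB) Y *
          cm D.Q' (D.P'ᵀ * cx D.qB) Y' = 0 := by
        intro Y Y'
        unfold cm
        calc _ = D.P' * blockDiagonal' Y * (D.Q'ᵀ * cx D.qB * D.Q') * blockDiagonal' Y' *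
              (D.P'ᵀ * cx D.qB) := by simp only [Matrix.mul_assoc]
          _ = 0 := by
              rw [D.split.isoQ]
              simp only [Matrix.mul_zero, Matrix.zero_mul]
      have h6 : ∀ Y Y' : D.FU, cm D.Q' (D.P'ᵀ * cx D.qB) Y *
          cm D.P' (D.Q'ᵀ * cx D.qB) Y' = 0 := by
        intro Y Y'
        unfold cm
        calc _ = D.Q' * blockDiagonal' Y * (D.P'ᵀ * cx D.qB * D.P') * blockDiagonal' Y' *
              (D.Q'ᵀ * cx D.qB) := by simp only [Matrix.mul_assoc]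
          _ = 0 := by
              rw [D.split.isoP]
              simp only [Matrix.mul_zero, Matrix.zero_mul]
      have h7 := fun Y Y' : D.FU => cm_mul (dualT D) Y Y'
      have h8 := fun Y Y' : D.FU => cm_mul D.split.dual Y Y'
      have hsq : (fun k => (Pi.single u A : D.FU) k * (Pi.single u A : D.FU) k) =
          (Pi.single u A : D.FU) := by
        funext k
        by_cases hk : k = u
        · subst hk
          rw [Pi.single_eq_same]
          exact hAA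
        · rw [Pi.single_eq_of_ne hk, Matrix.mul_zero]
      have hsq' : (fun k => ((Pi.single u A : D.FU) k)ᵀ * ((Pi.single u A : D.FU) k)ᵀ) =
          fun k => ((Pi.single u A : D.FU) k)ᵀ := by
        funext k
        rw [← Matrix.transpose_mul]
        exact congrArg Matrix.transpose (congrFun hsq k)
      rw [h4]
      simp only [Matrix.sub_mul, Matrix.mul_sub, h5, h6, h7, h8, hsq, hsq', sub_zero, zero_sub,
        sub_neg_eq_add, Matrix.add_mul, zero_add, add_zero]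
    · rw [hcl]
      simp only [smul_sub, smul_smul, Matrix.sub_mul, Matrix.mul_sub, Matrix.smul_mul,
        Matrix.mul_smul, hefef, h1, h2, hpp]
      module
    · rw [hcl, Matrix.mul_smul, Matrix.mul_sub, Matrix.mul_smul, h2, hpp]

end Pool.Agent.Lib.MPf11a48.KF
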