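import Pool.Agent.Lib.MP_f11a48_ag.KF.SpecA
import Pool.Agent.Lib.MP_f11a48_ag.KM.Spg

/-! # Real blocks of the same species have different power sums -/

set_option autoImplicit false
set_option linter.unusedSectionVars false

namespace Pool.Agent.Lib.MPf11a48.KF

open Matrix MvPolynomial Pool.Agent.Lib.MPf11a48.Tors
open Pool.Agent.Lib.MPf11a48.CM hiding OmegaM
open Pool.Agent.Lib.MPf11a48.GL2 (lie Geo)
open Pool.Agent.Lib.MPf11a48.GL2T (IsAlg)
open Pool.Agent.Lib.MPf11a48.U (AbData Ix HD EndAlg)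
open Pool.Agent.Lib.MPf11a48.K3 Pool.Agent.Lib.MPf11a48.KU Pool.Agent.Lib.MPf11a48.KM
open KLieM (bl clC gam)

open KM.SpgM in
theorem specFSpg (hMat : SpecMMat) (hBlk : SpecFBlk) (hNls : SpecFNls) (hGour : SpecGour) :
    SpecFSpg := by
  intro D F₀ kk r mm hK k l hkl hox
  by_contra hcon
  push Not at hcon
  let kl : Bool → D.R := fun b => cond b k l
  have hso : ∀ Z ∈ kk, r Z ∈ D.so := fun Z hZ => hK.so Z hZ
  obtain ⟨S, hS⟩ : ∃ S : Set ((b : Bool) → Matrix (Fin (D.m (kl b))) (Fin (D.m (kl b))) ℂ),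
    S = {F | ∃ Z ∈ kk, F = fun b => D.xr (r Z) (kl b)} := ⟨_, rfl⟩
  have hskew : ∀ X ∈ Submodule.span ℂ S, ∀ b, (X b)ᵀ = -X b := by
    intro X hX b
    induction hX using Submodule.span_induction with
    | mem x hx =>
      rw [hS] at hx
      obtain ⟨Z, hZ, rfl⟩ := hx
      exact ((hMat D).1 _ (hso Z hZ)).1 (kl b)
    | zero => simp
    | add x y _ _ hx hy =>
      change (x b + y b)ᵀ = -(x b + y b)
      rw [Matrix.transpose_add, hx, hy]
      abel
    | smul a x _ hx =>
      change (a • x b)ᵀ = -(a • x b)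
      rw [Matrix.transpose_smul, hx, smul_neg]
  have hbr : ∀ X ∈ Submodule.span ℂ S, ∀ Y ∈ Submodule.span ℂ S,
      (fun b => X b * Y b - Y b * X b) ∈ Submodule.span ℂ S := by
    intro X hX Y hY
    induction hX, hY using Submodule.span_induction₂ with
    | mem_mem x y hx hy =>
      rw [hS] at hx hy
      obtain ⟨Z, hZ, rfl⟩ := hx
      obtain ⟨Z', hZ', rfl⟩ := hy
      refine Submodule.subset_span ?_
      rw [hS]
      refine ⟨Z * Z' - Z' * Z, hK.br Z hZ Z' hZ', ?_⟩
      funext b
      rw [hK.rbr Z hZ Z' hZ', xr_br hMat D (hso Z hZ) (hso Z' hZ')]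
    | zero_left y hy =>
      have e : (fun b => (0 : (b : Bool) → Matrix (Fin (D.m (kl b))) (Fin (D.m (kl b))) ℂ) b * y b -
          y b * (0 : (b : Bool) → Matrix (Fin (D.m (kl b))) (Fin (D.m (kl b))) ℂ) b) = 0 := by
        funext b
        simp
      rw [e]
      exact Submodule.zero_mem _
    | zero_right x hx =>
      have e : (fun b => x b * (0 : (b : Bool) → Matrix (Fin (D.m (kl b))) (Fin (D.m (kl b))) ℂ) b -
          (0 : (b : Bool) → Matrix (Fin (D.m (kl b))) (Fin (D.m (kl b))) ℂ) b * x b) = 0 := by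
        funext b
        simp
      rw [e]
      exact Submodule.zero_mem _
    | add_left x y z _ _ _ h1 h2 =>
      have e : (fun b => (x + y) b * z b - z b * (x + y) b) =
          (fun b => x b * z b - z b * x b) + fun b => y b * z b - z b * y b := by
        funext b
        simp only [Pi.add_apply, Matrix.add_mul, Matrix.mul_add]
        abel
      rw [e]
      exact Submodule.add_mem _ h1 h2
    | add_right x y z _ _ _ h1 h2 =>
      have e : (fun b => x b * (y + z) b - (y + z) b * x b) =
          (fun b => x b * y b - y b * x b) + fun b => x b * z b - z b * x b := by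
        funext b
        simp only [Pi.add_apply, Matrix.add_mul, Matrix.mul_add]
        abel
      rw [e]
      exact Submodule.add_mem _ h1 h2
    | smul_left a x y _ _ h =>
      have e : (fun b => (a • x) b * y b - y b * (a • x) b) =
          a • fun b => x b * y b - y b * x b := by
        funext b
        simp only [Pi.smul_apply, Matrix.smul_mul, Matrix.mul_smul, smul_sub]
      rw [e]
      exact Submodule.smul_mem _ a h
    | smul_right a x y _ _ h =>
      have e : (fun b => x b * (a • y) b - (a • y) b * x b) =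
          a • fun b => x b * y b - y b * x b := by
        funext b
        simp only [Pi.smul_apply, Matrix.smul_mul, Matrix.mul_smul, smul_sub]
      rw [e]
      exact Submodule.smul_mem _ a h
  have hsur : ∀ b, ∀ A : Matrix (Fin (D.m (kl b))) (Fin (D.m (kl b))) ℂ, Aᵀ = -A →
      ∃ X ∈ Submodule.span ℂ S, X b = A := by
    intro b A hA
    obtain ⟨Z, hZ, hZA⟩ := (hBlk D F₀ kk r mm hK).1 (kl b) A hA
    refine ⟨fun b => D.xr (r Z) (kl b), Submodule.subset_span ?_, hZA.symm⟩
    rw [hS]
    exact ⟨Z, hZ, rfl⟩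
  have hnl : ∀ a b : Bool, a ≠ b → NL {p | ∃ X ∈ Submodule.span ℂ S, p = (X a, X b)} := by
    intro a b hab φ h1 h2 h3
    have h4 : ∀ p ∈ {p | ∃ Z ∈ kk, p = (D.xr (r Z) (kl a), D.xr (r Z) (kl b))},
        ∀ Y, φ (p.1 * Y - Y * p.1) = p.2 * φ Y - φ Y * p.2 := by
      rintro _ ⟨Z, hZ, rfl⟩ Y
      refine h3 (D.xr (r Z) (kl a), D.xr (r Z) (kl b))
        ⟨fun b => D.xr (r Z) (kl b), Submodule.subset_span ?_, rfl⟩ Y
      rw [hS]
      exact ⟨Z, hZ, rfl⟩
    have h5 : kl a ≠ kl b ∧ D.ox (kl a) = D.ox (kl b) := by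
      cases a <;> cases b
      · exact absurd rfl hab
      · exact ⟨hkl.symm, hox.symm⟩
      · exact ⟨hkl, hox⟩
      · exact absurd rfl hab
    exact (hNls D F₀ kk r mm hK).1 (kl a) (kl b) h5.1 h5.2 φ h1 h2 h4
  have hall := hGour ℂ Bool (fun b => D.m (kl b)) (fun b => D.good.three _) (Submodule.span ℂ S)
    hskew hbr hsur hnl
  -- the invariant form
  have hform : ∀ X ∈ Submodule.span ℂ S, ∀ Y ∈ Submodule.span ℂ S,
      (X true * Y true).trace = (X false * Y false).trace := by
    intro X hX Y hY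
    induction hX, hY using Submodule.span_induction₂ with
    | mem_mem x y hx hy =>
      rw [hS] at hx hy
      obtain ⟨Z, hZ, rfl⟩ := hx
      obtain ⟨Z', hZ', rfl⟩ := hy
      have h1 := hcon Z hZ
      have h2 := hcon Z' hZ'
      have h3 := hcon (Z + Z') (kk.add_mem hZ hZ')
      rw [hK.radd Z hZ Z' hZ', xr_add, xr_add] at h3
      have e : ∀ (m : ℕ) (A B : Matrix (Fin m) (Fin m) ℂ), ((A + B) ^ 2).trace =
          (A ^ 2).trace + 2 * (A * B).trace + (B ^ 2).trace := by
        intro m A B
        rw [pow_two, Matrix.add_mul, Matrix.mul_add, Matrix.mul_add, Matrix.trace_add,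
          Matrix.trace_add, Matrix.trace_add, Matrix.trace_mul_comm B A, pow_two, pow_two]
        ring
      rw [e, e, h1, h2] at h3
      have h4 : 2 * (D.xr (r Z) k * D.xr (r Z') k).trace =
          2 * (D.xr (r Z) l * D.xr (r Z') l).trace := by
        linear_combination h3
      exact mul_left_cancel₀ two_ne_zero h4
    | zero_left y hy => simp
    | zero_right x hx => simp
    | add_left x y z _ _ _ h1 h2 =>
      simp only [Pi.add_apply, Matrix.add_mul, Matrix.trace_add, h1, h2]
    | add_right x y z _ _ _ h1 h2 =>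
      simp only [Pi.add_apply, Matrix.mul_add, Matrix.trace_add, h1, h2]
    | smul_left a x y _ _ h =>
      simp only [Pi.smul_apply, Matrix.smul_mul, Matrix.trace_smul, h]
    | smul_right a x y _ _ h =>
      simp only [Pi.smul_apply, Matrix.mul_smul, Matrix.trace_smul, h]
  have h3m : 3 ≤ D.m (kl true) := D.good.three _
  obtain ⟨i0, i1, hi⟩ : ∃ i0 i1 : Fin (D.m (kl true)), i0 ≠ i1 :=
    ⟨⟨0, by omega⟩, ⟨1, by omega⟩, by simp [Fin.ext_iff]⟩
  obtain ⟨F, hF⟩ : ∃ F : Matrix (Fin (D.m (kl true))) (Fin (D.m (kl true))) ℂ,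
    F = Matrix.single i0 i1 1 - Matrix.single i1 i0 1 := ⟨_, rfl⟩
  have hFs : Fᵀ = -F := by
    rw [hF, Matrix.transpose_sub, Matrix.transpose_single, Matrix.transpose_single]
    abel
  have hF2 : (F * F).trace = -2 := by
    rw [hF, Matrix.sub_mul, Matrix.mul_sub, Matrix.mul_sub,
      Matrix.single_mul_single_of_ne _ _ _ _ hi.symm, Matrix.single_mul_single_same,
      Matrix.single_mul_single_same, Matrix.single_mul_single_of_ne _ _ _ _ hi]
    simp only [Matrix.trace_sub, Matrix.trace_zero, Matrix.trace_single_eq_same]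
    norm_num
  have hG := hall (fun b => if h : b = true then (h ▸ F) else 0) (by
    intro b
    cases b
    · simp
    · exact hFs)
  have h6 := hform _ hG _ hG
  simp only [dif_pos, Bool.false_eq_true, dite_false, Matrix.mul_zero, Matrix.trace_zero] at h6
  rw [hF2] at h6
  norm_num at h6

end Pool.Agent.Lib.MPf11a48.KF
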