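import Pool.Agent.Lib.MP_f11a48_ag.KF.SpecB
import Pool.Agent.Lib.MP_f11a48_ag.KU.Ten

/-! # Objects built from `h^1(A)`, `T`, an object with algebraic periods, and the Tate object,
and torsors whose group is defined over `F` -/

set_option autoImplicit false
set_option linter.unusedSectionVars false

namespace Pool.Agent.Lib.MPf11a48.KF

open Matrix MvPolynomial Pool.Agent.Lib.MPf11a48.Tors
open Pool.Agent.Lib.MPf11a48.CM hiding OmegaM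
open Pool.Agent.Lib.MPf11a48.GL2T (IsAlg)
open Pool.Agent.Lib.MPf11a48.U (AbData Ix)
open Pool.Agent.Lib.MPf11a48.K3 Pool.Agent.Lib.MPf11a48.KU

namespace TenM

open KTenM KTen3M KU.TenM

variable {g n : ℕ} {ι : Type} [Fintype ι] [DecidableEq ι] {Φ : Grp3 g n → GL ι ℂ}

/-- a rational polynomial as a polynomial over `F` -/
theorem exists_F (F : IntermediateField ℚ ℂ) {σ : Type} (p : MvPolynomial σ ℚ) :
    ∃ q : MvPolynomial σ F, ∀ z : σ → ℂ, aeval z q = aeval z p :=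
  ⟨MvPolynomial.map (algebraMap ℚ F) p, fun _ => aeval_map_algebraMap _ _ _⟩

theorem grp_pull3F (F : IntermediateField ℚ ℂ) (hΦ : IsTens3 Φ) {T₀ : Set (GL ι ℂ)}
    (hT₀ : IsTorsor Qbar T₀) (hcl : ClosedOver F (grp T₀)) {t : Grp3 g n} (ht : Φ t ∈ T₀) :
    ClosedOver F (grp {f : GL (I3 g n) ℂ | ∃ y, bd3 y = f ∧ Φ y ∈ T₀}) := by
  have e : grp {f : GL (I3 g n) ℂ | ∃ y, bd3 y = f ∧ Φ y ∈ T₀} =
      {f | ∃ y, bd3 y = f ∧ Φ y * (Φ 1)⁻¹ ∈ grp T₀} := by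
    ext f
    rw [mem_grp_iff (isTorsor_pull3 hΦ hT₀ ht) (c := bd3 t) ⟨t, rfl, ht⟩]
    constructor
    · rintro ⟨x, hx, hx'⟩
      refine ⟨x * t⁻¹, by rw [map_mul, map_inv, hx, mul_inv_cancel_right], ?_⟩
      rw [mem_grp_iff hT₀ ht, ← mul_eq3 hΦ, inv_mul_cancel_right]
      exact hx'
    · rintro ⟨x, rfl, hx⟩
      refine ⟨x * t, map_mul _ _ _, ?_⟩
      rw [mul_eq3 hΦ, ← mem_grp_iff hT₀ ht]
      exact hx
  rw [e]
  refine closedOver_pull3 (Ψ := fun x => Φ x * (Φ 1)⁻¹) (fun i j => ?_) hcl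
  obtain ⟨p, hp⟩ := hΦ.rational i j
  obtain ⟨q, hq⟩ := exists_F F p
  exact ⟨q, fun x => (hp x).trans (hq _).symm⟩

/-- a sub-object over `Qbar`, and torsors whose group is defined over `F` -/
theorem tenF {μ : Type} [Fintype μ] [DecidableEq μ] (W : Set (GL μ ℂ × ℂˣ)) (c : GL μ ℂ)
    (F : IntermediateField ℚ ℂ)
    (hW : ∀ T : Set (GL (μ ⊕ Unit) ℂ), IsTorsor Qbar T → C.TenM.bd (c, C.tpi) ∈ T →
      ClosedOver F (grp T) → ∀ y ∈ W, C.TenM.bd (y * (c, C.tpi)) ∈ T)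
    (κ ι : Type) [Fintype κ] [DecidableEq κ]
    [Fintype ι] [DecidableEq ι] (T : GL μ ℂ × ℂˣ → GL κ ℂ) (hT : C.IsRep T) (n : GL ι ℂ)
    (iB : Matrix κ ι ℚ) (hN : C.IsSubObj (T (c, C.tpi)) n iB) (T₀ : Set (GL ι ℂ))
    (hT₀ : IsTorsor Qbar T₀) (hn : n ∈ T₀) (hcl : ClosedOver F (grp T₀)) :
    ∀ f ∈ C.imG T iB W, f * n ∈ T₀ := by
  obtain ⟨⟨pB, hpB⟩, idR, hdR⟩ := hN
  have hpBC : pB.map (algebraMap ℚ ℂ) * iB.map (algebraMap ℚ ℂ) = 1 := by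
    rw [← Matrix.map_mul, hpB, Matrix.map_one _ (map_zero _) (map_one _)]
  have hnn : n⁻¹.1 * n.1 = 1 := n.inv_mul
  have hG : (n⁻¹.1 * pB.map (algebraMap ℚ ℂ) * (T (c, C.tpi)).1) *
      idR.map (algebraMap Qbar ℂ) = 1 := by
    rw [Matrix.mul_assoc, hdR]
    calc n⁻¹.1 * pB.map (algebraMap ℚ ℂ) * (iB.map (algebraMap ℚ ℂ) * n.1)
        = n⁻¹.1 * (pB.map (algebraMap ℚ ℂ) * iB.map (algebraMap ℚ ℂ)) * n.1 := by
          simp only [Matrix.mul_assoc]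
      _ = 1 := by rw [hpBC, Matrix.mul_one, hnn]
  -- uniqueness of the automorphism
  have huniq : ∀ {f f' : GL ι ℂ}, iB.map (algebraMap ℚ ℂ) * f.1 = iB.map (algebraMap ℚ ℂ) * f'.1 →
      f = f' := by
    intro f f' h
    apply Units.ext
    have h1 := congrArg (fun X => pB.map (algebraMap ℚ ℂ) * X) h
    simp only [← Matrix.mul_assoc, hpBC, Matrix.one_mul] at h1
    exact h1
  have hT1 : T 1 = 1 := by
    have h := hT.mul 1 1
    rw [mul_one] at h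
    exact (mul_eq_left.1 h.symm)
  have hTinv : ∀ x, T x⁻¹ = (T x)⁻¹ := by
    intro x
    rw [eq_inv_iff_mul_eq_one, ← hT.mul, inv_mul_cancel, hT1]
  -- the preimage
  obtain ⟨T₁, hT₁⟩ : ∃ T₁ : Set (GL (μ ⊕ Unit) ℂ), T₁ = {g | ∃ x, C.TenM.bd x = g ∧ ∃ f ∈ T₀,
    (T x).1 * idR.map (algebraMap Qbar ℂ) = iB.map (algebraMap ℚ ℂ) * f.1} := ⟨_, rfl⟩
  have hcT₁ : C.TenM.bd (c, C.tpi) ∈ T₁ := by
    rw [hT₁]
    exact ⟨_, rfl, n, hn, hdR⟩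
  have htor : IsTorsor Qbar T₁ := by
    refine ⟨by rw [hT₁]; exact C.TenM.closedOver_sub hT.regular hpB hG hT₀.closed, ⟨_, hcT₁⟩, ?_⟩
    rw [hT₁]
    rintro _ ⟨x, rfl, fx, hx, hx'⟩ _ ⟨y, rfl, fy, hy, hy'⟩ _ ⟨z, rfl, fz, hz, hz'⟩
    refine ⟨x * y⁻¹ * z, by rw [map_mul, map_mul, map_inv], fx * fy⁻¹ * fz,
      hT₀.heap _ hx _ hy _ hz, ?_⟩
    rw [hT.mul, hT.mul, hTinv]
    exact C.TenM.sub_mul (C.TenM.sub_inv hx' hy') hz'
  have hiB : (iB.map (algebraMap ℚ F)).map (algebraMap F ℂ) = iB.map (algebraMap ℚ ℂ) := by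
    ext i j
    exact (IsScalarTower.algebraMap_apply ℚ F ℂ _).symm
  have hgrp : ClosedOver F (grp T₁) := by
    have e : grp T₁ = {g | ∃ x, C.TenM.bd x = g ∧ ∃ f ∈ grp T₀, (T x).1 *
        (iB.map (algebraMap ℚ F)).map (algebraMap F ℂ) = iB.map (algebraMap ℚ ℂ) * f.1} := by
      ext g
      rw [mem_grp_iff htor hcT₁, hiB]
      constructor
      · intro h
        rw [hT₁] at h
        obtain ⟨x, hx, f, hf, hx'⟩ := h
        refine ⟨x * (c, C.tpi)⁻¹, by rw [map_mul, map_inv, hx, mul_inv_cancel_right], f * n⁻¹,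
          ⟨f, hf, n, hn, rfl⟩, ?_⟩
        rw [hT.mul, hTinv]
        exact C.TenM.sub_inv hx' hdR
      · rintro ⟨x, rfl, f, hf, hx⟩
        rw [hT₁]
        refine ⟨x * (c, C.tpi), map_mul _ _ _, f * n, (mem_grp_iff hT₀ hn).1 hf, ?_⟩
        rw [hT.mul]
        exact C.TenM.sub_mul hx hdR
    rw [e]
    refine C.TenM.closedOver_sub hT.regular hpB (G := pB.map (algebraMap ℚ ℂ)) ?_ hcl
    rw [hiB]
    exact hpBC
  rintro f ⟨y, hy, hf⟩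
  have h2 := hW T₁ htor hcT₁ hgrp y hy
  rw [hT₁] at h2
  obtain ⟨x, hx, f', hf', hx'⟩ := h2
  have hxy : x = y * (c, C.tpi) := C.TenM.bd_injective hx
  have h1 := C.TenM.sub_inv (f := f') (f' := n) hx' hdR
  rw [hxy, hT.mul, mul_inv_cancel_right] at h1
  have h3 : f = f' * n⁻¹ := huniq (hf.symm.trans h1)
  rw [h3, inv_mul_cancel_right]
  exact hf'

end TenM

open TenM KU.TenM KTenM KTen3M in
theorem specFTen : SpecFTen := by
  intro g n k c t 𝓖 F hF hG r hr K hK ν ι _ _ _ _ Θ hΘ M iB hM T' hT' hMT hcl f hf h hh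
  have hW : ∀ T : Set (GL (Mu g n k ⊕ Unit) ℂ), IsTorsor Qbar T →
      C.TenM.bd (CMS.dsum (CMS.dsum c t) r, C.tpi) ∈ T → ClosedOver F (grp T) →
      ∀ y ∈ {z : GL (Mu g n k) ℂ × ℂˣ | ∃ y ∈ 𝓖, z = pr 1 y},
        C.TenM.bd (y * (CMS.dsum (CMS.dsum c t) r, C.tpi)) ∈ T := by
    rintro T hT hcT hcl _ ⟨y, hy, rfl⟩
    have hct : Phi r ((c, t, tpi) : Grp3 g n) ∈ T := hcT
    obtain ⟨x, hx, hx'⟩ := hG _ (isTorsor_pull3 (isTens3_Phi hr) hT hct) ⟨_, rfl, hct⟩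
      (grp_pull3F F (isTens3_Phi hr) hT hcl hct) y hy
    have e : pr 1 y * (CMS.dsum (CMS.dsum c t) r, C.tpi) =
        pr r (y * ((c, t, tpi) : Grp3 g n)) := by
      change pr 1 y * pr r ((c, t, tpi) : Grp3 g n) = _
      rw [pr_mul, one_mul]
    rw [e, ← bd3_injective hx]
    exact hx'
  have hN : C.IsSubObj (Θ (CMS.dsum (CMS.dsum c t) r, C.tpi)) M iB := by
    obtain ⟨hinj, idR, hdR⟩ := hM
    refine ⟨hinj, idR, ?_⟩
    rw [← castMap]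
    exact hdR
  have hQ : IsTorsor Qbar T' := ⟨GL2.closedOver_mono hK hT'.closed, hT'.nonempty, hT'.heap⟩
  have h2 := tenF _ _ F hW ν ι Θ hΘ M iB hN T' hQ hMT hcl
  have hf' : f ∈ C.imG Θ iB {z : GL (Mu g n k) ℂ × ℂˣ | ∃ y ∈ 𝓖, z = pr 1 y} := by
    obtain ⟨y, hy, hy'⟩ := hf
    unfold C.imG
    rw [castMap] at hy'
    exact ⟨_, ⟨y, hy, rfl⟩, hy'⟩
  have h3 := h2 f hf'
  obtain ⟨τ, hτ, hτh⟩ := hh
  have hh' : h = tw τ (f * M) := by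
    apply Units.ext
    exact Matrix.ext hτh
  rw [hh']
  exact hT'.closed.tw_mem hτ h3

end Pool.Agent.Lib.MPf11a48.KF
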