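import Pool.Agent.Lib.MP_f11a48_ag.KF.Spg

/-! # Total power sums -/

set_option autoImplicit false
set_option linter.unusedSectionVars false

namespace Pool.Agent.Lib.MPf11a48.KF

open Matrix MvPolynomial Pool.Agent.Lib.MPf11a48.Tors
open Pool.Agent.Lib.MPf11a48.CM hiding OmegaM
open Pool.Agent.Lib.MPf11a48.GL2 (lie Geo)
open Pool.Agent.Lib.MPf11a48.GL2T (IsAlg)
open Pool.Agent.Lib.MPf11a48.U (AbData Ix HD EndAlg)
open Pool.Agent.Lib.MPf11a48.K3 Pool.Agent.Lib.MPf11a48.KU Pool.Agent.Lib.MPf11a48.KM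
open KLieM (bl clC gam)

namespace TotM

/-- automorphisms and traces of products -/
theorem map_tr {n : ℕ} (τ : ℂ ≃+* ℂ) (ρ p : Matrix (Fin n) (Fin n) ℂ) :
    τ ((ρ * p).trace) = (ρ.map τ * p.map τ).trace := by
  simp only [Matrix.trace, Matrix.diag_apply, Matrix.mul_apply, map_sum, map_mul]
  rfl

theorem map_pow' {n : ℕ} (τ : ℂ ≃+* ℂ) (A : Matrix (Fin n) (Fin n) ℂ) (p : ℕ) :
    (A ^ p).map τ = A.map τ ^ p := by
  exact map_pow (RingHom.mapMatrix τ.toRingHom) A p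

/-- equal power sums -/
def Sim (D : Dat) (kk : Submodule ℂ (Matrix (Ix D.g) (Ix D.g) ℂ))
    (r : Matrix (Ix D.g) (Ix D.g) ℂ → Matrix (Fin D.n) (Fin D.n) ℂ) (k l : D.R) : Prop :=
  ∀ Z ∈ kk, ∀ p : ℕ, ((D.xr (r Z) k) ^ p).trace = ((D.xr (r Z) l) ^ p).trace

theorem power_gal (hTrp : SpecMTrp) (hGal : SpecMGal) {D : Dat} {F : IntermediateField ℚ ℂ}
    {kk : Submodule ℂ (Matrix (Ix D.g) (Ix D.g) ℂ)}
    {r : Matrix (Ix D.g) (Ix D.g) ℂ → Matrix (Fin D.n) (Fin D.n) ℂ}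
    {mm : Matrix (Ix D.g) (Ix D.g) ℂ → ℂ} (hK : KKF D F kk r mm) (τ : ℂ ≃+* ℂ)
    (hτF : ∀ a ∈ F, τ a = a) (k k' : D.R)
    (h : ∀ e ∈ D.E, D.ch e (Sum.inl k') = τ (D.ch e (Sum.inl k)))
    (Z : Matrix (Ix D.g) (Ix D.g) ℂ) (hZ : Z ∈ kk) (p : ℕ) :
    ((D.xr (r (Z.map τ)) k') ^ p).trace = τ ((D.xr (r Z) k) ^ p).trace := by
  obtain ⟨hg1, hg2, -⟩ := hK.gal τ hτF Z hZ
  obtain ⟨ht, -⟩ := hTrp D _ (hK.so Z hZ)
  obtain ⟨ht', -⟩ := hTrp D _ (hK.so _ hg1)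
  rw [← ht' p k', ← ht p k, hg2, map_tr, map_pow', (hGal D).2.1 τ (Sum.inl k) (Sum.inl k') h]

theorem map_symm {n m : Type} (τ : ℂ ≃+* ℂ) (Z : Matrix n m ℂ) :
    (Z.map τ.symm).map τ = Z := by
  ext i j
  simp

theorem sim_gal (hTrp : SpecMTrp) (hGal : SpecMGal) {D : Dat} {F : IntermediateField ℚ ℂ}
    (hF : GF D F)
    {kk : Submodule ℂ (Matrix (Ix D.g) (Ix D.g) ℂ)}
    {r : Matrix (Ix D.g) (Ix D.g) ℂ → Matrix (Fin D.n) (Fin D.n) ℂ}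
    {mm : Matrix (Ix D.g) (Ix D.g) ℂ → ℂ} (hK : KKF D F kk r mm) {k l : D.R}
    (hs : Sim D kk r k l)
    (hne : D.ox k ≠ D.ox l) (k' : D.R) (hk' : D.ox k' = D.ox k) :
    ∃ l', D.ox l' = D.ox l ∧ Sim D kk r k' l' := by
  obtain ⟨τ, hτF, hτ⟩ := hF.trans k k' hk'.symm ⟨l, hne.symm⟩
  obtain ⟨hg1, -, hg3, -⟩ := hGal D
  obtain ⟨s', hs'⟩ := hg1 τ (Sum.inl l)
  obtain ⟨l', rfl, hl'⟩ := hg3 τ l s' hs'
  refine ⟨l', hl', fun Z hZ p => ?_⟩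
  have hτF' : ∀ a ∈ F, τ.symm a = a := by
    intro a ha
    rw [RingEquiv.symm_apply_eq, hτF a ha]
  have hZ' := (hK.gal τ.symm hτF' Z hZ).1
  have h1 := power_gal hTrp hGal hK τ hτF k k' hτ _ hZ' p
  have h2 := power_gal hTrp hGal hK τ hτF l l' hs' _ hZ' p
  rw [map_symm] at h1 h2
  rw [h1, h2, hs _ hZ' p]

end TotM

open TotM in
theorem specFTot (hTrp : SpecMTrp) (hGal : SpecMGal) (hSpg : SpecFSpg) : SpecFTot := by
  intro D F kk r mm hF hK k l hne hs Z hZ p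
  have hs' : Sim D kk r k l := hs
  have hsym : ∀ a b, Sim D kk r a b → Sim D kk r b a := fun a b h Z hZ p => (h Z hZ p).symm
  have htr : ∀ a b c, Sim D kk r a b → Sim D kk r b c → Sim D kk r a c :=
    fun a b c h h' Z hZ p => (h Z hZ p).trans (h' Z hZ p)
  have huniq : ∀ a b, D.ox a = D.ox b → Sim D kk r a b → a = b := by
    intro a b hab h
    by_contra hne
    obtain ⟨Z, hZ, hZ'⟩ := hSpg D F kk r mm hK a b hne hab
    exact hZ' (h Z hZ 2)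
  have h1 : ∀ k', ∃ l', D.ox k' = D.ox k → D.ox l' = D.ox l ∧ Sim D kk r k' l' := by
    intro k'
    by_cases hk' : D.ox k' = D.ox k
    · obtain ⟨l', hl'⟩ := sim_gal hTrp hGal hF hK hs' hne k' hk'
      exact ⟨l', fun _ => hl'⟩
    · exact ⟨l, fun h => absurd h hk'⟩
  choose φ hφ using h1
  rw [← Finset.sum_filter, ← Finset.sum_filter]
  refine Finset.sum_bij (fun k' _ => φ k') ?_ ?_ ?_ ?_
  · intro a ha
    rw [Finset.mem_filter] at ha ⊢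
    exact ⟨Finset.mem_univ _, (hφ a ha.2).1⟩
  · intro a ha b hb hab
    rw [Finset.mem_filter] at ha hb
    refine huniq a b (ha.2.trans hb.2.symm) (htr _ _ _ (hφ a ha.2).2 ?_)
    rw [hab]
    exact hsym _ _ (hφ b hb.2).2
  · intro b hb
    rw [Finset.mem_filter] at hb
    obtain ⟨a, ha, hba⟩ := sim_gal hTrp hGal hF hK (hsym _ _ hs') (fun h => hne h.symm) b hb.2
    refine ⟨a, Finset.mem_filter.2 ⟨Finset.mem_univ _, ha⟩, ?_⟩
    refine huniq _ _ ((hφ a ha).1.trans hb.2.symm) (hsym _ _ (htr _ _ _ hba (hφ a ha).2))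
  · intro a ha
    rw [Finset.mem_filter] at ha
    exact (hφ a ha.2).2 Z hZ p

end Pool.Agent.Lib.MPf11a48.KF
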