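import Pool.Agent.Lib.MP_f11a48_ag.KF.SpecA
import Pool.Agent.Lib.MP_f11a48_ag.KM.Trc

/-! # Families of Kuga-Satake pairs over a field: non-zero traces -/

set_option autoImplicit false
set_option linter.unusedSectionVars false

namespace Pool.Agent.Lib.MPf11a48.KF

open Matrix MvPolynomial Pool.Agent.Lib.MPf11a48.Tors
open Pool.Agent.Lib.MPf11a48.CM hiding OmegaM
open Pool.Agent.Lib.MPf11a48.GL2 (lie Geo)
open Pool.Agent.Lib.MPf11a48.GL2T (IsAlg)
open Pool.Agent.Lib.MPf11a48.U (AbData Ix HD EndAlg)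
open Pool.Agent.Lib.MPf11a48.K3 Pool.Agent.Lib.MPf11a48.KU Pool.Agent.Lib.MPf11a48.KM
open KLieM (bl clC gam)

open KM.TrcM KLieM KRatM in
theorem specFTrc (hMat : SpecMMat) (hCar : SpecMCar) (hFCar : SpecFCar) (hCmp : SpecMCmp)
    (hTrc : SpecUTrc) : SpecFTrc := by
  intro D F₀ kk r mm hK d hd hd0 ⟨i, hi⟩
  classical
  obtain ⟨hM1, -⟩ := hMat D
  obtain ⟨-, hee, hff, hef0, -, hpe, hpf, -, hact, -⟩ := hCar D
  obtain ⟨-, hgen'⟩ := hFCar D F₀ kk r mm hK
  -- compression
  set p := D.pc i with hp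
  have hpp : p * p = p := by
    rw [hp, Dat.pc, ← cx_mul, D.ks.mul, if_pos rfl]
  obtain ⟨hC1, hC2⟩ := hCmp (Ix D.g) p hpp
  obtain ⟨ν, _, _, _, L, R, hLR, hRL⟩ := hC1 (pc_ne D i)
  have hLp : L * p = L := by rw [← hRL, ← Matrix.mul_assoc, hLR, Matrix.one_mul]
  have hpR : p * R = R := by rw [← hRL, Matrix.mul_assoc, hLR, Matrix.mul_one]
  let cp : Matrix (Ix D.g) (Ix D.g) ℂ → Matrix ν ν ℂ := fun X => L * X * R
  have cp_mul : ∀ X Y, X * p = p * X → cp (X * Y) = cp X * cp Y := by
    intro X Y h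
    calc L * (X * Y) * R = L * p * (X * Y) * R := by rw [hLp]
      _ = L * (p * X) * (Y * R) := by simp only [Matrix.mul_assoc]
      _ = L * (X * (R * L)) * (Y * R) := by rw [← h, hRL]
      _ = L * X * R * (L * Y * R) := by simp only [Matrix.mul_assoc]
  have cp_add : ∀ X Y, cp (X + Y) = cp X + cp Y := by
    intro X Y
    change L * (X + Y) * R = _
    rw [Matrix.mul_add, Matrix.add_mul]
  have cp_sub : ∀ X Y, cp (X - Y) = cp X - cp Y := by
    intro X Y
    change L * (X - Y) * R = _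
    rw [Matrix.mul_sub, Matrix.sub_mul]
  have cp_neg : ∀ X, cp (-X) = -cp X := by
    intro X
    change L * (-X) * R = _
    rw [Matrix.mul_neg, Matrix.neg_mul]
  have cp_zero : cp 0 = 0 := by
    change L * 0 * R = 0
    rw [Matrix.mul_zero, Matrix.zero_mul]
  have cp_p : cp p = 1 := by
    change L * p * R = 1
    rw [hLp, hLR]
  have cp_sum : ∀ (T : Type) [Fintype T] (x : T → ℂ) (F : T → Matrix (Ix D.g) (Ix D.g) ℂ),
      cp (∑ u, x u • F u) = ∑ u, x u • cp (F u) := by
    intro T _ x F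
    change L * (∑ u, x u • F u) * R = _
    rw [Matrix.mul_sum, Matrix.sum_mul]
    refine Finset.sum_congr rfl fun u _ => ?_
    rw [Matrix.mul_smul, Matrix.smul_mul]
  have hce : ∀ u, D.e u * p = p * D.e u := by
    intro u
    rw [(hpe i u).1, (hpe i u).2]
  have hcf : ∀ u, D.f u * p = p * D.f u := by
    intro u
    rw [(hpf i u).1, (hpf i u).2]
  have hcZ : ∀ Z ∈ kk, Z * p = p * Z := by
    intro Z hZ
    rw [hp, hK.comp Z hZ i]
  -- the compressed operators
  let e : (k : D.U) × Fin (D.m' k) → Matrix ν ν ℂ := fun u => cp (D.e u)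
  let f : (k : D.U) × Fin (D.m' k) → Matrix ν ν ℂ := fun u => cp (D.f u)
  have hee' : ∀ u v, e u * e v + e v * e u = 0 := by
    intro u v
    change cp _ * cp _ + cp _ * cp _ = 0
    rw [← cp_mul _ _ (hce u), ← cp_mul _ _ (hce v), ← cp_add, hee, cp_zero]
  have hff' : ∀ u v, f u * f v + f v * f u = 0 := by
    intro u v
    change cp _ * cp _ + cp _ * cp _ = 0
    rw [← cp_mul _ _ (hcf u), ← cp_mul _ _ (hcf v), ← cp_add, hff, cp_zero]
  have hef : ∀ u v, u ≠ v → e u * f v + f v * e u = 0 := by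
    intro u v huv
    change cp _ * cp _ + cp _ * cp _ = 0
    rw [← cp_mul _ _ (hce u), ← cp_mul _ _ (hcf v), ← cp_add, hef0, if_neg huv, cp_zero]
  have hef1 : ∀ u : (k : D.U) × Fin (D.m' k), D.ou u.1 = i → e u * f u + f u * e u = 1 := by
    intro u hu
    change cp _ * cp _ + cp _ * cp _ = 1
    rw [← cp_mul _ _ (hce u), ← cp_mul _ _ (hcf u), ← cp_add, hef0, if_pos rfl, hu, ← hp, cp_p]
  let xr : Matrix (Ix D.g) (Ix D.g) ℂ → D.FU := fun Z => D.xu (r Z)
  have hactZ : ∀ Z ∈ kk, (∀ v, Z * D.e v - D.e v * Z =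
      ∑ u, blockDiagonal' (xr Z) u v • D.e u) ∧ ∀ v, Z * D.f v - D.f v * Z =
      -∑ u, blockDiagonal' (xr Z) v u • D.f u := by
    intro Z hZ
    have h1 := hM1 _ (hK.so Z hZ)
    have h2 := hact (Z) (D.xr (r Z)) (D.xu (r Z)) (by
      rw [← h1.2]
      exact hK.act Z hZ)
    exact h2.2
  have hacte : ∀ Z ∈ kk, ∀ v, cp (Z) * e v - e v * cp (Z) =
      ∑ u, blockDiagonal' (xr Z) u v • e u := by
    intro Z hZ v
    change cp _ * cp _ - cp _ * cp _ = _
    rw [← cp_mul _ _ (hcZ Z hZ), ← cp_mul _ _ (hce v), ← cp_sub, (hactZ Z hZ).1 v, cp_sum]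
  have hactf : ∀ Z ∈ kk, ∀ v, cp (Z) * f v - f v * cp (Z) =
      -∑ u, blockDiagonal' (xr Z) v u • f u := by
    intro Z hZ v
    change cp _ * cp _ - cp _ * cp _ = _
    rw [← cp_mul _ _ (hcZ Z hZ), ← cp_mul _ _ (hcf v), ← cp_sub, (hactZ Z hZ).2 v, cp_neg, cp_sum]
  have hgen2 : ∀ u v : (k : D.U) × Fin (D.m' k), u.1 = v.1 → e u * f v ∈ Algebra.adjoin ℂ
      ((fun X => L * X * R) '' (kk : Set (Matrix (Ix D.g) (Ix D.g) ℂ))) := by
    intro u v huv
    have h1 := hC2 ν L R hLR hRL (kk : Set (Matrix (Ix D.g) (Ix D.g) ℂ)) (fun Z hZ => hcZ Z hZ) _ (hgen' u v huv)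
    change cp _ * cp _ ∈ _
    rw [← cp_mul _ _ (hce u)]
    exact h1
  obtain ⟨k₀, hk₀⟩ := Function.ne_iff.1 hd0
  let U : Type := {u : (k : D.U) × Fin (D.m' k) // d u.1 ≠ 0}
  have hU : Nonempty U := ⟨⟨⟨k₀, ⟨0, D.good.pos k₀⟩⟩, hk₀⟩⟩
  let a : U → Matrix ν ν ℂ := fun u => if d u.1.1 = 1 then e u.1 else f u.1
  let b : U → Matrix ν ν ℂ := fun u => if d u.1.1 = 1 then f u.1 else e u.1
  let x : Matrix (Ix D.g) (Ix D.g) ℂ → Matrix U U ℂ := fun Z u v =>
    if d v.1.1 = 1 then blockDiagonal' (xr Z) u.1 v.1 else -blockDiagonal' (xr Z) v.1 u.1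
  have hefU : ∀ u : U, e u.1 * f u.1 + f u.1 * e u.1 = 1 := fun u => hef1 u.1 (hi _ u.2)
  have hcab : Car a b := by
    refine ⟨fun u v => ?_, fun u v => ?_, fun u v => ?_⟩
    · by_cases hu : d u.1.1 = 1 <;> by_cases hv : d v.1.1 = 1
      · simp only [a, if_pos hu, if_pos hv]
        exact hee' _ _
      · simp only [a, if_pos hu, if_neg hv]
        exact hef _ _ fun h => hv (by rw [← h]; exact hu)
      · simp only [a, if_neg hu, if_pos hv]
        rw [add_comm]
        exact hef _ _ fun h => hu (by rw [← h]; exact hv)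
      · simp only [a, if_neg hu, if_neg hv]
        exact hff' _ _
    · by_cases hu : d u.1.1 = 1 <;> by_cases hv : d v.1.1 = 1
      · simp only [b, if_pos hu, if_pos hv]
        exact hff' _ _
      · simp only [b, if_pos hu, if_neg hv]
        rw [add_comm]
        exact hef _ _ fun h => hv (by rw [h]; exact hu)
      · simp only [b, if_neg hu, if_pos hv]
        exact hef _ _ fun h => hu (by rw [h]; exact hv)
      · simp only [b, if_neg hu, if_neg hv]
        exact hee' _ _
    · by_cases huv : u = v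
      · subst huv
        rw [if_pos rfl]
        by_cases hu : d u.1.1 = 1
        · simp only [a, b, if_pos hu]
          exact hefU _
        · simp only [a, b, if_neg hu]
          rw [add_comm]
          exact hefU _
      · rw [if_neg huv]
        have huv' : u.1 ≠ v.1 := fun h => huv (Subtype.ext h)
        by_cases hu : d u.1.1 = 1 <;> by_cases hv : d v.1.1 = 1
        · simp only [a, b, if_pos hu, if_pos hv]
          exact hef _ _ huv'
        · simp only [a, b, if_pos hu, if_neg hv]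
          exact hee' _ _
        · simp only [a, b, if_neg hu, if_pos hv]
          exact hff' _ _
        · simp only [a, b, if_neg hu, if_neg hv]
          rw [add_comm]
          exact hef _ _ huv'.symm
  -- sums over `U`
  have hsumU : ∀ (M : Type) [AddCommGroup M] (F : (k : D.U) × Fin (D.m' k) → M),
      (∀ u, d u.1 = 0 → F u = 0) → ∑ u : U, F u.1 = ∑ u, F u := by
    intro M _ F hF
    have h1 := Finset.sum_subtype_of_mem (s := Finset.univ.filter fun u : (k : D.U) ×
      Fin (D.m' k) => d u.1 ≠ 0) (p := fun u => d u.1 ≠ 0) F (fun u hu => (Finset.mem_filter.1 hu).2)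
    rw [← Finset.sum_filter_add_sum_filter_not Finset.univ
      (fun u : (k : D.U) × Fin (D.m' k) => d u.1 ≠ 0) F]
    have h2 : ∑ u ∈ Finset.univ.filter (fun u : (k : D.U) × Fin (D.m' k) => ¬d u.1 ≠ 0), F u =
        0 := by
      refine Finset.sum_eq_zero fun u hu => hF u ?_
      exact not_not.1 (Finset.mem_filter.1 hu).2
    rw [h2, add_zero]
    rw [← h1]
    refine Finset.sum_congr ?_ fun _ _ => rfl
    ext u
    exact iff_of_true (Finset.mem_univ u)
      (Finset.mem_subtype.2 (Finset.mem_filter.2 ⟨Finset.mem_univ _, u.2⟩))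
  obtain ⟨_, ⟨Z, hZ, rfl⟩, hZt⟩ := hTrc ν U a b {p | ∃ Z ∈ kk, p = (cp (Z), x Z)} hcab (by
    rintro _ ⟨Z, hZ, rfl⟩ v
    change cp (Z) * a v - a v * cp (Z) = ∑ u, x Z u v • a u
    by_cases hv : d v.1.1 = 1
    · simp only [a, x, if_pos hv]
      rw [hacte Z hZ]
      rw [← hsumU _ (fun u => blockDiagonal' (xr Z) u v.1 • e u) (by
        intro u hu
        change blockDiagonal' (xr Z) u v.1 • e u = 0
        rw [Matrix.blockDiagonal'_apply_ne _ _ _ (fun h => by
          rw [h, hv] at hu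
          exact one_ne_zero hu), zero_smul])]
      refine Finset.sum_congr rfl fun u _ => ?_
      by_cases hu : d u.1.1 = 1
      · rw [if_pos hu]
      · have h1 : blockDiagonal' (xr Z) u.1 v.1 = 0 :=
          Matrix.blockDiagonal'_apply_ne _ _ _ fun h => hu (by rw [h]; exact hv)
        rw [h1, zero_smul, zero_smul]
    · simp only [a, x, if_neg hv]
      rw [hactf Z hZ]
      rw [← hsumU _ (fun u => blockDiagonal' (xr Z) v.1 u • f u) (by
        intro u hu
        change blockDiagonal' (xr Z) v.1 u • f u = 0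
        rw [Matrix.blockDiagonal'_apply_ne _ _ _ (fun h => by
          rw [← h] at hu
          exact v.2 hu), zero_smul]), ← Finset.sum_neg_distrib]
      refine Finset.sum_congr rfl fun u _ => ?_
      by_cases hu : d u.1.1 = 1
      · have h1 : blockDiagonal' (xr Z) v.1 u.1 = 0 :=
          Matrix.blockDiagonal'_apply_ne _ _ _ fun h => hv (by rw [h]; exact hu)
        rw [h1]
        simp
      · rw [if_neg hu, neg_smul]) (by
    intro u
    have h1 : Prod.fst '' {p : Matrix ν ν ℂ × Matrix U U ℂ |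
        ∃ Z ∈ kk, p = (cp (Z), x Z)} =
        ((fun X => L * X * R) '' (kk : Set (Matrix (Ix D.g) (Ix D.g) ℂ))) := by
      ext Y
      constructor
      · rintro ⟨_, ⟨Z, hZ, rfl⟩, rfl⟩
        exact ⟨Z, hZ, rfl⟩
      · rintro ⟨Z, hZ, rfl⟩
        exact ⟨_, ⟨Z, hZ, rfl⟩, rfl⟩
    rw [h1]
    by_cases hu : d u.1.1 = 1
    · simp only [a, b, if_pos hu]
      exact hgen2 _ _ rfl
    · simp only [a, b, if_neg hu]
      have h2 : f u.1 * e u.1 = 1 - e u.1 * f u.1 := by
        rw [← hefU u]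
        abel
      rw [h2]
      exact Subalgebra.sub_mem _ (Subalgebra.one_mem _) (hgen2 _ _ rfl))
  refine ⟨Z, hZ, ?_⟩
  have h1 : (x Z).trace = ∑ k, d k * (D.xu (r Z) k).trace := by
    have h2 : (x Z).trace = ∑ u : U, d u.1.1 * blockDiagonal' (xr Z) u.1 u.1 := by
      rw [Matrix.trace]
      refine Finset.sum_congr rfl fun u _ => ?_
      change x Z u u = _
      by_cases hu : d u.1.1 = 1
      · simp only [x, if_pos hu]
        rw [hu, one_mul]
      · simp only [x, if_neg hu]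
        have h3 : d u.1.1 = -1 := by
          rcases hd u.1.1 with h4 | h4 | h4
          · exact absurd h4 u.2
          · exact absurd h4 hu
          · exact h4
        rw [h3, neg_one_mul]
    rw [h2, hsumU _ (fun u => d u.1 * blockDiagonal' (xr Z) u u) (by
      intro u hu
      change d u.1 * blockDiagonal' (xr Z) u u = 0
      rw [hu, zero_mul]), Fintype.sum_sigma]
    refine Finset.sum_congr rfl fun k _ => ?_
    rw [Matrix.trace, Finset.mul_sum]
    refine Finset.sum_congr rfl fun i _ => ?_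
    change d k * blockDiagonal' (xr Z) ⟨k, i⟩ ⟨k, i⟩ = d k * xr Z k i i
    rw [Matrix.blockDiagonal'_apply_eq]
  rw [← h1]
  exact hZt

end Pool.Agent.Lib.MPf11a48.KF
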