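import Pool.Agent.Lib.MP_f11a48_ag.KF.SpecA
import Pool.Agent.Lib.MP_f11a48_ag.KM.Uux

/-! # Links between unitary blocks of the same size in different species, over a field -/

set_option autoImplicit false
set_option linter.unusedSectionVars false

namespace Pool.Agent.Lib.MPf11a48.KF

open Matrix MvPolynomial Pool.Agent.Lib.MPf11a48.Tors
open Pool.Agent.Lib.MPf11a48.CM hiding OmegaM
open Pool.Agent.Lib.MPf11a48.GL2 (lie Geo)
open Pool.Agent.Lib.MPf11a48.GL2T (IsAlg)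
open Pool.Agent.Lib.MPf11a48.U (AbData Ix HD EndAlg)
open Pool.Agent.Lib.MPf11a48.K3 Pool.Agent.Lib.MPf11a48.KU Pool.Agent.Lib.MPf11a48.KM
open KLieM (bl clC gam)

namespace UuxM

open Pool.Agent.Lib.MPf11a48.KM.UuxM (tp3 test os os_swap ch_os os_gal NQ)

/-- automorphisms and traces of products -/
theorem map_tr {n : ℕ} (τ : ℂ ≃+* ℂ) (ρ p : Matrix (Fin n) (Fin n) ℂ) (k : ℕ) :
    τ ((ρ ^ k * p).trace) = ((ρ.map τ) ^ k * p.map τ).trace := by
  have h1 : (ρ ^ k * p).map τ = (ρ.map τ) ^ k * p.map τ := by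
    have h2 : (ρ ^ k * p).map τ = (τ : ℂ →+* ℂ).mapMatrix (ρ ^ k * p) := rfl
    rw [h2, map_mul, map_pow]
    rfl
  rw [← h1, Matrix.trace, Matrix.trace, map_sum]
  rfl

/-- power sums on an eigenspace -/
noncomputable def PP (D : Dat) (ρ : Matrix (Fin D.n) (Fin D.n) ℂ) (p : ℕ) (s : D.U ⊕ D.U) : ℂ :=
  (ρ ^ p * D.pr (Sum.inr s)).trace

/-- the cubic invariant of an eigenspace -/
noncomputable def q3 (D : Dat) (ρ : Matrix (Fin D.n) (Fin D.n) ℂ) (s : D.U ⊕ D.U) : ℂ :=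
  PP D ρ 3 s - 3 * PP D ρ 1 s * PP D ρ 2 s / PP D ρ 0 s + 2 * PP D ρ 1 s ^ 3 / PP D ρ 0 s ^ 2

theorem q3_gal (hGal : SpecMGal) (D : Dat) (τ : ℂ ≃+* ℂ) (s s' : D.U ⊕ D.U)
    (h : ∀ e ∈ D.E, D.ch e (Sum.inr s') = τ (D.ch e (Sum.inr s)))
    (ρ : Matrix (Fin D.n) (Fin D.n) ℂ) : q3 D (ρ.map τ) s' = τ (q3 D ρ s) := by
  have h1 : ∀ p, PP D (ρ.map τ) p s' = τ (PP D ρ p s) := by
    intro p
    unfold PP
    rw [map_tr, (hGal D).2.1 τ (Sum.inr s) (Sum.inr s') h]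
  unfold q3
  simp only [h1, map_add, map_sub, map_mul, map_div₀, map_pow, map_ofNat]

theorem q3_inl (hTrp : SpecMTrp) (D : Dat) (ρ : Matrix (Fin D.n) (Fin D.n) ℂ)
    (hρ : ρ ∈ D.so) (u : D.U) : q3 D ρ (Sum.inl u) = tp 3 (D.xu (ρ) u) := by
  have h1 : ∀ p, PP D ρ p (Sum.inl u) = ((D.xu (ρ) u) ^ p).trace :=
    fun p => (hTrp D _ hρ).2.1 p u
  have h0 : PP D ρ 0 (Sum.inl u) = (D.m' u : ℂ) := by
    rw [h1, pow_zero, Matrix.trace_one, Fintype.card_fin]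
  unfold q3
  rw [h0, h1, h1, h1, tp3 (D.good.pos u)]

theorem q3_inr (hTrp : SpecMTrp) (D : Dat) (ρ : Matrix (Fin D.n) (Fin D.n) ℂ)
    (hρ : ρ ∈ D.so) (u : D.U) : q3 D ρ (Sum.inr u) = -tp 3 (D.xu (ρ) u) := by
  have h1 : ∀ p, PP D ρ p (Sum.inr u) = ((-D.xu (ρ) u) ^ p).trace :=
    fun p => (hTrp D _ hρ).2.2 p u
  have h0 : PP D ρ 0 (Sum.inr u) = (D.m' u : ℂ) := by
    rw [h1, pow_zero, Matrix.trace_one, Fintype.card_fin]
  have h2 : ∀ p, ((-D.xu (ρ) u) ^ p).trace = (-1) ^ p * ((D.xu (ρ) u) ^ p).trace := by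
    intro p
    have h3 : (-D.xu (ρ) u) ^ p = ((-1 : ℂ) ^ p) • (D.xu (ρ) u) ^ p := by
      rw [← smul_pow, neg_smul, one_smul]
    rw [h3, Matrix.trace_smul, smul_eq_mul]
  unfold q3
  rw [h0, h1, h1, h1, h2, h2, h2, tp3 (D.good.pos u)]
  ring

theorem q3_swap (hTrp : SpecMTrp) (D : Dat) (ρ : Matrix (Fin D.n) (Fin D.n) ℂ)
    (hρ : ρ ∈ D.so) (s : D.U ⊕ D.U) : q3 D ρ (Sum.swap s) = -q3 D ρ s := by
  rcases s with u | u
  · rw [Sum.swap_inl, q3_inl hTrp D ρ hρ, q3_inr hTrp D ρ hρ]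
  · rw [Sum.swap_inr, q3_inl hTrp D ρ hρ, q3_inr hTrp D ρ hρ, neg_neg]

/-- `tp 3` does not vanish on a block -/
theorem nz (hBlk : SpecFBlk) (D : Dat) (F : IntermediateField ℚ ℂ)
    (kk : Submodule ℂ (Matrix (Ix D.g) (Ix D.g) ℂ))
    (r : Matrix (Ix D.g) (Ix D.g) ℂ → Matrix (Fin D.n) (Fin D.n) ℂ)
    (mm : Matrix (Ix D.g) (Ix D.g) ℂ → ℂ) (hK : KKF D F kk r mm) (k : D.U) (hk : 3 ≤ D.m' k) :
    ¬ ∀ Z ∈ kk, tp 3 (D.xu (r Z) k) = 0 := by
  intro h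
  obtain ⟨X, hX, hX3⟩ := test hk
  obtain ⟨Z, hZ, hXZ⟩ := (hBlk D F kk r mm hK).2 k X hX
  exact hX3 (hXZ ▸ h Z hZ)

end UuxM

open Pool.Agent.Lib.MPf11a48.KM.UuxM (tp3 test os os_swap ch_os os_gal NQ)

open Pool.Agent.Lib.MPf11a48.KF.UuxM in
theorem specFUux (hMat : SpecMMat) (hTrp : SpecMTrp) (hGal : SpecMGal) (hBlk : SpecFBlk) :
    SpecFUux := by
  classical
  intro D F kk r mm hG hK k l hkl hmkl hk3 ε hε hcon
  obtain ⟨-, -, -, hg4, -⟩ := hGal D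
  have hso : ∀ Z ∈ kk, r Z ∈ D.so := hK.so
  obtain ⟨Sim, hSim⟩ : ∃ Sim : D.U ⊕ D.U → D.U ⊕ D.U → Prop,
    ∀ s t, Sim s t ↔ ∀ Z ∈ kk, q3 D (r Z) s = q3 D (r Z) t := ⟨_, fun s t => Iff.rfl⟩
  have Ssym : ∀ s t, Sim s t → Sim t s := fun s t h => by
    rw [hSim] at h ⊢
    exact fun Z hZ => (h Z hZ).symm
  have Str : ∀ s t u, Sim s t → Sim t u → Sim s u := fun s t u h h' => by
    rw [hSim] at h h' ⊢
    exact fun Z hZ => (h Z hZ).trans (h' Z hZ)
  have Srf : ∀ s, Sim s s := fun s => by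
    rw [hSim]
    exact fun Z _ => rfl
  have Ssw : ∀ s t, Sim s t → Sim (Sum.swap s) (Sum.swap t) := fun s t h => by
    rw [hSim] at h ⊢
    intro Z hZ
    have e1 := q3_swap hTrp D (r Z) (hso Z hZ) s
    have e2 := q3_swap hTrp D (r Z) (hso Z hZ) t
    exact e1.trans ((congrArg Neg.neg (h Z hZ)).trans e2.symm)
  -- the partner of `inl k`
  obtain ⟨t₀, ht₀, hkt⟩ : ∃ t₀ : D.U ⊕ D.U, os D t₀ = D.ou l ∧ Sim (Sum.inl k) t₀ := by
    rcases hε with rfl | rfl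
    · refine ⟨Sum.inl l, rfl, ?_⟩
      rw [hSim]
      intro Z hZ
      have e1 := q3_inl hTrp D (r Z) (hso Z hZ) k
      have e2 := q3_inl hTrp D (r Z) (hso Z hZ) l
      have e3 := (hcon Z hZ).2
      rw [one_mul] at e3
      exact e1.trans (e3.symm.trans e2.symm)
    · refine ⟨Sum.inr l, rfl, ?_⟩
      rw [hSim]
      intro Z hZ
      have e1 := q3_inl hTrp D (r Z) (hso Z hZ) k
      have e2 := q3_inr hTrp D (r Z) (hso Z hZ) l
      have e3 := (hcon Z hZ).2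
      rw [neg_one_mul] at e3
      exact e1.trans ((neg_eq_iff_eq_neg.2 e3).symm.trans e2.symm)
  have hns : ¬ Sim (Sum.inl k) (Sum.inr k) := by
    intro h
    rw [hSim] at h
    refine Pool.Agent.Lib.MPf11a48.KF.UuxM.nz hBlk D F kk r mm hK k hk3 fun Z hZ => ?_
    have e1 := q3_inl hTrp D (r Z) (hso Z hZ) k
    have e2 := q3_inr hTrp D (r Z) (hso Z hZ) k
    have h1 := e1.symm.trans ((h Z hZ).trans e2)
    have h2 : (2 : ℂ) * tp 3 (D.xu (r Z) k) = 0 := by linear_combination h1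
    exact (mul_eq_zero.1 h2).resolve_left two_ne_zero
  obtain ⟨Q, hQ⟩ : ∃ Q : D.U ⊕ D.U → D.U ⊕ D.U → Prop,
    ∀ s t, Q s t ↔ os D s = D.ou k ∧ os D t = D.ou l ∧ Sim s t := ⟨_, fun s t => Iff.rfl⟩
  -- the non-zero function
  obtain ⟨cc, hcc⟩ : ∃ cc : D.U ⊕ D.U → D.U ⊕ D.U → ℚ, ∀ s t, cc s t =
    if (os D s = D.ou k ∨ os D s = D.ou l) ∧ Sim s t then 1 else 0 := ⟨_, fun s t => rfl⟩
  have hcc1 : ∀ s t, cc s t ≠ 0 → (os D s = D.ou k ∨ os D s = D.ou l) ∧ Sim s t := by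
    intro s t h
    rw [hcc] at h
    by_contra h'
    exact h (if_neg h')
  have hccsw : ∀ s t, cc (Sum.swap s) (Sum.swap t) = cc s t := by
    intro s t
    rw [hcc, hcc, os_swap]
    have h1 : Sim (Sum.swap s) (Sum.swap t) ↔ Sim s t := by
      constructor
      · intro h
        have := Ssw _ _ h
        rwa [Sum.swap_swap, Sum.swap_swap] at this
      · exact Ssw s t
    rw [h1]
  have hN : NQ Q ≠ ⊥ := by
    intro hbot
    have hmem : (fun s => cc s (Sum.inl k) - cc s (Sum.inr k)) ∈ NQ Q := by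
      refine ⟨fun u => ?_, fun s h1 h2 => ?_, fun s t hst => ?_⟩
      · have h3 := hccsw (Sum.inl u) (Sum.inl k)
        have h4 := hccsw (Sum.inl u) (Sum.inr k)
        simp only [Sum.swap_inl, Sum.swap_inr] at h3 h4
        simp only
        rw [h3, h4]
        ring
      · have key : ∀ t t', Sim t t' → os D t = D.ou k → os D t' = D.ou l → cc s t = 0 := by
          intro t t' h3 h4 h5
          by_contra h6
          obtain ⟨h7 | h7, h8⟩ := hcc1 s t h6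
          · exact h1 ⟨t', (hQ _ _).2 ⟨h7, h5, Str _ _ _ h8 h3⟩⟩
          · exact h2 ⟨t, (hQ _ _).2 ⟨h4, h7, Ssym _ _ h8⟩⟩
        have h9 := Ssw _ _ hkt
        rw [Sum.swap_inl] at h9
        simp only
        rw [key (Sum.inl k) t₀ hkt rfl ht₀, key (Sum.inr k) (Sum.swap t₀) h9 rfl
          ((os_swap D t₀).trans ht₀), sub_zero]
      · obtain ⟨h3, h4, h5⟩ := (hQ s t).1 hst
        have h6 : ∀ u, cc s u = cc t u := by
          intro u
          rw [hcc, hcc]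
          have h7 : Sim s u ↔ Sim t u := ⟨fun h => Str _ _ _ (Ssym _ _ h5) h, fun h => Str _ _ _ h5 h⟩
          rw [h3, h4, h7]
          simp
        simp only
        rw [h6, h6]
    rw [hbot, Submodule.mem_bot] at hmem
    have h1 := congrFun hmem (Sum.inl k)
    simp only [Pi.zero_apply] at h1
    rw [hcc, hcc, if_pos ⟨Or.inl rfl, Srf _⟩, if_neg (fun h => hns h.2)] at h1
    norm_num at h1
  have hst : ∀ (τ : ℂ ≃+* ℂ) (σ : Equiv.Perm (D.U ⊕ D.U)),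
      (∀ a ∈ F, τ a = a) → (∀ e ∈ D.E, ∀ s, chr D.lu e (σ s) = τ (chr D.lu e s)) →
      ∀ f ∈ NQ Q, (fun s => f (σ s)) ∈ NQ Q := by
    intro τ σ hτF hτσ f hf
    have hgs : ∀ s, ∀ e ∈ D.E, D.ch e (Sum.inr (σ s)) = τ (D.ch e (Sum.inr s)) :=
      fun s e he => hτσ e he s
    have hsw : ∀ s, σ (Sum.swap s) = Sum.swap (σ s) := by
      intro s
      have h1 : ∀ e ∈ D.E, D.ch e (Sum.inr (Sum.swap (σ s))) =
          τ (D.ch e (Sum.inr (Sum.swap s))) := hg4 τ s (σ s) (hgs s)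
      by_contra hne
      obtain ⟨e, he, hee⟩ := D.split.sep (Sum.inr (σ (Sum.swap s))) (Sum.inr (Sum.swap (σ s)))
        (fun h => hne (Sum.inr_injective h))
      exact hee ((hτσ e he (Sum.swap s)).trans (h1 e he).symm)
    have hSs : ∀ s t, Sim (σ s) (σ t) ↔ Sim s t := by
      intro s t
      rw [hSim, hSim]
      constructor
      · intro h Z hZ
        obtain ⟨hZ', hr, -⟩ := hK.gal τ hτF Z hZ
        have h1 := h _ hZ'
        rw [hr, q3_gal hGal D τ s (σ s) (hgs s), q3_gal hGal D τ t (σ t) (hgs t)] at h1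
        exact τ.injective h1
      · intro h Z hZ
        have hs : ∀ a ∈ F, τ.symm a = a := fun a ha => by
          rw [RingEquiv.symm_apply_eq, hτF a ha]
        obtain ⟨hZ', hr, -⟩ := hK.gal τ.symm hs Z hZ
        have h2 : r Z = (r (Z.map τ.symm)).map τ := by
          rw [hr]
          ext a b
          simp
        rw [h2, q3_gal hGal D τ s (σ s) (hgs s), q3_gal hGal D τ t (σ t) (hgs t), h _ hZ']
    have hQs : ∀ s t, Q (σ s) (σ t) ↔ Q s t := by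
      intro s t
      rw [hQ, hQ, os_gal hMat D τ s (σ s) (hgs s), os_gal hMat D τ t (σ t) (hgs t), hSs]
    obtain ⟨f1, f2, f3⟩ := hf
    have hodd : ∀ s, f (Sum.swap s) = -f s := by
      intro s
      rcases s with u | u
      · exact f1 u
      · rw [Sum.swap_inr, f1, neg_neg]
    refine ⟨fun u => ?_, fun s h1 h2 => ?_, fun s t h => ?_⟩
    · have h1 := hsw (Sum.inl u)
      rw [Sum.swap_inl] at h1
      simp only
      rw [h1, hodd]
    · refine f2 (σ s) ?_ ?_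
      · rintro ⟨t, ht⟩
        refine h1 ⟨σ.symm t, (hQs _ _).1 ?_⟩
        rwa [σ.apply_symm_apply]
      · rintro ⟨t, ht⟩
        refine h2 ⟨σ.symm t, (hQs _ _).1 ?_⟩
        rwa [σ.apply_symm_apply]
    · exact f3 _ _ ((hQs _ _).2 h)
  obtain ⟨f, hfN, hf0, -, i, hi⟩ := hG.flat (NQ Q) hN (fun f hf => hf.1) hst
  obtain ⟨f1, f2, f3⟩ := hfN
  have hi' : ∀ s, f s ≠ 0 → os D s = i := by
    intro s hs
    rcases s with u | u
    · exact hi u hs
    · refine hi u fun h => hs ?_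
      rw [f1, h, neg_zero]
  obtain ⟨s, hs⟩ : ∃ s, f s ≠ 0 := by
    by_contra h
    push Not at h
    exact hf0 (funext h)
  have hpair : ∀ s t, Q s t → f s ≠ 0 → False := by
    intro s t h1 h2
    have h3 := hi' s h2
    rw [f3 s t h1] at h2
    have h4 := hi' t h2
    obtain ⟨h5, h6, -⟩ := (hQ s t).1 h1
    exact hkl (h5.symm.trans (h3.trans (h4.symm.trans h6)))
  by_cases h1 : ∃ t, Q s t
  · obtain ⟨t, ht⟩ := h1
    exact hpair s t ht hs
  by_cases h2 : ∃ t, Q t s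
  · obtain ⟨t, ht⟩ := h2
    refine hpair t s ht ?_
    rw [f3 t s ht]
    exact hs
  · exact hs (f2 s h1 h2)

end Pool.Agent.Lib.MPf11a48.KF
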