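import Pool.Agent.Lib.MP_f11a48_ag.KF.SpecA

/-!
# Families of Kuga-Satake pairs over a field: module FWRD (words)
-/

set_option autoImplicit false

namespace Pool.Agent.Lib.MPf11a48.KF

namespace WrdM

variable {M : Type} [Ring M] [Algebra ℂ M]

/-- invariance under permutations -/
theorem perm_inv (kk : Submodule ℂ M) (l : M →ₗ[ℂ] ℂ)
    (hbr : ∀ Z ∈ kk, ∀ Z' ∈ kk, Z * Z' - Z' * Z ∈ kk) (k : ℕ)
    (IH : ∀ L : List M, L.length + 1 = k → (∀ y ∈ L, y ∈ kk) → l L.prod = 0)
    (L L' : List M) (h : L.Perm L') :
    ∀ A : List M, A.length + L.length = k → (∀ y ∈ A, y ∈ kk) → (∀ y ∈ L, y ∈ kk) →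
      l (A.prod * L.prod) = l (A.prod * L'.prod) := by
  induction h with
  | nil => intros; rfl
  | @cons x L₁ L₂ h ih =>
    intro A hA hAk hL
    have h1 := ih (A ++ [x]) (by
        simp only [List.length_append, List.length_cons, List.length_nil] at *; omega)
      (by
        intro y hy
        rcases List.mem_append.1 hy with hy | hy
        · exact hAk y hy
        · exact hL y (by rw [List.mem_singleton.1 hy]; exact List.mem_cons_self))
      (fun y hy => hL y (List.mem_cons_of_mem _ hy))
    simpa only [List.prod_append, List.prod_cons, List.prod_nil, mul_one, mul_assoc] using h1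
  | swap x y L₁ =>
    intro A hA hAk hL
    have hx : x ∈ kk := hL x (List.mem_cons_of_mem _ List.mem_cons_self)
    have hy : y ∈ kk := hL y List.mem_cons_self
    have h1 := IH (A ++ ((y * x - x * y) :: L₁)) (by
      simp only [List.length_append, List.length_cons] at *; omega)
      (by
        intro w hw
        rcases List.mem_append.1 hw with hw | hw
        · exact hAk w hw
        · rcases List.mem_cons.1 hw with hw | hw
          · rw [hw]
            exact hbr y hy x hx
          · exact hL w (List.mem_cons_of_mem _ (List.mem_cons_of_mem _ hw)))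
    rw [← sub_eq_zero, ← map_sub, ← h1]
    congr 1
    simp only [List.prod_append, List.prod_cons, sub_mul, mul_sub, mul_assoc]
  | @trans L₁ L₂ L₃ h₁ h₂ ih₁ ih₂ =>
    intro A hA hAk hL
    rw [ih₁ A hA hAk hL]
    exact ih₂ A (by rw [← h₁.length_eq]; exact hA) hAk (fun y hy => hL y (h₁.mem_iff.2 hy))

/-- the binomial formula under `l` -/
theorem binom (kk : Submodule ℂ M) (l : M →ₗ[ℂ] ℂ)
    (hbr : ∀ Z ∈ kk, ∀ Z' ∈ kk, Z * Z' - Z' * Z ∈ kk) (k : ℕ)
    (IH : ∀ L : List M, L.length + 1 = k → (∀ y ∈ L, y ∈ kk) → l L.prod = 0)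
    (Z W : M) (hZ : Z ∈ kk) (hW : W ∈ kk) (n : ℕ) :
    ∀ A : List M, A.length + n = k → (∀ y ∈ A, y ∈ kk) →
      l (A.prod * (Z + W) ^ n) =
        ∑ p ∈ Finset.range (n + 1), (n.choose p : ℂ) * l (A.prod * (W ^ p * Z ^ (n - p))) := by
  induction n with
  | zero =>
    intro A _ _
    simp
  | succ n ih =>
    intro A hA hAk
    have hAZ : ∀ y ∈ A ++ [Z], y ∈ kk := by
      intro y hy
      rcases List.mem_append.1 hy with hy | hy
      · exact hAk y hy
      · rw [List.mem_singleton.1 hy]; exact hZ
    have hAW : ∀ y ∈ A ++ [W], y ∈ kk := by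
      intro y hy
      rcases List.mem_append.1 hy with hy | hy
      · exact hAk y hy
      · rw [List.mem_singleton.1 hy]; exact hW
    have e1 := ih (A ++ [Z]) (by
        simp only [List.length_append, List.length_cons, List.length_nil] at *; omega) hAZ
    have e2 := ih (A ++ [W]) (by
        simp only [List.length_append, List.length_cons, List.length_nil] at *; omega) hAW
    have e3 : l (A.prod * (Z + W) ^ (n + 1)) =
        l ((A ++ [Z]).prod * (Z + W) ^ n) + l ((A ++ [W]).prod * (Z + W) ^ n) := by
      rw [← map_add]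
      congr 1
      simp only [List.prod_append, List.prod_cons, List.prod_nil, mul_one, pow_succ', add_mul,
        mul_add, mul_assoc]
    set a : ℕ → ℂ := fun p => l (A.prod * (W ^ p * Z ^ (n + 1 - p))) with ha
    have f1 : ∀ p ∈ Finset.range (n + 1),
        (n.choose p : ℂ) * l ((A ++ [Z]).prod * (W ^ p * Z ^ (n - p))) =
          (n.choose p : ℂ) * a p := by
      intro p hp
      have hp' : p ≤ n := by
        have := Finset.mem_range.1 hp
        omega
      congr 1
      have hperm : (Z :: (List.replicate p W ++ List.replicate (n - p) Z)).Perm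
          (List.replicate p W ++ List.replicate (n + 1 - p) Z) := by
        have h2 : n + 1 - p = (n - p) + 1 := by omega
        rw [h2, List.replicate_succ]
        exact List.perm_middle.symm
      have h3 := perm_inv kk l hbr k IH _ _ hperm A (by
        simp only [List.length_append, List.length_cons, List.length_replicate]; omega) hAk
        (by
          intro y hy
          rcases List.mem_cons.1 hy with hy | hy
          · rw [hy]; exact hZ
          · rcases List.mem_append.1 hy with hy | hy
            · rw [(List.mem_replicate.1 hy).2]; exact hW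
            · rw [(List.mem_replicate.1 hy).2]; exact hZ)
      simp only [List.prod_cons, List.prod_append, List.prod_replicate] at h3
      rw [ha]
      simp only [List.prod_append, List.prod_cons, List.prod_nil, mul_one]
      rw [mul_assoc]
      exact h3
    have f2 : ∀ p ∈ Finset.range (n + 1),
        (n.choose p : ℂ) * l ((A ++ [W]).prod * (W ^ p * Z ^ (n - p))) =
          (n.choose p : ℂ) * a (p + 1) := by
      intro p hp
      congr 1
      rw [ha]
      simp only [List.prod_append, List.prod_cons, List.prod_nil, mul_one, pow_succ', mul_assoc,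
        Nat.add_sub_add_right]
    rw [e3, e1, e2, Finset.sum_congr rfl f1, Finset.sum_congr rfl f2]
    rw [Finset.sum_range_succ' (fun p => ((n + 1).choose p : ℂ) * a p)]
    have f3 : ∑ p ∈ Finset.range (n + 1), ((n + 1).choose (p + 1) : ℂ) * a (p + 1) =
        ∑ p ∈ Finset.range (n + 1), (n.choose p : ℂ) * a (p + 1) +
          ∑ p ∈ Finset.range (n + 1), (n.choose (p + 1) : ℂ) * a (p + 1) := by
      rw [← Finset.sum_add_distrib]
      refine Finset.sum_congr rfl fun p _ => ?_
      rw [Nat.choose_succ_succ]
      push_cast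
      ring
    rw [f3, Finset.sum_range_succ' (fun p => (n.choose p : ℂ) * a p) n,
      Finset.sum_range_succ (fun p => (n.choose (p + 1) : ℂ) * a (p + 1)) n,
      Nat.choose_succ_self]
    simp only [Nat.cast_zero, zero_mul, add_zero, Nat.choose_zero_right, Nat.cast_one, one_mul]
    ring

/-- a polynomial function which vanishes everywhere has vanishing coefficients -/
theorem coeff_zero (n : ℕ) (c : ℕ → ℂ) (h : ∀ x : ℂ, ∑ p ∈ Finset.range (n + 1), c p * x ^ p = 0)
    (p : ℕ) (hp : p ≤ n) : c p = 0 := by
  classical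
  have h1 : (∑ p ∈ Finset.range (n + 1), Polynomial.monomial p (c p) : Polynomial ℂ) = 0 := by
    apply Polynomial.funext
    intro x
    rw [Polynomial.eval_finsetSum, Polynomial.eval_zero, ← h x]
    refine Finset.sum_congr rfl fun p _ => ?_
    rw [Polynomial.eval_monomial]
  have h2 := congrArg (fun q => Polynomial.coeff q p) h1
  simp only [Polynomial.finsetSum_coeff, Polynomial.coeff_monomial, Polynomial.coeff_zero] at h2
  rw [Finset.sum_ite_eq' (Finset.range (n + 1)) p c] at h2
  rw [if_pos (Finset.mem_range.2 (by omega))] at h2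
  exact h2

/-- all words of length `k` -/
theorem words (kk : Submodule ℂ M) (l : M →ₗ[ℂ] ℂ)
    (hbr : ∀ Z ∈ kk, ∀ Z' ∈ kk, Z * Z' - Z' * Z ∈ kk)
    (hpow : ∀ Z ∈ kk, ∀ k : ℕ, l (Z ^ k) = 0) (k : ℕ) :
    ∀ L : List M, L.length = k → (∀ y ∈ L, y ∈ kk) → l L.prod = 0 := by
  induction k with
  | zero =>
    intro L hL _
    rw [List.length_eq_zero_iff.1 hL, List.prod_nil]
    have := hpow 0 kk.zero_mem 0
    rwa [pow_zero] at this
  | succ k ihk =>
    have IH : ∀ L : List M, L.length + 1 = k + 1 → (∀ y ∈ L, y ∈ kk) → l L.prod = 0 :=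
      fun L hL => ihk L (by omega)
    have key : ∀ j : ℕ, ∀ A : List M, A.length = j → j ≤ k + 1 → (∀ y ∈ A, y ∈ kk) →
        ∀ Z ∈ kk, l (A.prod * Z ^ (k + 1 - j)) = 0 := by
      intro j
      induction j with
      | zero =>
        intro A hA _ _ Z hZ
        rw [List.length_eq_zero_iff.1 hA, List.prod_nil, one_mul]
        exact hpow Z hZ _
      | succ j ihj =>
        intro A hA hj hAk Z hZ
        -- write `A = A' ++ [W]`
        obtain ⟨A', W, rfl⟩ : ∃ A' W, A = A' ++ [W] := by
          rcases List.eq_nil_or_concat A with h | ⟨A', W, h⟩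
          · rw [h] at hA; simp at hA
          · exact ⟨A', W, by rw [h, List.concat_eq_append]⟩
        have hW : W ∈ kk := hAk W (by simp)
        have hA' : ∀ y ∈ A', y ∈ kk := fun y hy => hAk y (by simp [hy])
        have hlen : A'.length = j := by simpa using hA
        obtain ⟨n, hn⟩ : ∃ n, k + 1 - j = n + 1 := ⟨k - j, by omega⟩
        have h1 : ∀ x : ℂ, ∑ p ∈ Finset.range (n + 1 + 1),
            (((n + 1).choose p : ℂ) * l (A'.prod * (W ^ p * Z ^ (n + 1 - p)))) * x ^ p = 0 := by
          intro x
          have h2 := binom kk l hbr (k + 1) IH Z (x • W) hZ (kk.smul_mem x hW) (n + 1) A'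
            (by omega) hA'
          have h3 := ihj A' hlen (by omega) hA' (Z + x • W)
            (kk.add_mem hZ (kk.smul_mem x hW))
          rw [hn, h2] at h3
          rw [← h3]
          refine Finset.sum_congr rfl fun p _ => ?_
          rw [smul_pow, smul_mul_assoc, mul_smul_comm, map_smul, smul_eq_mul]
          ring
        have h4 := coeff_zero (n + 1) _ h1 1 (by omega)
        rw [Nat.choose_one_right] at h4
        have h5 : ((n + 1 : ℕ) : ℂ) ≠ 0 := Nat.cast_ne_zero.2 (by omega)
        have h6 := (mul_eq_zero.1 h4).resolve_left h5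
        have h7 : k + 1 - (j + 1) = n + 1 - 1 := by omega
        rw [h7, List.prod_append, List.prod_cons, List.prod_nil, mul_one, mul_assoc]
        rwa [pow_one] at h6
    intro L hL hLk
    have := key (k + 1) L hL le_rfl hLk 0 kk.zero_mem
    rwa [Nat.sub_self, pow_zero, mul_one] at this

end WrdM

theorem specFWrd : SpecFWrd := by
  intro ι _ _ kk l hbr hpow x hx
  have hx' : x ∈ Subalgebra.toSubmodule (Algebra.adjoin ℂ (kk : Set (Matrix ι ι ℂ))) := hx
  rw [Algebra.adjoin_eq_span] at hx'
  refine Submodule.span_induction (p := fun x _ => l x = 0) ?_ ?_ ?_ ?_ hx'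
  · intro y hy
    obtain ⟨L, hL, rfl⟩ := Submonoid.exists_list_of_mem_closure hy
    exact WrdM.words kk l hbr hpow L.length L rfl hL
  · exact map_zero l
  · intro a b _ _ ha hb
    rw [map_add, ha, hb, add_zero]
  · intro c a _ ha
    rw [map_smul, ha, smul_zero]

end Pool.Agent.Lib.MPf11a48.KF
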