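import Pool.Agent.Lib.MP_f11a48_ag.KF.SpecA
import Pool.Agent.Lib.MP_f11a48_ag.KM.Xrr
import Pool.Agent.Lib.MP_f11a48_ag.KM.Mat
import Pool.Agent.Lib.MP_f11a48_ag.KM.Car
import Pool.Agent.Lib.MP_f11a48_ag.KM.Cmp
import Pool.Agent.Lib.MP_f11a48_ag.KM.Spt

/-!
# Families of Kuga-Satake pairs over `F`: module XRR
-/

set_option autoImplicit false

namespace Pool.Agent.Lib.MPf11a48.KF

open Matrix MvPolynomial Pool.Agent.Lib.MPf11a48.Tors
open Pool.Agent.Lib.MPf11a48.CM hiding OmegaM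
open Pool.Agent.Lib.MPf11a48.U (AbData Ix HD EndAlg)
open Pool.Agent.Lib.MPf11a48.K3 Pool.Agent.Lib.MPf11a48.KU Pool.Agent.Lib.MPf11a48.KM
open KLieM (bl clC gam)

open KM.XrrM in
theorem specFXrr (hMZ : SpecFMz) (hTot : SpecFTot) (hWrd : SpecFWrd) : SpecFXrr := by
  intro D F kk r mm hGF hK k l hkl hpow
  have hCar : SpecMCar := specMCar
  obtain ⟨hM1, -⟩ := specMMat D
  have hT := hTot D F kk r mm hGF hK k l hkl hpow
  obtain ⟨i, hi⟩ : ∃ i, i = D.ox k := ⟨_, rfl⟩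
  obtain ⟨j, hj⟩ : ∃ j, j = D.ox l := ⟨_, rfl⟩
  rw [← hi, ← hj] at hkl
  simp only [← hi, ← hj] at hT
  have hiu : ∀ u, i ≠ D.ou u := fun u => by rw [hi]; exact D.good.pure k u
  have hju : ∀ u, j ≠ D.ou u := fun u => by rw [hj]; exact D.good.pure l u
  obtain ⟨ν, _, _, _, L, R, hLR, hRL⟩ := (specMCmp (Ix D.g) (D.pc i) (by
    rw [pc_mul, if_pos rfl])).1 (pc_ne D i)
  obtain ⟨ν', _, _, _, L', R', hLR', hRL'⟩ := (specMCmp (Ix D.g) (D.pc j) (by
    rw [pc_mul, if_pos rfl])).1 (pc_ne D j)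
  obtain ⟨hg, hcl⟩ := comp_i hCar D i hiu hLR hRL
  obtain ⟨hg', hcl'⟩ := comp_i hCar D j hju hLR' hRL'
  have hc0 : (Fintype.card ν : ℂ) ≠ 0 := Nat.cast_ne_zero.2 Fintype.card_ne_zero
  have htr : (D.pc i).trace = (Fintype.card ν : ℂ) := by
    rw [← hRL, Matrix.trace_mul_comm, hLR, Matrix.trace_one]
  -- the traces of the powers
  have key : ∀ Z ∈ kk, ∀ p : ℕ, (Z ^ p * D.pc i).trace / (Fintype.card ν : ℂ) =
      (Z ^ p * D.pc j).trace / (Fintype.card ν' : ℂ) := by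
    intro Z hZ p
    have hρ : r Z ∈ D.so := hK.so Z hZ
    obtain ⟨hX, hwm⟩ := hM1 _ hρ
    have hcom : ∀ i, Z * D.pc i = D.pc i * Z := hK.comp Z hZ
    have hZZ := hMZ D F kk r mm hK Z hZ
    have e1 : L * Z * R = (2 : ℂ)⁻¹ • (∑ a, ∑ b, ri D i (D.xr (r Z)) a b •
        ((L * D.gm (emb D i a) * R) * (L * D.gm (emb D i b) * R))) +
          (mm Z / 2) • (1 : Matrix ν ν ℂ) := by
      conv_lhs => rw [hZZ, hwm]
      rw [Matrix.mul_add, Matrix.add_mul, hcl, Matrix.mul_smul, Matrix.smul_mul, Matrix.mul_one,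
        hLR]
    have e1' : L' * Z * R' = (2 : ℂ)⁻¹ • (∑ a, ∑ b, ri D j (D.xr (r Z)) a b •
        ((L' * D.gm (emb D j a) * R') * (L' * D.gm (emb D j b) * R'))) +
          (mm Z / 2) • (1 : Matrix ν' ν' ℂ) := by
      conv_lhs => rw [hZZ, hwm]
      rw [Matrix.mul_add, Matrix.add_mul, hcl', Matrix.mul_smul, Matrix.smul_mul, Matrix.mul_one,
        hLR']
    rw [← trace_comp hRL, ← trace_comp hRL', ← pow_comp hLR hRL (hcom i),
      ← pow_comp hLR' hRL' (hcom j), e1, e1', trace_binom, trace_binom, Finset.sum_div,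
      Finset.sum_div]
    refine Finset.sum_congr rfl fun a _ => ?_
    have h3 := specMSpt ν ν' (Wi D i) (Wi D j) (fun a => L * D.gm (emb D i a) * R)
      (fun a => L' * D.gm (emb D j a) * R') (ri D i (D.xr (r Z)))
      (ri D j (D.xr (r Z))) hg hg' (ri_skew D i _ hX) (ri_skew D j _ hX) (fun p => by
        rw [ri_trace, ri_trace]
        exact hT Z hZ p) a
    rw [mul_div_assoc, mul_div_assoc, h3]
  -- the linear form
  obtain ⟨lf, hlf⟩ : ∃ lf : Matrix (Ix D.g) (Ix D.g) ℂ →ₗ[ℂ] ℂ, ∀ x, lf x =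
      (x * D.pc i).trace / (Fintype.card ν : ℂ) - (x * D.pc j).trace / (Fintype.card ν' : ℂ) := by
    refine ⟨⟨⟨fun x => (x * D.pc i).trace / (Fintype.card ν : ℂ) -
      (x * D.pc j).trace / (Fintype.card ν' : ℂ), fun x y => ?_⟩, fun a x => ?_⟩, fun x => rfl⟩
    · simp only [Matrix.add_mul, Matrix.trace_add]
      ring
    · simp only [Matrix.smul_mul, Matrix.trace_smul, smul_eq_mul, RingHom.id_apply]
      ring
  have h0 : ∀ Z ∈ kk, ∀ p : ℕ, lf (Z ^ p) = 0 := by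
    intro Z hZ p
    rw [hlf, sub_eq_zero]
    exact key Z hZ p
  have h1 := hWrd (Ix D.g) kk lf hK.br h0 (D.pc i) (hK.pi i)
  rw [hlf, pc_mul, pc_mul, if_pos rfl, if_neg hkl, Matrix.trace_zero, zero_div, sub_zero, htr,
    div_self hc0] at h1
  exact one_ne_zero h1

end Pool.Agent.Lib.MPf11a48.KF
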