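import Pool.Agent.Lib.MP_f11a48_ag.KM.All
import Pool.Agent.Lib.MP_f11a48_ag.AS.All
import Pool.Agent.Lib.MP_f11a48_ag.AS.Bicq
import Pool.Agent.Lib.MP_f11a48_ag.KF.Bic
import Pool.Agent.Lib.MP_f11a48_ag.KF.Blk
import Pool.Agent.Lib.MP_f11a48_ag.KF.Car
import Pool.Agent.Lib.MP_f11a48_ag.KF.Cnj
import Pool.Agent.Lib.MP_f11a48_ag.KF.Fla
import Pool.Agent.Lib.MP_f11a48_ag.KF.Flb
import Pool.Agent.Lib.MP_f11a48_ag.KF.Flt
import Pool.Agent.Lib.MP_f11a48_ag.KF.Ful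
import Pool.Agent.Lib.MP_f11a48_ag.KF.Grp
import Pool.Agent.Lib.MP_f11a48_ag.KF.Lft
import Pool.Agent.Lib.MP_f11a48_ag.KF.Lgl
import Pool.Agent.Lib.MP_f11a48_ag.KF.Lie
import Pool.Agent.Lib.MP_f11a48_ag.KF.Mz
import Pool.Agent.Lib.MP_f11a48_ag.KF.Nls
import Pool.Agent.Lib.MP_f11a48_ag.KF.Rat
import Pool.Agent.Lib.MP_f11a48_ag.KF.Sgn
import Pool.Agent.Lib.MP_f11a48_ag.KF.Spg
import Pool.Agent.Lib.MP_f11a48_ag.KF.Ten
import Pool.Agent.Lib.MP_f11a48_ag.KF.Tg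
import Pool.Agent.Lib.MP_f11a48_ag.KF.Tot
import Pool.Agent.Lib.MP_f11a48_ag.KF.Trc
import Pool.Agent.Lib.MP_f11a48_ag.KF.Uux
import Pool.Agent.Lib.MP_f11a48_ag.KF.Wrd
import Pool.Agent.Lib.MP_f11a48_ag.KF.Xrr
import Pool.Agent.Lib.MP_f11a48_ag.KF.Fin0

/-! # Families of Kuga-Satake pairs over a field: assembly -/

set_option autoImplicit false

namespace Pool.Agent.Lib.MPf11a48.KF

open Pool.Agent.Lib.MPf11a48.K3 Pool.Agent.Lib.MPf11a48.KU Pool.Agent.Lib.MPf11a48.KM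

theorem fBic : SpecBicQ := specFBic AS.asp AS.specBICQ

theorem fRat : SpecFRat := specFRat fBic specFLgl kHDA mClb

theorem fMz : SpecFMz := specFMz mClb mScl specMCmp kHDA

theorem fBlk : SpecFBlk :=
  specFBlk specMMat specMCar specFCar specMCmp (specKNI specKBr specKInj) specKIso specKIrr rep
    (specUIrr specKBr) specUni

theorem fNls : SpecFNls :=
  specFNls specMMat specMCar specFCar specMCmp specKLnk (specULnk specUVac)

theorem fTrc : SpecFTrc := specFTrc specMMat specMCar specFCar specMCmp (specUTrc specUVac)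

theorem fTot : SpecFTot := specFTot specMTrp mGal (specFSpg specMMat fBlk fNls specGour)

theorem fXrr : SpecFXrr := specFXrr fMz fTot specFWrd

theorem fFlt : SpecFFlt := specFFlt specMTrp mGal fTrc

theorem fUux : SpecFUux := specFUux specMMat specMTrp mGal fBlk

theorem fLie : SpecFLie :=
  specFLie specMMat fBlk fNls (specMXdm specMSpl) (specMRrt specMSpl specMAdt) fXrr
    (specMUul specMSpl specMAut) fUux specGOURM

theorem fFla : SpecFFla := specFFla fRat fMz fLie mClb specMMat specPerf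

theorem fFlb : SpecFFlb :=
  specFFlb fRat fMz fFla fFlt (specFCnj specMTrp mGal) specMMat mClb

theorem fTg : SpecFTg := specFTg fFlb specUTor specMDia specMDer specMCar specMMat specCurve

theorem fFul : SpecFFul := specFFul fFla fTg mClb

theorem fLft : SpecFLft :=
  specFLft fFul mPsi mClb specMMat specMCur specMGnl specGen specCurve

theorem fGrp : SpecFGrp :=
  specFGrp fLft (specFSgn fFul specMCar specCurve kHDA) fFul mScl specCurve kHDA

open Matrix Pool.Agent.Lib.MPf11a48.Tors in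
open Pool.Agent.Lib.MPf11a48.CM hiding OmegaM in
open Pool.Agent.Lib.MPf11a48.GL2T (IsAlg) in
open Pool.Agent.Lib.MPf11a48.U (AbData Ix HD EndAlg) in
/-- Every torsor over `K` through `M` whose group is defined over `F` contains `W`. -/
theorem mainKF (F : IntermediateField ℚ ℂ) (hF : F ≤ Qbar)
    (g N n : ℕ) (I : Type) [Fintype I] [DecidableEq I]
    (A : AbData g N) (c : GL (Ix g) ℂ) (t : GL (Fin n) ℂ) (qB : Matrix (Fin n) (Fin n) ℚ)
    (B : Fin n → Matrix (Ix g) (Ix g) ℚ) (qdR : Matrix (Fin n) (Fin n) ℂ)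
    (E : Set (Matrix (Fin n) (Fin n) ℚ)) (ix : Fin n → I) (π : I → Matrix (Ix g) (Ix g) ℚ)
    (𝓖 : Set (Grp3 g n)) (hKS : KSFam A c t qdR qB B E ix π) (hE : EndFull c qB B E)
    (hG : GroupF F A c qB B E ix 𝓖) (k : ℕ) (r : GL (Fin k) ℂ) (hr : IsAlg r.1)
    (K : IntermediateField ℚ ℂ) (hK : K ≤ Qbar) (ν ι : Type) [Fintype ν] [DecidableEq ν]
    [Fintype ι] [DecidableEq ι] (Θ : GL ((Ix g ⊕ Fin n) ⊕ Fin k) ℂ × ℂˣ → GL ν ℂ)
    (hΘ : C.IsRep Θ) (M : GL ι ℂ) (iB : Matrix ν ι ℚ)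
    (hM : CMS.IsSubOver Qbar (Θ (CMS.dsum (CMS.dsum c t) r, tpi)) M iB) (T' : Set (GL ι ℂ))
    (hT' : IsTorsor K T') (hMT : M ∈ T') (hcl : ClosedOver F (grp T')) :
    ∀ f ∈ SubGroup 𝓖 Θ iB, ∀ h, GL2T.Conj K (f * M) h → h ∈ T' :=
  mainKF0 fGrp specFTen F hF g N n I A c t qB B qdR E ix π 𝓖 hKS hE hG k r hr K hK ν ι Θ hΘ M iB
    hM T' hT' hMT hcl

end Pool.Agent.Lib.MPf11a48.KF
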