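import Pool.Agent.Lib.MP_f11a48_ag.KF.Stmt
import Pool.Agent.Lib.MP_f11a48_ag.KM.Dat

/-!
# Families of Kuga-Satake pairs over a field `F`: notation for the specifications
-/

set_option autoImplicit false

namespace Pool.Agent.Lib.MPf11a48.KF

open Matrix MvPolynomial Pool.Agent.Lib.MPf11a48.Tors
open Pool.Agent.Lib.MPf11a48.CM hiding OmegaM
open Pool.Agent.Lib.MPf11a48.GL2 (lie Geo)
open Pool.Agent.Lib.MPf11a48.GL2T (IsAlg)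
open Pool.Agent.Lib.MPf11a48.U (AbData Ix HD EndAlg)
open Pool.Agent.Lib.MPf11a48.K3 Pool.Agent.Lib.MPf11a48.KU Pool.Agent.Lib.MPf11a48.KM

/-- the hypotheses over `F` -/
abbrev GF (D : Dat) (F : IntermediateField ℚ ℂ) : Prop :=
  GoodF F D.E D.ix D.m D.lr D.m' D.lu D.ox D.ou

/-- `kk` is a complex Lie algebra of endomorphisms `Z` of `H^1(A, ℂ)` which act on `T_B ⊗ ℂ` by
infinitesimal isometries `r Z` commuting with `E`, commute with the endomorphisms of `A`, and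
multiply the polarisation by `mm Z`; it is stable under the automorphisms of `ℂ` over `F`; the algebra
generated by `kk` contains the images of the infinitesimal isometries and the `π i`. -/
structure KKF (D : Dat) (F : IntermediateField ℚ ℂ)
    (kk : Submodule ℂ (Matrix (Ix D.g) (Ix D.g) ℂ))
    (r : Matrix (Ix D.g) (Ix D.g) ℂ → Matrix (Fin D.n) (Fin D.n) ℂ)
    (mm : Matrix (Ix D.g) (Ix D.g) ℂ → ℂ) : Prop where
  br : ∀ Z ∈ kk, ∀ Z' ∈ kk, Z * Z' - Z' * Z ∈ kk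
  rbr : ∀ Z ∈ kk, ∀ Z' ∈ kk, r (Z * Z' - Z' * Z) = r Z * r Z' - r Z' * r Z
  radd : ∀ Z ∈ kk, ∀ Z' ∈ kk, r (Z + Z') = r Z + r Z'
  rsmul : ∀ (a : ℂ), ∀ Z ∈ kk, r (a • Z) = a • r Z
  sim : ∀ Z ∈ kk, Zᵀ * cx D.A.psi + cx D.A.psi * Z = mm Z • cx D.A.psi
  so : ∀ Z ∈ kk, r Z ∈ D.so
  act : ∀ Z ∈ kk, ∀ j, Z * cx (D.B j) - cx (D.B j) * Z = ∑ i, r Z i j • cx (D.B i)
  com : ∀ Z ∈ kk, ∀ Z₀ ∈ EndAlg D.c.1, Z * cx Z₀ = cx Z₀ * Z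
  comp : ∀ Z ∈ kk, ∀ i, Z * D.pc i = D.pc i * Z
  gal : ∀ τ : ℂ ≃+* ℂ, (∀ a ∈ F, τ a = a) → ∀ Z ∈ kk, Z.map τ ∈ kk ∧
    r (Z.map τ) = (r Z).map τ ∧ mm (Z.map τ) = τ (mm Z)
  cli : ∀ ρ ∈ D.so, D.cl ρ ∈ Algebra.adjoin ℂ (kk : Set (Matrix (Ix D.g) (Ix D.g) ℂ))
  pi : ∀ i, D.pc i ∈ Algebra.adjoin ℂ (kk : Set (Matrix (Ix D.g) (Ix D.g) ℂ))

/-- `T` is a torsor over `Qbar` through `(c, t, 2 π i)` whose group is defined over `F` -/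
structure TTF (D : Dat) (F : IntermediateField ℚ ℂ) (T : Set (GL (Ix D.g ⊕ (Fin D.n ⊕ Unit)) ℂ)) :
    Prop where
  le : F ≤ Qbar
  tor : IsTorsor Qbar T
  mem : bd3 (D.c, D.t, tpi) ∈ T
  cl : ClosedOver F (grp T)

end Pool.Agent.Lib.MPf11a48.KF
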