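import Pool.Agent.Lib.MP_f11a48_ag.KF.SpecB
import Pool.Agent.Lib.MP_f11a48_ag.KM.Ful

/-! # Families of Kuga-Satake pairs over a field: everything is in the Lie algebra of a torsor -/

set_option autoImplicit false
set_option linter.unusedSectionVars false

namespace Pool.Agent.Lib.MPf11a48.KF

open Matrix MvPolynomial Pool.Agent.Lib.MPf11a48.Tors
open Pool.Agent.Lib.MPf11a48.CM hiding OmegaM
open Pool.Agent.Lib.MPf11a48.GL2 (lie Geo)
open Pool.Agent.Lib.MPf11a48.GL2T (IsAlg)
open Pool.Agent.Lib.MPf11a48.U (AbData Ix HD EndAlg)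
open Pool.Agent.Lib.MPf11a48.K3 Pool.Agent.Lib.MPf11a48.KU Pool.Agent.Lib.MPf11a48.KM
open KLieM (bl clC gam)
open KGrpM (stab)
open KGrp3M (G0 sc ex)

open FlbM FulM KFull3M in
theorem specFFul (hFla : SpecFFla) (hTg : SpecFTg) (hClb : SpecMClb) : SpecFFul := by
  intro D F T hG hT
  obtain ⟨-, -, hcladd, hclsmul, -⟩ := hClb D
  have hm0 : ∀ k, (D.m' k : ℂ) ≠ 0 := fun k => Nat.cast_ne_zero.2 (D.good.pos k).ne'
  refine ⟨fun X Y hX => ?_, ?_⟩
  · set z : D.U → ℂ := fun k => (Y k).trace / D.m' k with hz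
    have hY' : ∀ k, (Y k - Matrix.scalar _ (z k)).trace = 0 := by
      intro k
      rw [trace_sub, Matrix.scalar_apply, trace_diagonal, Finset.sum_const, Finset.card_univ,
        Fintype.card_fin, nsmul_eq_mul, hz]
      simp only
      rw [mul_div_cancel₀ _ (hm0 k), sub_self]
    have h1 := hFla D F T hG hT X (fun k => Y k - Matrix.scalar _ (z k)) hX hY'
    have h2 := hTg D F T hG hT z 0
    rw [mul_zero, zero_smul, add_zero] at h2
    have h3 := (lie T).add_mem h1 h2
    rw [lb3_add, ← hcladd, ← FlbM.split, add_zero] at h3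
    exact h3
  · have h := hTg D F T hG hT 0 (2 : ℂ)⁻¹
    have e : D.cl 0 = 0 := by
      have h1 := hclsmul 0 0
      rwa [zero_smul, zero_smul] at h1
    rw [uz_zero, e, zero_add, mul_inv_cancel₀ (by norm_num : (2 : ℂ) ≠ 0)] at h
    exact h

end Pool.Agent.Lib.MPf11a48.KF
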