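import Pool.Agent.Lib.MP_f11a48_ag.KF.Dat
import Pool.Agent.Lib.MP_f11a48_ag.KM.SpecA

/-!
# Families of Kuga-Satake pairs over a field `F`: specifications, part A (Lie algebras)

Everything is an adaptation of a module of KM/: the rational Lie algebra `kk` (`KK`) is replaced by a
COMPLEX Lie algebra `kk` (`KKF`), stable under the automorphisms of `ℂ` over `F` (entrywise). So `cx Z`
is replaced by `Z`, `cx (r Z)` by `r Z`, complex spans disappear (`kk` is a complex space), and Galois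
arguments use `KKF.gal` instead of the rationality of `Z`.

Module `XXX`: file `KF/Xxx.lean`, `import Pool.Agent.Lib.MP_f11a48_ag.KF.SpecA` and the KM file which
is adapted (its lemmas can be used), theorem `specFXxx (h : SpecFYyy) ... : SpecFXxx` (any Specs of
KF, KM, KU, K3 may be used as hypotheses), own lemmas in the namespace
`Pool.Agent.Lib.MPf11a48.KF.XxxM`. Available without proof (proved in KM): MMAT, MTRP, MCAR (a), (b),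
(c), MCLB, MCMP, MSCL, MSPL, MXDM, MADT, MRRT, MGAL, MSPT, MAUT, MUUL, and all Specs of K3, KU.
-/

set_option autoImplicit false

namespace Pool.Agent.Lib.MPf11a48.KF

open Matrix MvPolynomial Pool.Agent.Lib.MPf11a48.Tors
open Pool.Agent.Lib.MPf11a48.CM hiding OmegaM
open Pool.Agent.Lib.MPf11a48.GL2 (lie Geo)
open Pool.Agent.Lib.MPf11a48.GL2T (IsAlg)
open Pool.Agent.Lib.MPf11a48.U (AbData Ix HD EndAlg)
open Pool.Agent.Lib.MPf11a48.K3 Pool.Agent.Lib.MPf11a48.KU Pool.Agent.Lib.MPf11a48.KM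
open KLieM (bl clC gam)

/-- FCAR [120], from MMAT, MCAR (a), (b) (KM/Car.lean, part (d)): the products of Clifford operators of
one block are in the algebra generated by `kk`. -/
def SpecFCar : Prop :=
  ∀ (D : Dat) (F : IntermediateField ℚ ℂ) (kk : Submodule ℂ (Matrix (Ix D.g) (Ix D.g) ℂ)) (r mm),
    KKF D F kk r mm →
      (∀ u v, u.1 = v.1 → D.gm u * D.gm v ∈
        Algebra.adjoin ℂ (kk : Set (Matrix (Ix D.g) (Ix D.g) ℂ))) ∧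
      ∀ u v, u.1 = v.1 → D.e u * D.f v ∈
        Algebra.adjoin ℂ (kk : Set (Matrix (Ix D.g) (Ix D.g) ℂ))

/-- FMZ [100], from MCLB, MSCL, MCMP, `SpecHDA` (KM/Mz.lean). -/
def SpecFMz : Prop :=
  ∀ (D : Dat) (F : IntermediateField ℚ ℂ) (kk : Submodule ℂ (Matrix (Ix D.g) (Ix D.g) ℂ)) (r mm),
    KKF D F kk r mm → ∀ Z ∈ kk, Z = D.cl (r Z) + (mm Z / 2) • 1

/-- FBLK [200], from MMAT, MCAR, MCMP, FCAR, `SpecKNI`, `SpecKIso`, `SpecKIrr`, `SpecRep`, `SpecUIrr`,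
`SpecUni` (KM/Blk.lean). -/
def SpecFBlk : Prop :=
  ∀ (D : Dat) (F : IntermediateField ℚ ℂ) (kk : Submodule ℂ (Matrix (Ix D.g) (Ix D.g) ℂ)) (r mm),
    KKF D F kk r mm →
    (∀ (k : D.R) (X : Matrix (Fin (D.m k)) (Fin (D.m k)) ℂ), Xᵀ = -X →
      ∃ Z ∈ kk, X = D.xr (r Z) k) ∧
    ∀ (k : D.U) (X : Matrix (Fin (D.m' k)) (Fin (D.m' k)) ℂ), X.trace = 0 →
      ∃ Z ∈ kk, X = D.xu (r Z) k

/-- FNLS [200], from MMAT, MCAR, MCMP, FCAR, `SpecKLnk`, `SpecULnk` (KM/Nls.lean). -/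
def SpecFNls : Prop :=
  ∀ (D : Dat) (F : IntermediateField ℚ ℂ) (kk : Submodule ℂ (Matrix (Ix D.g) (Ix D.g) ℂ)) (r mm),
    KKF D F kk r mm →
    (∀ k l : D.R, k ≠ l → D.ox k = D.ox l →
      NL {p | ∃ Z ∈ kk, p = (D.xr (r Z) k, D.xr (r Z) l)}) ∧
    ∀ k l : D.U, k ≠ l → D.ou k = D.ou l →
      NLU {p | ∃ Z ∈ kk, p = (D.xu (r Z) k, D.xu (r Z) l)}

/-- FTRC [150], from MMAT, MCAR, MCMP, FCAR, `SpecUTrc` (KM/Trc.lean). -/
def SpecFTrc : Prop :=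
  ∀ (D : Dat) (F : IntermediateField ℚ ℂ) (kk : Submodule ℂ (Matrix (Ix D.g) (Ix D.g) ℂ)) (r mm),
    KKF D F kk r mm → ∀ d : D.U → ℂ, (∀ k, d k = 0 ∨ d k = 1 ∨ d k = -1) →
    d ≠ 0 → (∃ i, ∀ k, d k ≠ 0 → D.ou k = i) →
    ∃ Z ∈ kk, ∑ k, d k * (D.xu (r Z) k).trace ≠ 0

/-- FSPG [100], from MMAT, FBLK, FNLS, `SpecGour` (KM/Spg.lean). -/
def SpecFSpg : Prop :=
  ∀ (D : Dat) (F : IntermediateField ℚ ℂ) (kk : Submodule ℂ (Matrix (Ix D.g) (Ix D.g) ℂ)) (r mm),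
    KKF D F kk r mm → ∀ k l : D.R, k ≠ l → D.ox k = D.ox l →
    ∃ Z ∈ kk, ((D.xr (r Z) k) ^ 2).trace ≠ ((D.xr (r Z) l) ^ 2).trace

/-- FTOT [150], from MMAT, MTRP, MGAL, FSPG (KM/Tot.lean): the partner relation
`tr (x_k(Z)^p) = tr (x_l(Z)^p)` for all `Z ∈ kk`, `p`, is stable under the automorphisms `τ` over
`F`: `tr (x_k'(τ Z)^p) = τ (tr (x_k(Z)^p))` and `Z ↦ τ Z` maps `kk` onto itself (`KKF.gal`, for `τ` and
its inverse). Transitivity: `GoodF.trans`. -/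
def SpecFTot : Prop :=
  ∀ (D : Dat) (F : IntermediateField ℚ ℂ) (kk : Submodule ℂ (Matrix (Ix D.g) (Ix D.g) ℂ)) (r mm),
    GF D F → KKF D F kk r mm → ∀ k l : D.R, D.ox k ≠ D.ox l →
    (∀ Z ∈ kk, ∀ p : ℕ, ((D.xr (r Z) k) ^ p).trace = ((D.xr (r Z) l) ^ p).trace) →
    ∀ Z ∈ kk, ∀ p : ℕ,
      ∑ k', (if D.ox k' = D.ox k then ((D.xr (r Z) k') ^ p).trace else 0) =
      ∑ l', (if D.ox l' = D.ox l then ((D.xr (r Z) l') ^ p).trace else 0)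

/-- FWRD [60] (KM/Wrd.lean over `ℂ`). -/
def SpecFWrd : Prop :=
  ∀ (ι : Type) [Fintype ι] [DecidableEq ι] (kk : Submodule ℂ (Matrix ι ι ℂ))
    (l : Matrix ι ι ℂ →ₗ[ℂ] ℂ), (∀ Z ∈ kk, ∀ Z' ∈ kk, Z * Z' - Z' * Z ∈ kk) →
    (∀ Z ∈ kk, ∀ k : ℕ, l (Z ^ k) = 0) →
    ∀ x ∈ Algebra.adjoin ℂ (kk : Set (Matrix ι ι ℂ)), l x = 0

/-- FXRR [200], from MMAT, MCAR, MCLB, MCMP, FMZ, FTOT, MSPT, FWRD (KM/Xrr.lean). -/
def SpecFXrr : Prop :=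
  ∀ (D : Dat) (F : IntermediateField ℚ ℂ) (kk : Submodule ℂ (Matrix (Ix D.g) (Ix D.g) ℂ)) (r mm),
    GF D F → KKF D F kk r mm → ∀ k l : D.R, D.ox k ≠ D.ox l →
    ¬∀ Z ∈ kk, ∀ p : ℕ, ((D.xr (r Z) k) ^ p).trace = ((D.xr (r Z) l) ^ p).trace

/-- FUUX [250], from MMAT, MTRP, MGAL, FBLK, FNLS, `SpecGOURM` (KM/Uux.lean), `GoodF.flat`. -/
def SpecFUux : Prop :=
  ∀ (D : Dat) (F : IntermediateField ℚ ℂ) (kk : Submodule ℂ (Matrix (Ix D.g) (Ix D.g) ℂ)) (r mm),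
    GF D F → KKF D F kk r mm → ∀ k l : D.U, D.ou k ≠ D.ou l → D.m' k = D.m' l →
    3 ≤ D.m' k → ∀ ε : ℂ, (ε = 1 ∨ ε = -1) →
    ¬∀ Z ∈ kk, tp 2 (D.xu (r Z) l) = tp 2 (D.xu (r Z) k) ∧
      tp 3 (D.xu (r Z) l) = ε * tp 3 (D.xu (r Z) k)

/-- FLIE [250], from MMAT, FBLK, FNLS, MXDM, MRRT, FXRR, MUUL, FUUX, `SpecGOURM` (KM/Lie.lean). -/
def SpecFLie : Prop :=
  ∀ (D : Dat) (F : IntermediateField ℚ ℂ) (kk : Submodule ℂ (Matrix (Ix D.g) (Ix D.g) ℂ)) (r mm),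
    GF D F → KKF D F kk r mm →
    ∀ (X : D.FR) (Y : D.FU), (∀ k, (X k)ᵀ = -X k) → (∀ k, (Y k).trace = 0) →
      ∃ Z ∈ kk, D.wm X Y = r Z

/-- FFLT [150], from MMAT, MTRP, MGAL, FTRC (KM/Flt.lean), `GoodF.flat`. -/
def SpecFFlt : Prop :=
  ∀ (D : Dat) (F : IntermediateField ℚ ℂ) (kk : Submodule ℂ (Matrix (Ix D.g) (Ix D.g) ℂ)) (r mm),
    GF D F → KKF D F kk r mm → ∀ χ : D.U → ℚ, χ ≠ 0 →
    ∃ Z ∈ kk, ∑ k, (χ k : ℂ) * (D.xu (r Z) k).trace ≠ 0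

/-- FCNJ [100], from MTRP, MGAL (2), `GoodF.conj`, `KKF.gal`: replaces IMG. Proof: let `τ` be as in
`GoodF.conj`. `τ` maps the eigenvalues of `V_u` to those of `V_u^*`, so
`(pr (inl u)).map τ = pr (inr u)` (MGAL (2)), and for `Z' = Z.map τ`:
`tr (xu (r Z') u) = tr (r Z' pr_(inl u))`; as also `(pr (inr u)).map τ = pr (inl u)` (apply MGAL (1),
(2): the image of `inr u` is different from that of `inl v`, `v` arbitrary; or use that the image of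
`inr u` has the eigenvalues `τ (conj (lu e u)) = τ (τ (lu e u))`, which is the `swap` of the image
`inr u` of `inl u`, MGAL (4)), this is `τ (tr (r Z pr_(inr u))) = -τ (tr (xu (r Z) u))`. -/
def SpecFCnj : Prop :=
  ∀ (D : Dat) (F : IntermediateField ℚ ℂ) (kk : Submodule ℂ (Matrix (Ix D.g) (Ix D.g) ℂ)) (r mm),
    GF D F → KKF D F kk r mm → ∃ τ : ℂ ≃+* ℂ, ∀ Z ∈ kk, ∃ Z' ∈ kk, mm Z' = τ (mm Z) ∧
      ∀ k, (D.xu (r Z') k).trace = -τ ((D.xu (r Z) k).trace)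

end Pool.Agent.Lib.MPf11a48.KF
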