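import Pool.Agent.Lib.MP_f11a48_ag.KM.StmtF

/-!
# Families of Kuga-Satake pairs over a field `F`

The hypotheses of `GoodM` for the automorphisms of `ℂ` over a field `F`.
-/

set_option autoImplicit false

namespace Pool.Agent.Lib.MPf11a48.KF

open Matrix MvPolynomial Pool.Agent.Lib.MPf11a48.CM Pool.Agent.Lib.MPf11a48.GL2T
open Pool.Agent.Lib.MPf11a48.U (AbData Ix EndAlg)
open Pool.Agent.Lib.MPf11a48.K3 Pool.Agent.Lib.MPf11a48.KU Pool.Agent.Lib.MPf11a48.KM

section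

variable {n : ℕ} {I R U : Type} [Fintype R] [DecidableEq R] [Fintype U] [DecidableEq U]

/-- Every non-zero space of odd rational functions on the set of the eigenspaces `V_u`, `V_u^*`, which
is stable under the automorphisms of `ℂ` over `F`, contains a non-zero function with values in
`{0, 1, -1}` which is zero outside the eigenspaces in `T_i`, for some `i`. -/
def FlatF (F : IntermediateField ℚ ℂ) (E : Set (Matrix (Fin n) (Fin n) ℚ))
    (lu : Matrix (Fin n) (Fin n) ℚ → U → ℂ) (ou : U → I) : Prop :=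
  ∀ N : Submodule ℚ (U ⊕ U → ℚ), N ≠ ⊥ → (∀ f ∈ N, ∀ k, f (Sum.inr k) = -f (Sum.inl k)) →
    (∀ (τ : ℂ ≃+* ℂ) (σ : Equiv.Perm (U ⊕ U)), (∀ a ∈ F, τ a = a) →
      (∀ e ∈ E, ∀ s, chr lu e (σ s) = τ (chr lu e s)) → ∀ f ∈ N, (fun s => f (σ s)) ∈ N) →
    ∃ f ∈ N, f ≠ 0 ∧ (∀ s, f s = 0 ∨ f s = 1 ∨ f s = -1) ∧
      ∃ i, ∀ u, f (Sum.inl u) ≠ 0 → ou u = i

/-- The hypotheses on the dimensions of the eigenspaces: `V_r`, `r ∈ R`, is contained in `T_i` for
`i = ox r`, and has dimension at least `3` and not `5`; `V_u`, `V_u^*`, `u ∈ U`, are contained in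
`T_i` for `i = ou u`, and have dimension `1` or even; each `T_i` has eigenspaces of one kind only
(`pure`); for two eigenspaces in different `T_i` whose Lie algebras may be isomorphic there are further
hypotheses (`rr`, `ru`, `uu`). The hypotheses on the automorphisms of `ℂ` over `F`: the eigenspaces
`V_r` in `T_i` are conjugate, if there are eigenspaces of this kind in other `T_j` (`trans`); there is
an automorphism which exchanges `V_u` and `V_u^*` for all `u` (`conj`); `FlatF`. -/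
structure GoodF [DecidableEq I] (F : IntermediateField ℚ ℂ) (E : Set (Matrix (Fin n) (Fin n) ℚ))
    (ix : Fin n → I) (m : R → ℕ) (lr : Matrix (Fin n) (Fin n) ℚ → R → ℂ) (m' : U → ℕ)
    (lu : Matrix (Fin n) (Fin n) ℚ → U → ℂ) (ox : R → I) (ou : U → I) : Prop where
  inR : ∀ r, lr (prj ix (ox r)) r = 1
  inU : ∀ u, lu (prj ix (ou u)) u = 1
  three : ∀ r, 3 ≤ m r
  five : ∀ r, m r ≠ 5
  pos : ∀ u, 0 < m' u
  even : ∀ u, m' u = 1 ∨ Even (m' u)
  pure : ∀ r u, ox r ≠ ou u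
  rr : ∀ r s, ox r ≠ ox s → (m r = m s → m r ≠ 4 ∧ ∀ k, m r ≠ 2 ^ (2 * k + 1)) ∧
    (m r = 3 → m s ≠ 4)
  ru : ∀ r u, m r * (m r - 1) ≠ 2 * (m' u ^ 2 - 1) ∧ (m r = 4 → m' u ≠ 2)
  uu : ∀ u v, ou u ≠ ou v → m' u = m' v → m' u ≠ 2
  trans : ∀ r s, ox r = ox s → (∃ r', ox r' ≠ ox r) →
    ∃ τ : ℂ ≃+* ℂ, (∀ a ∈ F, τ a = a) ∧ ∀ e ∈ E, lr e s = τ (lr e r)
  conj : ∃ τ : ℂ ≃+* ℂ, (∀ a ∈ F, τ a = a) ∧
    ∀ e ∈ E, ∀ u, (starRingEnd ℂ) (lu e u) = τ (lu e u)
  flat : FlatF F E lu ou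

end

/-- `T_B ⊗ ℂ` is the sum of the eigenspaces of `E`, as in `SplitM`, which satisfy the hypotheses of
`GoodF`, and `𝓖` is the group `gspinM`. -/
def GroupF (F : IntermediateField ℚ ℂ) {g N n : ℕ} {I : Type} [DecidableEq I] (A : AbData g N)
    (c : GL (Ix g) ℂ) (qB : Matrix (Fin n) (Fin n) ℚ) (B : Fin n → Matrix (Ix g) (Ix g) ℚ)
    (E : Set (Matrix (Fin n) (Fin n) ℚ)) (ix : Fin n → I) (𝓖 : Set (Grp3 g n)) : Prop :=
  ∃ (R U : Type) (_ : Fintype R) (_ : DecidableEq R) (_ : Fintype U) (_ : DecidableEq U)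
    (m : R → ℕ) (P : Matrix (Fin n) ((k : R) × Fin (m k)) ℂ)
    (lr : Matrix (Fin n) (Fin n) ℚ → R → ℂ) (m' : U → ℕ)
    (P' Q' : Matrix (Fin n) ((k : U) × Fin (m' k)) ℂ) (lu : Matrix (Fin n) (Fin n) ℚ → U → ℂ)
    (ox : R → I) (ou : U → I),
    SplitM qB E m P lr m' P' Q' lu ∧ GoodF F E ix m lr m' lu ox ou ∧
      𝓖 = gspinM A c qB B m P m' P' Q'

section

variable {n : ℕ} {I R U : Type} [Fintype R] [DecidableEq R] [Fintype U] [DecidableEq U]
  [DecidableEq I] {F : IntermediateField ℚ ℂ} {E : Set (Matrix (Fin n) (Fin n) ℚ)}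
  {ix : Fin n → I} {m : R → ℕ} {lr : Matrix (Fin n) (Fin n) ℚ → R → ℂ} {m' : U → ℕ}
  {lu : Matrix (Fin n) (Fin n) ℚ → U → ℂ} {ox : R → I} {ou : U → I}

omit [Fintype R] [DecidableEq R] [Fintype U] [DecidableEq U] in
/-- the hypotheses over `F` imply those over `ℚ` -/
theorem GoodF.good (h : GoodF F E ix m lr m' lu ox ou) : GoodM E ix m lr m' lu ox ou where
  inR := h.inR
  inU := h.inU
  three := h.three
  five := h.five
  pos := h.pos
  even := h.even
  pure := h.pure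
  rr := h.rr
  ru := h.ru
  uu := h.uu
  trans r s hrs hr := by
    obtain ⟨τ, -, hτ⟩ := h.trans r s hrs hr
    exact ⟨τ, hτ⟩
  flat N hN ho hs := h.flat N hN ho fun τ σ _ hτσ => hs τ σ hτσ

omit [Fintype R] [DecidableEq R] [Fintype U] [DecidableEq U] in
/-- over `ℚ` the hypotheses are those of `GoodM` -/
theorem GoodF.of (h : GoodM E ix m lr m' lu ox ou) : GoodF ⊥ E ix m lr m' lu ox ou where
  inR := h.inR
  inU := h.inU
  three := h.three
  five := h.five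
  pos := h.pos
  even := h.even
  pure := h.pure
  rr := h.rr
  ru := h.ru
  uu := h.uu
  trans r s hrs hr := by
    obtain ⟨τ, hτ⟩ := h.trans r s hrs hr
    refine ⟨τ, fun a ha => ?_, hτ⟩
    obtain ⟨q, rfl⟩ := IntermediateField.mem_bot.1 ha
    exact map_ratCast τ q
  conj := by
    refine ⟨(starRingAut : RingAut ℂ), fun a ha => ?_, fun e _ u => rfl⟩
    obtain ⟨q, rfl⟩ := IntermediateField.mem_bot.1 ha
    exact map_ratCast (starRingAut : RingAut ℂ) q
  flat N hN ho hs := by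
    refine h.flat N hN ho fun τ σ hτσ => hs τ σ (fun a ha => ?_) hτσ
    obtain ⟨q, rfl⟩ := IntermediateField.mem_bot.1 ha
    exact map_ratCast τ q

end

end Pool.Agent.Lib.MPf11a48.KF
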