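import Pool.Agent.Lib.MP_f11a48_ag.KF.SpecB
import Pool.Agent.Lib.MP_f11a48_ag.KM.Tg

/-! # Families of Kuga-Satake pairs over a field: the torus in the Lie algebra of a torsor -/

set_option autoImplicit false
set_option linter.unusedSectionVars false

namespace Pool.Agent.Lib.MPf11a48.KF

open Matrix MvPolynomial Pool.Agent.Lib.MPf11a48.Tors
open Pool.Agent.Lib.MPf11a48.CM hiding OmegaM
open Pool.Agent.Lib.MPf11a48.GL2 (lie Geo)
open Pool.Agent.Lib.MPf11a48.GL2T (IsAlg)
open Pool.Agent.Lib.MPf11a48.U (AbData Ix HD EndAlg)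
open Pool.Agent.Lib.MPf11a48.K3 Pool.Agent.Lib.MPf11a48.KU Pool.Agent.Lib.MPf11a48.KM
open KLieM (bl clC gam)
open KGrpM (stab)
open KGrp3M (G0 sc ex)

open KM.TgM in
theorem specFTg (hFlb : SpecFFlb) (hTor : SpecUTor) (hDia : SpecMDia) (hDer : SpecMDer)
    (hCar : SpecMCar) (hMat : SpecMMat) (hCurve : SpecCurve) : SpecFTg := by
  intro D F₀ T hG hT z s
  obtain ⟨-, he, hf, hef, -, hpe, hpf, hcl, -⟩ := hCar D
  obtain ⟨-, -, -, -, -, hpr, -⟩ := hMat D
  obtain ⟨F, hF1, hF2⟩ := hDia (Ix D.g ⊕ (Fin D.n ⊕ Unit)) (WT D) (D.U ⊕ Unit) (KM.TgM.tp D) (tchi D)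
    (tp_idem he hef hpe hpr) (tp_comm he hf hef hpe hpf hpr)
  have hgeo := GL2.geo_of_torsor hT.tor
  simp only [X_eq D hcl] at hF2
  have h0 : ∀ v : D.U ⊕ Unit → ℂ, (F fun k => ex (0 * v k)) = 1 := by
    intro v
    have e : (fun k => ex (0 * v k)) = 1 := by
      funext j
      rw [zero_mul, ex_zero]
      rfl
    rw [e, map_one]
  have hmem : ∀ w, ∀ f ∈ T, F w * f ∈ T := by
    refine hTor _ (D.U ⊕ Unit) T hgeo F hF1 fun χ hχ => ?_
    by_contra hcon
    push Not at hcon
    have key := hFlb D F₀ T hG hT (fun k => (χ (Sum.inl k) : ℚ) / 2) (χ (Sum.inr ())) fun z s hl => ?_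
    · apply hχ
      have k2 : χ (Sum.inr ()) = 0 := by exact_mod_cast key.2
      funext j
      rcases j with k | u
      · have k1 := congrFun key.1 k
        simp only [Pi.zero_apply] at k1
        have k3 : (χ (Sum.inl k) : ℚ) = 0 := by linarith
        exact_mod_cast k3
      · exact k2
    · by_contra hne
      set v : D.U ⊕ Unit → ℂ := Sum.elim (fun k => z k / 2) fun _ => s with hv
      have ez : (fun k => 2 * v (Sum.inl k)) = z := by
        funext k
        rw [hv, Sum.elim_inl]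
        ring
      have hne' : ∑ j, (χ j : ℂ) * v j ≠ 0 := by
        intro h1
        apply hne
        rw [← h1, Fintype.sum_sum_type]
        simp only [hv, Sum.elim_inl, Sum.elim_inr, Finset.univ_unique, Finset.sum_singleton]
        congr 1
        refine Finset.sum_congr rfl fun k _ => ?_
        push_cast
        ring
      obtain ⟨u, f, hf', hnot⟩ := hcon v hne'
      apply hnot
      refine hCurve _ T hgeo _ hl (fun s => F fun k => ex (s * v k)) (h0 v) (fun s' i j => ?_)
        f hf' u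
      have h1 := hF2 v s' i j
      rw [ez] at h1
      exact h1
  set v : D.U ⊕ Unit → ℂ := Sum.elim (fun k => z k / 2) fun _ => s with hv
  have ez : (fun k => 2 * v (Sum.inl k)) = z := by
    funext k
    rw [hv, Sum.elim_inl]
    ring
  refine hDer _ T _ (fun s => F fun k => ex (s * v k)) (h0 v) (fun i j => ?_)
    fun s f hf => hmem _ f hf
  have h1 := hF2 v 0 i j
  rw [ez, h0 v, Units.val_one, Matrix.mul_one] at h1
  exact h1

end Pool.Agent.Lib.MPf11a48.KF
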